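import Pool.Agent.Helper438.Proj.Defs

namespace Pool.Agent.Helper438.Proj

open Set Filter Topology

/-- polynomial algebra of the iterated commutators -/
theorem alg_matrix (α β z1 z2 z3 z4 z5 z6 : ℝ) (W : ℕ → Matrix (Fin 3) (Fin 3) ℝ)
    (h0 : W 0 = !![0, z1, z2; 0, z3, z4; 0, z5, z6])
    (hs : ∀ n, W (n + 1) = W n * !![0, 0, α; 1, 0, β; 0, 1, 0] -
      !![0, 0, α; 1, 0, β; 0, 1, 0] * W n)
    (hz : ∀ n, W n 2 0 = 0) :
    z5 = 0 ∧ z6 = 2 * z3 ∧ z4 = z1 ∧ z2 = -(z3 * β) ∧ z3 * α = 0 ∧ z1 * α = 0 := by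
  have e1 := hs 0
  rw [h0] at e1
  have w1 := hz 1
  rw [zero_add] at e1
  rw [e1] at w1
  simp [Matrix.mul_apply, Fin.sum_univ_three, Matrix.vecMul, Matrix.sub_apply] at w1
  subst w1
  have e1' : W 1 = !![z1, z2, β * z1; z3, z4, β * z3; 0, z6, 0] -
      !![0, 0, α * z6; 0, z1, z2 + β * z6; 0, z3, z4] := by
    rw [e1]
    ext i j
    fin_cases i <;> fin_cases j <;>
      simp [Matrix.mul_apply, Fin.sum_univ_three, Matrix.sub_apply] <;> ring
  have e2 := hs 1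
  have w2 := hz 2
  rw [show (1 + 1 : ℕ) = 2 from rfl] at e2
  rw [e2, e1'] at w2
  simp [Matrix.mul_apply, Fin.sum_univ_three, Matrix.sub_apply] at w2
  have h6 : z6 = 2 * z3 := by linarith
  subst h6
  have e1'' : W 1 = !![z1, z2, β * z1 - 2 * α * z3; z3, z4 - z1, -z2 - β * z3; 0, z3, -z4] := by
    rw [e1']
    ext i j
    fin_cases i <;> fin_cases j <;> simp [Matrix.sub_apply] <;> ring
  have e2' : W 2 = !![z2, β * z1 - 3 * α * z3, α * z4 + α * z1 + β * z2;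
      z4 - 2 * z1, -2 * z2 - 2 * β * z3, 3 * α * z3 + β * (2 * z4 - 2 * z1);
      0, z1 - 2 * z4, 2 * β * z3 + z2] := by
    rw [e2, e1'']
    ext i j
    fin_cases i <;> fin_cases j <;>
      simp [Matrix.mul_apply, Fin.sum_univ_three, Matrix.sub_apply] <;> ring
  have e3 := hs 2
  have w3 := hz 3
  rw [show (2 + 1 : ℕ) = 3 from rfl] at e3
  rw [e3, e2'] at w3
  simp [Matrix.mul_apply, Fin.sum_univ_three, Matrix.sub_apply] at w3
  have h4 : z4 = z1 := by linarith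
  subst h4
  have e3' : W 3 = !![β * z4 - 3 * α * z3, 3 * α * z4 + β * z2, β ^ 2 * z4 - 5 * α * β * z3;
      -3 * z2 - 2 * β * z3, 6 * α * z3, -3 * α * z4 - 4 * β * z2 - 4 * β ^ 2 * z3;
      0, 3 * z2 + 4 * β * z3, -β * z4 - 3 * α * z3] := by
    rw [e3, e2']
    ext i j
    fin_cases i <;> fin_cases j <;>
      simp [Matrix.mul_apply, Fin.sum_univ_three, Matrix.sub_apply] <;> ring
  have e4 := hs 3
  have w4 := hz 4
  rw [show (3 + 1 : ℕ) = 4 from rfl] at e4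
  rw [e4, e3'] at w4
  simp [Matrix.mul_apply, Fin.sum_univ_three, Matrix.sub_apply] at w4
  have h2 : z2 = -(z3 * β) := by linarith
  subst h2
  have e4' : W 4 = !![3 * α * z4 - β ^ 2 * z3, β ^ 2 * z4 - 6 * α * β * z3,
        5 * α * β * z4 - β ^ 3 * z3;
      9 * α * z3 - β * z4, -6 * α * z4, 15 * α * β * z3;
      0, -β * z4 - 9 * α * z3, β ^ 2 * z3 + 3 * α * z4] := by
    rw [e4, e3']
    ext i j
    fin_cases i <;> fin_cases j <;>
      simp [Matrix.mul_apply, Fin.sum_univ_three, Matrix.sub_apply] <;> ring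
  have e5 := hs 4
  have w5 := hz 5
  rw [show (4 + 1 : ℕ) = 5 from rfl] at e5
  have w5' := w5
  rw [e5, e4'] at w5'
  simp [Matrix.mul_apply, Fin.sum_univ_three, Matrix.sub_apply] at w5'
  have h3 : z3 * α = 0 := by linarith
  have e6 := hs 5
  have w6 := hz 6
  rw [show (5 + 1 : ℕ) = 6 from rfl] at e6
  rw [e6, e5, e4'] at w6
  simp [Matrix.mul_apply, Fin.sum_univ_three, Matrix.sub_apply] at w6
  refine ⟨rfl, rfl, rfl, rfl, h3, ?_⟩
  linear_combination (1/18 : ℝ) * w6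

end Pool.Agent.Helper438.Proj
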