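import Mathlib

namespace Pool.Agent.Helper438.Proj.SA1

open Set Filter Topology

lemma phi_expand (Φ : QuadraticForm ℝ (Fin 3 → ℝ)) :
    ∃ a b c d e f : ℝ, ∀ x y t : ℝ,
      Φ ![x, y, t] = a * x ^ 2 + b * y ^ 2 + c * t ^ 2 + d * (x * y) + e * (x * t) + f * (y * t) := by
  refine ⟨Φ ![1, 0, 0], Φ ![0, 1, 0], Φ ![0, 0, 1], QuadraticMap.polar Φ ![1, 0, 0] ![0, 1, 0],
    QuadraticMap.polar Φ ![1, 0, 0] ![0, 0, 1], QuadraticMap.polar Φ ![0, 1, 0] ![0, 0, 1], ?_⟩
  intro x y t
  have h1 : (![x, y, t] : Fin 3 → ℝ) =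
      (x • (![1, 0, 0] : Fin 3 → ℝ) + y • (![0, 1, 0] : Fin 3 → ℝ)) + t • (![0, 0, 1] : Fin 3 → ℝ) := by
    ext i
    fin_cases i <;> simp
  rw [h1, QuadraticMap.map_add Φ, QuadraticMap.map_add Φ]
  simp only [QuadraticMap.map_smul, QuadraticMap.polar_add_left, QuadraticMap.polar_smul_left,
    QuadraticMap.polar_smul_right, smul_eq_mul]
  ring

lemma plane_formula (g : EuclideanSpace ℝ (Fin 3) → ℝ)
    (g0 : g 0 = 0) (gpos : ∀ x, x ≠ 0 → 0 < g x)
    (A B : EuclideanSpace ℝ (Fin 3)) (hAB : LinearIndependent ℝ ![A, B])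
    (h : ∃ Φ : QuadraticForm ℝ (Fin 3 → ℝ), Φ ≠ 0 ∧
        ∀ x y : ℝ, Φ ![x, y, g (x • A + y • B)] = 0) :
    ∃ α β p r s : ℝ, ∀ x y : ℝ,
      g (x • A + y • B) - g (-(x • A + y • B)) = α * x + β * y ∧
      g (x • A + y • B) * g (-(x • A + y • B)) = p * x ^ 2 + r * y ^ 2 + s * (x * y) := by
  obtain ⟨Φ, hΦ, hz⟩ := h
  obtain ⟨a, b, c, d, e, f, hex⟩ := phi_expand Φ
  have key : ∀ x y : ℝ, (x ≠ 0 ∨ y ≠ 0) →
      c * (g (x • A + y • B) - g (-(x • A + y • B))) = -(e * x + f * y) ∧
      c * (g (x • A + y • B) * g (-(x • A + y • B))) = -(a * x ^ 2 + b * y ^ 2 + d * (x * y)) := by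
    intro x y hxy
    have hne : x • A + y • B ≠ 0 := by
      intro h0
      have := (LinearIndependent.pair_iff.mp hAB) x y h0
      rcases hxy with h1 | h1
      · exact h1 this.1
      · exact h1 this.2
    have hp1 := gpos _ hne
    have hp2 := gpos _ (neg_ne_zero.mpr hne)
    have e1 := hz x y
    have e2 := hz (-x) (-y)
    have h3 : (-x) • A + (-y) • B = -(x • A + y • B) := by
      rw [neg_smul, neg_smul, neg_add]
    rw [h3] at e2
    rw [hex] at e1 e2
    set T1 := g (x • A + y • B) with hT1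
    set T2 := g (-(x • A + y • B)) with hT2
    have h4 : (T1 + T2) * (c * (T1 - T2) + (e * x + f * y)) = 0 := by
      linear_combination e1 - e2
    have h5 : c * (T1 - T2) + (e * x + f * y) = 0 := by
      rcases mul_eq_zero.mp h4 with h6 | h6
      · linarith
      · exact h6
    refine ⟨by linarith, ?_⟩
    linear_combination e1 - T1 * h5
  have hc : c ≠ 0 := by
    intro hc
    subst hc
    have k1 := key 1 0 (Or.inl one_ne_zero)
    have k2 := key 0 1 (Or.inr one_ne_zero)
    have k3 := key 1 1 (Or.inl one_ne_zero)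
    have he : e = 0 := by linarith [k1.1]
    have hf : f = 0 := by linarith [k2.1]
    have ha : a = 0 := by linarith [k1.2]
    have hb : b = 0 := by linarith [k2.2]
    have hd : d = 0 := by linarith [k3.2]
    apply hΦ
    ext v
    have hv : v = ![v 0, v 1, v 2] := by
      ext i
      fin_cases i <;> rfl
    rw [hv, hex, ha, hb, hd, he, hf]
    simp
  refine ⟨-e / c, -f / c, -a / c, -b / c, -d / c, ?_⟩
  intro x y
  by_cases hxy : x ≠ 0 ∨ y ≠ 0
  · obtain ⟨k1, k2⟩ := key x y hxy
    constructor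
    · have : c * (g (x • A + y • B) - g (-(x • A + y • B))) = c * (-e / c * x + -f / c * y) := by
        rw [k1]; field_simp; ring
      exact mul_left_cancel₀ hc this
    · have : c * (g (x • A + y • B) * g (-(x • A + y • B))) =
          c * (-a / c * x ^ 2 + -b / c * y ^ 2 + -d / c * (x * y)) := by
        rw [k2]; field_simp; ring
      exact mul_left_cancel₀ hc this
  · push Not at hxy
    obtain ⟨rfl, rfl⟩ := hxy
    simp [g0]

/-- TARGET A1. -/
theorem gauge_quadratic (K : Set (EuclideanSpace ℝ (Fin 3))) (hc : Convex ℝ K)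
    (hK : IsCompact K) (h0 : (0 : EuclideanSpace ℝ (Fin 3)) ∈ interior K)
    (h : ∀ A B : EuclideanSpace ℝ (Fin 3), LinearIndependent ℝ ![A, B] →
      ∃ Φ : QuadraticForm ℝ (Fin 3 → ℝ), Φ ≠ 0 ∧
        ∀ x y : ℝ, Φ ![x, y, gauge K (x • A + y • B)] = 0) :
    ∃ (q : QuadraticForm ℝ (EuclideanSpace ℝ (Fin 3))) (l : EuclideanSpace ℝ (Fin 3) →ₗ[ℝ] ℝ),
      (∀ x, x ≠ 0 → 0 < q x) ∧ K = {x | q x + l x ≤ 1} := by
  have hnhds : K ∈ 𝓝 (0 : EuclideanSpace ℝ (Fin 3)) := mem_interior_iff_mem_nhds.mp h0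
  have habs : Absorbent ℝ K := absorbent_nhds_zero hnhds
  have hb : Bornology.IsVonNBounded ℝ K := hK.isVonNBounded ℝ
  obtain ⟨g, hg⟩ : ∃ g : EuclideanSpace ℝ (Fin 3) → ℝ, g = gauge K := ⟨_, rfl⟩
  have g0 : g 0 = 0 := by rw [hg]; exact gauge_zero
  have gpos : ∀ x, x ≠ 0 → 0 < g x := by
    intro x hx
    rw [hg]
    exact (gauge_pos habs hb).mpr hx
  have gnn : ∀ x, 0 ≤ g x := by
    intro x; rw [hg]; exact gauge_nonneg x
  have gsm : ∀ (c : ℝ), 0 ≤ c → ∀ x, g (c • x) = c * g x := by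
    intro c hc' x
    rw [hg, gauge_smul_of_nonneg hc', smul_eq_mul]
  have hpl : ∀ A B : EuclideanSpace ℝ (Fin 3), LinearIndependent ℝ ![A, B] →
      ∃ α β p r s : ℝ, ∀ x y : ℝ,
      g (x • A + y • B) - g (-(x • A + y • B)) = α * x + β * y ∧
      g (x • A + y • B) * g (-(x • A + y • B)) = p * x ^ 2 + r * y ^ 2 + s * (x * y) := by
    intro A B hAB
    apply plane_formula g g0 gpos A B hAB
    rw [hg]
    exact h A B hAB
  -- the two functions
  obtain ⟨l, hl⟩ : ∃ l : EuclideanSpace ℝ (Fin 3) → ℝ, ∀ w, l w = g w - g (-w) := ⟨_, fun _ => rfl⟩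
  obtain ⟨q, hq⟩ : ∃ q : EuclideanSpace ℝ (Fin 3) → ℝ, ∀ w, q w = g w * g (-w) := ⟨_, fun _ => rfl⟩
  have lsm : ∀ (c : ℝ) x, l (c • x) = c * l x := by
    intro c x
    rw [hl, hl]
    rcases le_total 0 c with hc' | hc'
    · rw [gsm c hc', ← smul_neg, gsm c hc']; ring
    · have h1 : c • x = (-c) • (-x) := by rw [smul_neg, neg_smul, neg_neg]
      have h2 : -(c • x) = (-c) • x := by rw [neg_smul]
      rw [h2, h1, gsm _ (by linarith), gsm _ (by linarith)]; ring
  have qsm : ∀ (c : ℝ) x, q (c • x) = c * c * q x := by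
    intro c x
    rw [hq, hq]
    rcases le_total 0 c with hc' | hc'
    · rw [gsm c hc', ← smul_neg, gsm c hc']; ring
    · have h1 : c • x = (-c) • (-x) := by rw [smul_neg, neg_smul, neg_neg]
      have h2 : -(c • x) = (-c) • x := by rw [neg_smul]
      rw [h2, h1, gsm _ (by linarith), gsm _ (by linarith)]; ring
  have hpl' : ∀ A B : EuclideanSpace ℝ (Fin 3), LinearIndependent ℝ ![A, B] →
      ∃ α β p r s : ℝ, ∀ x y : ℝ, l (x • A + y • B) = α * x + β * y ∧
      q (x • A + y • B) = p * x ^ 2 + r * y ^ 2 + s * (x * y) := by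
    intro A B hAB
    obtain ⟨α, β, p, r, s, h1⟩ := hpl A B hAB
    refine ⟨α, β, p, r, s, fun x y => ?_⟩
    rw [hl, hq]
    exact h1 x y
  have dich : ∀ v w : EuclideanSpace ℝ (Fin 3), LinearIndependent ℝ ![v, w] ∨ v = 0 ∨ ∃ c : ℝ, w = c • v := by
    intro v w
    by_cases hv : v = 0
    · exact Or.inr (Or.inl hv)
    · by_cases hi : LinearIndependent ℝ ![v, w]
      · exact Or.inl hi
      · right; right
        rw [LinearIndependent.pair_iff' hv] at hi
        push Not at hi
        obtain ⟨c, hc'⟩ := hi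
        exact ⟨c, hc'.symm⟩
  have ladd : ∀ v w, l (v + w) = l v + l w := by
    intro v w
    rcases dich v w with hi | rfl | ⟨c, rfl⟩
    · obtain ⟨α, β, p, r, s, h1⟩ := hpl' v w hi
      have e1 := (h1 1 1).1
      have e2 := (h1 1 0).1
      have e3 := (h1 0 1).1
      simp only [one_smul, zero_smul, add_zero, zero_add, mul_one, mul_zero] at e1 e2 e3
      rw [e1, e2, e3]
    · have : l 0 = 0 := by
        have := lsm 0 0
        rw [zero_smul, zero_mul] at this
        exact this
      rw [zero_add, this, zero_add]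
    · have h1 : v + c • v = (1 + c) • v := by rw [add_smul, one_smul]
      rw [h1, lsm, lsm]; ring
  have qpar : ∀ v w, q (v + w) + q (v - w) = 2 * q v + 2 * q w := by
    intro v w
    rcases dich v w with hi | rfl | ⟨c, rfl⟩
    · obtain ⟨α, β, p, r, s, h1⟩ := hpl' v w hi
      have e1 := (h1 1 1).2
      have e2 := (h1 1 0).2
      have e3 := (h1 0 1).2
      have e4 := (h1 1 (-1)).2
      simp only [one_smul, zero_smul, add_zero, zero_add, neg_smul, ← sub_eq_add_neg] at e1 e2 e3 e4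
      rw [e1, e2, e3, e4]; ring
    · have e1 : q 0 = 0 := by
        have := qsm 0 0
        rw [zero_smul, zero_mul, zero_mul] at this
        exact this
      have e2 : q (-w) = q w := by
        have := qsm (-1) w
        rw [neg_smul, one_smul] at this
        linarith
      rw [zero_add, zero_sub, e1, e2]; ring
    · have h1 : v + c • v = (1 + c) • v := by rw [add_smul, one_smul]
      have h2 : v - c • v = (1 - c) • v := by rw [sub_smul, one_smul]
      rw [h1, h2, qsm, qsm, qsm]; ring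
  have qpolar : ∀ (a : ℝ) (v w), q (a • v + w) - q (a • v) - q w = a * (q (v + w) - q v - q w) := by
    intro a v w
    rcases dich v w with hi | rfl | ⟨c, rfl⟩
    · obtain ⟨α, β, p, r, s, h1⟩ := hpl' v w hi
      have e1 := (h1 1 1).2
      have e2 := (h1 1 0).2
      have e3 := (h1 0 1).2
      have e4 := (h1 a 1).2
      simp only [one_smul, zero_smul, add_zero, zero_add] at e1 e2 e3 e4
      rw [qsm, e1, e2, e3, e4]; ring
    · have e1 : q 0 = 0 := by
        have := qsm 0 0
        rw [zero_smul, zero_mul, zero_mul] at this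
        exact this
      rw [smul_zero, zero_add, e1]; ring
    · have h1 : v + c • v = (1 + c) • v := by rw [add_smul, one_smul]
      have h2 : a • v + c • v = (a + c) • v := by rw [add_smul]
      rw [h1, h2, qsm, qsm, qsm, qsm]; ring
  have qadd : ∀ x x' y, q (x + x' + y) - q (x + x') - q y =
      (q (x + y) - q x - q y) + (q (x' + y) - q x' - q y) := by
    intro x x' y
    have p1 := qpar (x + y) x'
    have p2 := qpar x (y - x')
    have p3 := qpar (x + x') y
    have p4 := qpar y x'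
    have r1 : x + y + x' = x + x' + y := by abel
    have r2 : x + (y - x') = x + y - x' := by abel
    have r3 : x - (y - x') = x + x' - y := by abel
    have r4 : y + x' = x' + y := by abel
    rw [r1] at p1
    rw [r2, r3] at p2
    rw [r4] at p4
    linarith
  refine ⟨QuadraticMap.ofPolar q (fun a x => by rw [qsm, smul_eq_mul]) (fun x x' y => ?_) (fun a x y => ?_),
    { toFun := l, map_add' := ladd, map_smul' := fun c x => by rw [lsm]; rfl }, ?_, ?_⟩
  · exact qadd x x' y
  · simp only [QuadraticMap.polar, smul_eq_mul]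
    exact qpolar a x y
  · intro x hx
    change 0 < q x
    rw [hq]
    exact mul_pos (gpos x hx) (gpos _ (neg_ne_zero.mpr hx))
  · ext x
    change x ∈ K ↔ q x + l x ≤ 1
    have h1 : x ∈ K ↔ g x ≤ 1 := by
      rw [hg, gauge_le_one_iff_mem_closure hc hnhds, hK.isClosed.closure_eq]
    rw [h1, hq, hl]
    have h2 := gnn (-x)
    constructor
    · intro h3
      nlinarith
    · intro h3
      by_contra h4
      push Not at h4
      nlinarith

end Pool.Agent.Helper438.Proj.SA1
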