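import Mathlib

namespace Pool.Agent.Helper438.Proj.SA2

open Set Filter Topology

theorem exists_isom_aux (q : QuadraticForm ℝ (EuclideanSpace ℝ (Fin 3)))
    (hq : ∀ x, x ≠ 0 → 0 < q x) :
    ∃ T : EuclideanSpace ℝ (Fin 3) ≃ₗ[ℝ] EuclideanSpace ℝ (Fin 3), ∀ x, q x = ‖T x‖ ^ 2 := by
  classical
  have hani : q.Anisotropic := by
    intro x hx
    by_contra h
    have := hq x h
    linarith
  have hsep := QuadraticMap.separatingLeft_of_anisotropic q hani
  obtain ⟨w, hw, ⟨e⟩⟩ := q.equivalent_one_neg_one_weighted_sum_squared hsep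
  have hfin : Module.finrank ℝ (EuclideanSpace ℝ (Fin 3)) = 3 := by simp
  have hw1 : ∀ i, w i = 1 := by
    intro i
    rcases hw i with h | h
    · exfalso
      set x := e.symm (Pi.single i (1:ℝ)) with hx
      have h1 : q x = QuadraticMap.weightedSumSquares ℝ w (Pi.single i (1:ℝ)) := by
        rw [← e.map_app x, hx]
        congr 1
        exact e.toLinearEquiv.apply_symm_apply _
      have hxne : x ≠ 0 := by
        intro h0
        have : e x = 0 := by rw [h0]; exact e.toLinearEquiv.map_zero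
        rw [hx] at this
        have h2 : (e (e.symm (Pi.single i (1:ℝ)))) = (Pi.single i (1:ℝ) : Fin _ → ℝ) :=
          e.toLinearEquiv.apply_symm_apply _
        rw [h2] at this
        have := congrFun this i
        simp at this
      have h3 := hq x hxne
      rw [h1, QuadraticMap.weightedSumSquares_apply] at h3
      rw [Finset.sum_eq_single i] at h3
      · simp [h] at h3
        linarith
      · intro b _ hb
        simp [Pi.single_eq_of_ne hb]
      · simp
    · exact h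
  -- linear equivalence
  let e1 : EuclideanSpace ℝ (Fin 3) ≃ₗ[ℝ] (Fin (Module.finrank ℝ (EuclideanSpace ℝ (Fin 3))) → ℝ) :=
    e.toLinearEquiv
  let e2 : (Fin (Module.finrank ℝ (EuclideanSpace ℝ (Fin 3))) → ℝ) ≃ₗ[ℝ] (Fin 3 → ℝ) :=
    LinearEquiv.funCongrLeft ℝ ℝ (finCongr hfin).symm
  let e3 : (Fin 3 → ℝ) ≃ₗ[ℝ] EuclideanSpace ℝ (Fin 3) := (WithLp.linearEquiv 2 ℝ (Fin 3 → ℝ)).symm
  refine ⟨(e1.trans e2).trans e3, fun x => ?_⟩
  have h1 : q x = ∑ i, (e1 x i) * (e1 x i) := by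
    have := e.map_app x
    rw [← this, QuadraticMap.weightedSumSquares_apply]
    apply Finset.sum_congr rfl
    intro i _
    rw [hw1 i, one_smul]
    rfl
  rw [h1, EuclideanSpace.norm_sq_eq]
  rw [← Equiv.sum_comp (finCongr hfin).symm]
  apply Finset.sum_congr rfl
  intro i _
  have : (((e1.trans e2).trans e3) x) i = e1 x ((finCongr hfin).symm i) := rfl
  rw [this, Real.norm_eq_abs, sq_abs, sq]

/-- TARGET A2. -/
theorem ellipsoid_normal_form (q : QuadraticForm ℝ (EuclideanSpace ℝ (Fin 3)))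
    (hq : ∀ x, x ≠ 0 → 0 < q x) (l : EuclideanSpace ℝ (Fin 3) →ₗ[ℝ] ℝ) :
    ∃ A : EuclideanSpace ℝ (Fin 3) ≃ᵃ[ℝ] EuclideanSpace ℝ (Fin 3),
      {x | q x + l x ≤ 1} = ⇑A '' Metric.closedBall (0 : EuclideanSpace ℝ (Fin 3)) 1 := by
  obtain ⟨T, hT⟩ := exists_isom_aux q hq
  -- l = inner with b after T
  let l' : EuclideanSpace ℝ (Fin 3) →L[ℝ] ℝ := LinearMap.toContinuousLinearMap (l ∘ₗ T.symm.toLinearMap)
  let b : EuclideanSpace ℝ (Fin 3) := (InnerProductSpace.toDual ℝ (EuclideanSpace ℝ (Fin 3))).symm l'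
  have hb : ∀ x, l x = inner ℝ b (T x) := by
    intro x
    have : inner ℝ b (T x) = l' (T x) := by
      simp [b]
    rw [this]
    simp [l']
  let c : EuclideanSpace ℝ (Fin 3) := (1/2 : ℝ) • b
  have key : ∀ x, q x + l x = ‖T x + c‖ ^ 2 - ‖c‖ ^ 2 := by
    intro x
    rw [hT, hb, norm_add_sq_real]
    have : inner ℝ (T x) c = (1/2 : ℝ) * inner ℝ b (T x) := by
      simp only [c]
      rw [inner_smul_right, real_inner_comm]
    rw [this]
    ring
  set r : ℝ := Real.sqrt (1 + ‖c‖ ^ 2) with hr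
  have hrpos : 0 < r := Real.sqrt_pos.mpr (by positivity)
  have hr2 : r ^ 2 = 1 + ‖c‖ ^ 2 := Real.sq_sqrt (by positivity)
  -- affine equivalence
  let L : EuclideanSpace ℝ (Fin 3) ≃ₗ[ℝ] EuclideanSpace ℝ (Fin 3) :=
    (LinearEquiv.smulOfNeZero ℝ (EuclideanSpace ℝ (Fin 3)) r hrpos.ne').trans T.symm
  let A : EuclideanSpace ℝ (Fin 3) ≃ᵃ[ℝ] EuclideanSpace ℝ (Fin 3) :=
    L.toAffineEquiv.trans (AffineEquiv.constVAdd ℝ (EuclideanSpace ℝ (Fin 3)) (-(T.symm c)))
  have hA : ∀ y, A y = T.symm (r • y) - T.symm c := by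
    intro y
    simp [A, L]
    abel
  refine ⟨A, ?_⟩
  ext x
  simp only [Set.mem_setOf_eq, Set.mem_image, Metric.mem_closedBall, dist_zero_right]
  rw [key]
  constructor
  · intro h
    refine ⟨r⁻¹ • (T x + c), ?_, ?_⟩
    · rw [norm_smul, norm_inv, Real.norm_of_nonneg hrpos.le]
      rw [inv_mul_le_iff₀ hrpos, mul_one]
      have : ‖T x + c‖ ^ 2 ≤ r ^ 2 := by rw [hr2]; linarith
      exact le_of_sq_le_sq this hrpos.le
    · rw [hA, smul_smul, mul_inv_cancel₀ hrpos.ne', one_smul, map_add]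
      simp
  · rintro ⟨y, hy, rfl⟩
    rw [hA]
    have : T (T.symm (r • y) - T.symm c) + c = r • y := by
      rw [map_sub]; simp
    rw [this, norm_smul, Real.norm_of_nonneg hrpos.le, mul_pow, hr2]
    have h1 : ‖y‖ ^ 2 ≤ 1 := by
      have := norm_nonneg y
      nlinarith
    nlinarith [sq_nonneg ‖c‖]

end Pool.Agent.Helper438.Proj.SA2
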