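import Mathlib

namespace Pool.Agent.Helper438.Proj

open Set Filter Topology

theorem const_of_countable_closed_fibers_real {ι : Type*} [Countable ι] (g : ℝ → ι)
    (h : ∀ i, IsClosed {t | g t = i}) (s t : ℝ) : g s = g t := by
  set O : Set ℝ := {t | ∀ᶠ s in 𝓝 t, g s = g t} with hO
  have hOopen : IsOpen O := by
    rw [isOpen_iff_mem_nhds]
    intro t ht
    have h1 : ∀ᶠ s in 𝓝 t, ∀ᶠ r in 𝓝 s, g r = g t := eventually_eventually_nhds.2 ht
    filter_upwards [h1, ht] with s hs hs'
    show ∀ᶠ r in 𝓝 s, g r = g s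
    rw [hs']
    exact hs
  have hall : O = univ := by
    by_contra hne
    have hXne : Oᶜ.Nonempty := by
      rw [Set.nonempty_compl]; exact hne
    have hXcl : IsClosed Oᶜ := hOopen.isClosed_compl
    have hXc : CompleteSpace (Oᶜ : Set ℝ) := hXcl.completeSpace_coe
    have hXn : Nonempty (Oᶜ : Set ℝ) := hXne.to_subtype
    obtain ⟨i, hi⟩ := nonempty_interior_of_iUnion_of_closed
      (f := fun i : ι => {x : (Oᶜ : Set ℝ) | g x = i})
      (fun i => (h i).preimage continuous_subtype_val)
      (by
        ext x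
        simp)
    obtain ⟨⟨x0, hx0⟩, hx⟩ := hi
    rw [mem_interior_iff_mem_nhds, nhds_subtype, mem_comap] at hx
    obtain ⟨U, hU, hUs⟩ := hx
    obtain ⟨ε, hε, hεU⟩ := Metric.mem_nhds_iff.1 hU
    have hXi : ∀ y ∈ Metric.ball x0 ε, y ∈ Oᶜ → g y = i := by
      intro y hy hyX
      have : (⟨y, hyX⟩ : (Oᶜ : Set ℝ)) ∈ Subtype.val ⁻¹' U := hεU hy
      exact hUs this
    have hgx0 : g x0 = i := hXi x0 (Metric.mem_ball_self hε) hx0
    have hball : ∀ y ∈ Metric.ball x0 ε, g y = i := by
      intro y hy
      by_contra hyi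
      set m := g y with hm
      have hA : IsOpen ({s | g s = m} ∩ O) := by
        rw [isOpen_iff_mem_nhds]
        rintro s ⟨hs1, hs2⟩
        filter_upwards [hs2, hOopen.mem_nhds hs2] with r hr hr'
        exact ⟨by rw [Set.mem_ofPred_eq, hr]; exact hs1, hr'⟩
      have hB : IsOpen {s | g s = m}ᶜ := (h m).isOpen_compl
      have hpre : IsPreconnected (Metric.ball x0 ε) := (convex_ball x0 ε).isPreconnected
      obtain ⟨z, hz, ⟨hz1, hz2⟩, hz3⟩ := hpre _ _ hA hB (by
        intro s hs
        by_cases hsm : g s = m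
        · left
          refine ⟨hsm, ?_⟩
          by_contra hsO
          exact hyi (hsm.symm.trans (hXi s hs hsO))
        · right
          exact hsm) ⟨y, hy, rfl, by
            by_contra hyO
            exact hyi (hXi y hy hyO)⟩ ⟨x0, Metric.mem_ball_self hε, by
            show ¬ g x0 = m
            rw [hgx0]
            exact fun h => hyi h.symm⟩
      exact hz3 hz1
    apply hx0
    show ∀ᶠ s in 𝓝 x0, g s = g x0
    filter_upwards [Metric.ball_mem_nhds x0 hε] with s hs
    rw [hball s hs, hgx0]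
  have hlc : IsLocallyConstant g := by
    rw [IsLocallyConstant.iff_eventually_eq]
    intro x
    have : x ∈ O := by rw [hall]; trivial
    exact this
  exact hlc.apply_eq_of_preconnectedSpace s t

/-- TARGET B (Sierpinski): a countable-valued function on `[0,1]` with closed fibres is
constant. -/
theorem const_of_countable_closed_fibers {ι : Type*} [Countable ι] (f : ℝ → ι)
    (h : ∀ i, IsClosed {t | t ∈ Icc (0:ℝ) 1 ∧ f t = i}) :
    ∀ t ∈ Icc (0:ℝ) 1, f t = f 0 := by
  intro t ht
  have hp : ∀ s : ℝ, (projIcc (0:ℝ) 1 zero_le_one s : ℝ) ∈ Icc (0:ℝ) 1 := fun s => Subtype.prop _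
  have h1 := const_of_countable_closed_fibers_real
    (fun s : ℝ => f (projIcc (0:ℝ) 1 zero_le_one s : ℝ)) (by
      intro i
      have h2 : Continuous (fun s : ℝ => (projIcc (0:ℝ) 1 zero_le_one s : ℝ)) :=
        continuous_subtype_val.comp continuous_projIcc
      have h3 := (h i).preimage h2
      convert h3 using 1
      ext s
      simp only [mem_ofPred_eq, mem_preimage]
      exact ⟨fun h => ⟨hp s, h⟩, fun h => h.2⟩) t 0
  rw [projIcc_of_mem zero_le_one ht, projIcc_of_mem zero_le_one (left_mem_Icc.2 zero_le_one)] at h1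
  exact h1

end Pool.Agent.Helper438.Proj
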