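import Pool.Agent.Helper438.Proj.GrpdDef
import Pool.Agent.Helper438.Proj.SolB

namespace Pool.Agent.Helper438.Proj

open Set Filter Topology


lemma gt_isUnit_of_near {L : EndV} (h : ‖L - 1‖ < 1) : IsUnit L := by
  have h' : ‖1 - L‖ < 1 := by rwa [norm_sub_rev]
  have : ((Units.oneSub (1 - L) h' : EndVˣ) : EndV) = L := by
    rw [Units.val_oneSub]; abel
  rw [← this]
  exact Units.isUnit _

lemma gt_inv_norm {L : EndV} {r : ℝ} (hr0 : 0 < r) (hr : r ≤ 1 / 5) (h : ‖L - 1‖ ≤ r) :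
    ‖Ring.inverse L‖ ≤ 5 / 4 := by
  have hu : IsUnit L := gt_isUnit_of_near (by linarith)
  have h1 : Ring.inverse L = 1 + Ring.inverse L * (1 - L) := by
    rw [mul_sub, Ring.inverse_mul_cancel L hu, mul_one]; abel
  have h2 : ‖Ring.inverse L‖ ≤ 1 + ‖Ring.inverse L‖ * r := by
    calc ‖Ring.inverse L‖ = ‖1 + Ring.inverse L * (1 - L)‖ := by rw [← h1]
      _ ≤ ‖(1 : EndV)‖ + ‖Ring.inverse L * (1 - L)‖ := norm_add_le _ _
      _ ≤ 1 + ‖Ring.inverse L‖ * ‖1 - L‖ := by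
          gcongr
          · exact norm_one.le
          · exact norm_mul_le _ _
      _ ≤ 1 + ‖Ring.inverse L‖ * r := by
          gcongr
          rwa [norm_sub_rev]
  have h3 : 0 ≤ ‖Ring.inverse L‖ := norm_nonneg _
  nlinarith

lemma gt_annulus {T : ℝ × ℝ → ℝ × ℝ → Set EndV} (hT : Grpd T) (a : ℝ × ℝ) {r r0 : ℝ}
    (hr : 0 < r) (hr0 : r0 < 1) (hd : ∀ L ∈ T a a, ‖L - 1‖ ≤ r0 → L = 1) :
    ∃ δ > 0, ∀ b ∈ Metric.ball a δ, ∀ b' ∈ Metric.ball a δ, ∀ L ∈ T b b', ‖L - 1‖ ≤ r0 →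
      ‖L - 1‖ < r := by
  by_contra hcon
  push Not at hcon
  have h1 : ∀ n : ℕ, ∃ b ∈ Metric.ball a (1 / ((n : ℝ) + 1)),
      ∃ b' ∈ Metric.ball a (1 / ((n : ℝ) + 1)), ∃ L ∈ T b b', ‖L - 1‖ ≤ r0 ∧ r ≤ ‖L - 1‖ :=
    fun n => hcon _ (by positivity)
  choose b hb b' hb' L hL hL1 hL2 using h1
  have hcpt := isCompact_closedBall (1 : EndV) r0
  obtain ⟨L0, hL0, φ, hφ, hlim⟩ := hcpt.tendsto_subseq (x := L)
    (fun n => by rw [mem_closedBall_iff_norm]; exact hL1 n)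
  have hz : Tendsto (fun n : ℕ => 1 / ((n : ℝ) + 1)) atTop (𝓝 0) := tendsto_one_div_add_atTop_nhds_zero_nat
  have hbl : Tendsto b atTop (𝓝 a) := by
    rw [tendsto_iff_dist_tendsto_zero]
    exact squeeze_zero (fun _ => dist_nonneg) (fun n => (Metric.mem_ball.1 (hb n)).le) hz
  have hbl' : Tendsto b' atTop (𝓝 a) := by
    rw [tendsto_iff_dist_tendsto_zero]
    exact squeeze_zero (fun _ => dist_nonneg) (fun n => (Metric.mem_ball.1 (hb' n)).le) hz
  have hn1 : ‖L0 - 1‖ ≤ r0 := by rwa [mem_closedBall_iff_norm] at hL0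
  have hn2 : r ≤ ‖L0 - 1‖ := by
    have : Tendsto (fun n => ‖L (φ n) - 1‖) atTop (𝓝 ‖L0 - 1‖) :=
      ((hlim.sub_const 1)).norm
    exact ge_of_tendsto' this fun n => hL2 _
  have hu : IsUnit L0 := gt_isUnit_of_near (lt_of_le_of_lt hn1 hr0)
  have hmem := hT.closed (b ∘ φ) (b' ∘ φ) (L ∘ φ) a a L0 (hbl.comp hφ.tendsto_atTop)
    (hbl'.comp hφ.tendsto_atTop) hlim (fun n => hL _) hu
  have := hd L0 hmem hn1
  rw [this, sub_self, norm_zero] at hn2
  linarith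

/-- TARGET C: local transport. -/
theorem Grpd.local_transport {T : ℝ × ℝ → ℝ × ℝ → Set EndV} (hT : Grpd T) (a : ℝ × ℝ) :
    ∃ δ > 0, ∃ k : ℝ × ℝ → EndV, k a = 1 ∧ ContinuousOn k (Metric.ball a δ) ∧
      ∀ b ∈ Metric.ball a δ, k b ∈ T a b := by
  classical
  obtain ⟨r1, hr1, hdis⟩ := hT.discrete a
  obtain ⟨r0, hr0, hr0', hr01⟩ : ∃ r0 : ℝ, 0 < r0 ∧ r0 ≤ 1 / 2 ∧ r0 < r1 :=
    ⟨min (r1 / 2) (1 / 2), by positivity, min_le_right _ _, by
      refine lt_of_le_of_lt (min_le_left _ _) (by linarith)⟩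
  have hd : ∀ L ∈ T a a, ‖L - 1‖ ≤ r0 → L = 1 := fun L hL h => hdis L hL (lt_of_le_of_lt h hr01)
  obtain ⟨r, hr⟩ : ∃ r : ℝ, r = 2 / 5 * r0 := ⟨_, rfl⟩
  have hrpos : 0 < r := by rw [hr]; positivity
  have hr5 : r ≤ 1 / 5 := by rw [hr]; linarith
  have hrr0 : r ≤ r0 := by rw [hr]; linarith
  obtain ⟨δ, hδ, hann⟩ := gt_annulus hT a hrpos (by linarith : r0 < 1) hd
  have haδ : a ∈ Metric.ball a δ := Metric.mem_ball_self hδ
  -- the relation
  have hsymm : ∀ b ∈ Metric.ball a δ, ∀ b' ∈ Metric.ball a δ, (∃ L ∈ T b b', ‖L - 1‖ < r) →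
      ∃ L ∈ T b' b, ‖L - 1‖ < r := by
    rintro b hb b' hb' ⟨L, hL, hLr⟩
    refine ⟨Ring.inverse L, hT.inv _ _ _ hL, hann _ hb' _ hb _ (hT.inv _ _ _ hL) ?_⟩
    have hu := hT.isUnit _ _ _ hL
    have h1 : Ring.inverse L - 1 = Ring.inverse L * (1 - L) := by
      rw [mul_sub, Ring.inverse_mul_cancel L hu, mul_one]
    have h2 := gt_inv_norm hrpos hr5 hLr.le
    calc ‖Ring.inverse L - 1‖ = ‖Ring.inverse L * (1 - L)‖ := by rw [h1]
      _ ≤ ‖Ring.inverse L‖ * ‖1 - L‖ := norm_mul_le _ _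
      _ ≤ 5 / 4 * r := by
          gcongr
          rw [norm_sub_rev]; exact hLr.le
      _ ≤ r0 := by rw [hr]; linarith
  have htrans : ∀ b ∈ Metric.ball a δ, ∀ b' ∈ Metric.ball a δ, ∀ b'' ∈ Metric.ball a δ,
      (∃ L ∈ T b b', ‖L - 1‖ < r) → (∃ L ∈ T b' b'', ‖L - 1‖ < r) →
      ∃ L ∈ T b b'', ‖L - 1‖ < r := by
    rintro b hb b' hb' b'' hb'' ⟨L, hL, hLr⟩ ⟨M, hM, hMr⟩
    refine ⟨M * L, hT.mul _ _ _ _ _ hL hM, hann _ hb _ hb'' _ (hT.mul _ _ _ _ _ hL hM) ?_⟩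
    have h1 : M * L - 1 = (M - 1) * L + (L - 1) := by rw [sub_mul, one_mul]; abel
    have h2 : ‖L‖ ≤ 1 + r := by
      calc ‖L‖ = ‖1 + (L - 1)‖ := by congr 1; abel
        _ ≤ ‖(1 : EndV)‖ + ‖L - 1‖ := norm_add_le _ _
        _ ≤ 1 + r := by
            gcongr
            exact norm_one.le
    calc ‖M * L - 1‖ = ‖(M - 1) * L + (L - 1)‖ := by rw [h1]
      _ ≤ ‖(M - 1) * L‖ + ‖L - 1‖ := norm_add_le _ _
      _ ≤ ‖M - 1‖ * ‖L‖ + ‖L - 1‖ := by gcongr; exact norm_mul_le _ _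
      _ ≤ r * (1 + r) + r := by gcongr
      _ ≤ r * (1 + 1 / 5) + r := by gcongr
      _ ≤ r0 := by rw [hr]; linarith
  have hrefl : ∀ b : ℝ × ℝ, ∃ L ∈ T b b, ‖L - 1‖ < r := fun b =>
    ⟨1, hT.one b, by rw [sub_self, norm_zero]; exact hrpos⟩
  -- closedness of the classes
  have hclosed : ∀ c ∈ Metric.ball a δ, ∀ (b : ℕ → ℝ × ℝ) (b0 : ℝ × ℝ), b0 ∈ Metric.ball a δ →
      Tendsto b atTop (𝓝 b0) → (∀ n, ∃ L ∈ T c (b n), ‖L - 1‖ < r) → ∃ L ∈ T c b0, ‖L - 1‖ < r := by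
    intro c hc b b0 hb0 hlim h
    choose L hL hLr using h
    obtain ⟨L0, hL0, φ, hφ, hl⟩ := (isCompact_closedBall (1 : EndV) r).tendsto_subseq (x := L)
      (fun n => by rw [mem_closedBall_iff_norm]; exact (hLr n).le)
    rw [mem_closedBall_iff_norm] at hL0
    have hu : IsUnit L0 := gt_isUnit_of_near (by linarith)
    have hm := hT.closed (fun _ => c) (b ∘ φ) (L ∘ φ) c b0 L0 tendsto_const_nhds
      (hlim.comp hφ.tendsto_atTop) hl (fun n => hL _) hu
    exact ⟨L0, hm, hann _ hc _ hb0 _ hm (hL0.trans hrr0)⟩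
  let S : Setoid {b : ℝ × ℝ // b ∈ Metric.ball a δ} :=
    { r := fun b b' => ∃ L ∈ T b.1 b'.1, ‖L - 1‖ < r
      iseqv := ⟨fun b => hrefl b.1, fun {b b'} h => hsymm _ b.2 _ b'.2 h,
        fun {b b' b''} h h' => htrans _ b.2 _ b'.2 _ b''.2 h h'⟩ }
  -- countably many classes
  have hcount : Countable (Quotient S) := by
    choose Lb hLb using fun b => hT.nonempty a b
    have hex : ∀ b, ∃ jm : ℕ × ℕ, ‖Ring.inverse (Lb b)‖ < jm.2 ∧
        ‖Lb b - TopologicalSpace.denseSeq EndV jm.1‖ < r / (2 * jm.2) := by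
      intro b
      obtain ⟨m, hm⟩ := exists_nat_gt ‖Ring.inverse (Lb b)‖
      have hm0 : (0 : ℝ) < m := lt_of_le_of_lt (norm_nonneg _) hm
      obtain ⟨j, hy⟩ := (TopologicalSpace.denseRange_denseSeq EndV).exists_dist_lt (Lb b)
        (show (0 : ℝ) < r / (2 * m) by positivity)
      exact ⟨(j, m), hm, by rwa [← dist_eq_norm]⟩
    choose jm hj1 hj2 using hex
    have hkey : ∀ b ∈ Metric.ball a δ, ∀ b' ∈ Metric.ball a δ, jm b = jm b' →
        ∃ L ∈ T b b', ‖L - 1‖ < r := by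
      intro b _ b' _ hjm
      have hu := hT.isUnit _ _ _ (hLb b)
      refine ⟨Lb b' * Ring.inverse (Lb b), hT.mul _ _ _ _ _ (hT.inv _ _ _ (hLb b)) (hLb b'), ?_⟩
      have hm0 : (0 : ℝ) < (jm b).2 := lt_of_le_of_lt (norm_nonneg _) (hj1 b)
      have h1 : Lb b' * Ring.inverse (Lb b) - 1 = (Lb b' - Lb b) * Ring.inverse (Lb b) := by
        rw [sub_mul, Ring.mul_inverse_cancel _ hu]
      have h2 : ‖Lb b' - Lb b‖ < r / (jm b).2 := by
        have e : Lb b' - Lb b = (Lb b' - TopologicalSpace.denseSeq EndV (jm b').1)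
            - (Lb b - TopologicalSpace.denseSeq EndV (jm b).1) := by rw [hjm]; abel
        have h3 := hj2 b'
        have h4 := hj2 b
        rw [← hjm] at h3
        calc ‖Lb b' - Lb b‖ ≤ ‖Lb b' - TopologicalSpace.denseSeq EndV (jm b').1‖ +
              ‖Lb b - TopologicalSpace.denseSeq EndV (jm b).1‖ := by rw [e]; exact norm_sub_le _ _
          _ < r / (2 * (jm b).2) + r / (2 * (jm b).2) := by
              rw [← hjm]; exact add_lt_add h3 h4
          _ = r / (jm b).2 := by field_simp; ring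
      calc ‖Lb b' * Ring.inverse (Lb b) - 1‖ = ‖(Lb b' - Lb b) * Ring.inverse (Lb b)‖ := by rw [h1]
        _ ≤ ‖Lb b' - Lb b‖ * ‖Ring.inverse (Lb b)‖ := norm_mul_le _ _
        _ ≤ ‖Lb b' - Lb b‖ * (jm b).2 := by gcongr; exact (hj1 b).le
        _ < r / (jm b).2 * (jm b).2 := by gcongr
        _ = r := by field_simp
    refine Function.Injective.countable (f := fun q : Quotient S => jm (Quotient.out q).1) ?_
    intro q q' h
    have := hkey _ (Quotient.out q).2 _ (Quotient.out q').2 h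
    have h2 : (Quotient.out q) ≈ (Quotient.out q') := this
    rw [← Quotient.out_eq q, ← Quotient.out_eq q']
    exact Quotient.sound h2
  -- every point of the ball is related to `a`
  have hall : ∀ b ∈ Metric.ball a δ, ∃ L ∈ T a b, ‖L - 1‖ < r := by
    intro b hb
    let γ : ℝ → ℝ × ℝ := fun t => a + t • (b - a)
    have hγc : Continuous γ := by fun_prop
    have hγ : ∀ t ∈ Icc (0 : ℝ) 1, γ t ∈ Metric.ball a δ := by
      intro t ht
      rw [Metric.mem_ball, dist_eq_norm] at hb ⊢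
      have : γ t - a = t • (b - a) := by simp [γ]
      rw [this, norm_smul, Real.norm_of_nonneg ht.1]
      calc t * ‖b - a‖ ≤ 1 * ‖b - a‖ := by gcongr; exact ht.2
        _ < δ := by rw [one_mul]; exact hb
    let f : ℝ → Quotient S := fun t =>
      ⟦⟨γ (Set.projIcc (0 : ℝ) 1 zero_le_one t), hγ _ (Set.projIcc (0 : ℝ) 1 zero_le_one t).2⟩⟧
    have hf : ∀ t (ht : t ∈ Icc (0 : ℝ) 1), f t = ⟦⟨γ t, hγ t ht⟩⟧ := by
      intro t ht
      simp only [f]
      rw [Set.projIcc_of_mem _ ht]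
    have hfib : ∀ q, IsClosed {t | t ∈ Icc (0 : ℝ) 1 ∧ f t = q} := by
      intro q
      apply IsSeqClosed.isClosed
      intro t t0 ht hlim
      have ht0 : t0 ∈ Icc (0 : ℝ) 1 := isClosed_Icc.mem_of_tendsto hlim (Eventually.of_forall fun n => (ht n).1)
      refine ⟨ht0, ?_⟩
      have h0 : ∀ n, ∃ L ∈ T (γ (t 0)) (γ (t n)), ‖L - 1‖ < r := by
        intro n
        have h1 := (ht 0).2
        have h2 := (ht n).2
        rw [hf _ (ht 0).1] at h1
        rw [hf _ (ht n).1] at h2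
        exact Quotient.exact (h1.trans h2.symm)
      have h3 := hclosed (γ (t 0)) (hγ _ (ht 0).1) (fun n => γ (t n)) (γ t0) (hγ _ ht0)
        ((hγc.tendsto t0).comp hlim) h0
      have h4 := (ht 0).2
      rw [hf _ (ht 0).1] at h4
      rw [hf _ ht0]
      exact (Quotient.sound (s := S) h3).symm.trans h4
    have h1 := const_of_countable_closed_fibers f hfib 1 (by simp)
    rw [hf 1 (by simp), hf 0 (by simp)] at h1
    have h2 := Quotient.exact h1.symm
    have h3 : ∃ L ∈ T (γ 0) (γ 1), ‖L - 1‖ < r := h2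
    simpa [γ] using h3
  -- uniqueness
  have huniq : ∀ b, ∀ L ∈ T a b, ∀ L' ∈ T a b, ‖L - 1‖ < r → ‖L' - 1‖ < r → L = L' := by
    intro b L hL L' hL' h h'
    have hu := hT.isUnit _ _ _ hL'
    have hm : Ring.inverse L' * L ∈ T a a := hT.mul _ _ _ _ _ hL (hT.inv _ _ _ hL')
    have h1 : Ring.inverse L' * L - 1 = Ring.inverse L' * ((L - 1) - (L' - 1)) := by
      rw [sub_sub_sub_cancel_right, mul_sub, Ring.inverse_mul_cancel _ hu]
    have h2 : ‖Ring.inverse L' * L - 1‖ ≤ r0 := by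
      calc ‖Ring.inverse L' * L - 1‖ = ‖Ring.inverse L' * ((L - 1) - (L' - 1))‖ := by rw [h1]
        _ ≤ ‖Ring.inverse L'‖ * ‖(L - 1) - (L' - 1)‖ := norm_mul_le _ _
        _ ≤ 5 / 4 * (r + r) := by
            gcongr
            · exact gt_inv_norm hrpos hr5 h'.le
            · exact (norm_sub_le _ _).trans (add_le_add h.le h'.le)
        _ ≤ r0 := by rw [hr]; linarith
    have h3 := hd _ hm h2
    calc L = L' * (Ring.inverse L' * L) := by rw [← mul_assoc, Ring.mul_inverse_cancel _ hu, one_mul]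
      _ = L' := by rw [h3, mul_one]
  let k : ℝ × ℝ → EndV := fun b => if h : b ∈ Metric.ball a δ then (hall b h).choose else 1
  have hk1 : ∀ b ∈ Metric.ball a δ, k b ∈ T a b := by
    intro b hb
    simp only [k, dif_pos hb]
    exact (hall b hb).choose_spec.1
  have hk2 : ∀ b, ‖k b - 1‖ < r := by
    intro b
    by_cases hb : b ∈ Metric.ball a δ
    · simp only [k, dif_pos hb]
      exact (hall b hb).choose_spec.2
    · simp only [k, dif_neg hb]
      rw [sub_self, norm_zero]; exact hrpos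
  refine ⟨δ, hδ, k, ?_, ?_, hk1⟩
  · exact huniq a _ (hk1 a haδ) _ (hT.one a) (hk2 a) (by rw [sub_self, norm_zero]; exact hrpos)
  · intro b hb
    apply tendsto_of_subseq_tendsto
    intro ns hns
    obtain ⟨L0, hL0, φ, hφ, hl⟩ := (isCompact_closedBall (1 : EndV) r).tendsto_subseq
      (x := fun n => k (ns n)) (fun n => by rw [mem_closedBall_iff_norm]; exact (hk2 _).le)
    rw [mem_closedBall_iff_norm] at hL0
    have hev : ∀ᶠ n in atTop, ns n ∈ Metric.ball a δ := (tendsto_nhdsWithin_iff.1 hns).2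
    obtain ⟨N, hN⟩ := eventually_atTop.1 hev
    have hns' : Tendsto ns atTop (𝓝 b) := (tendsto_nhdsWithin_iff.1 hns).1
    have hφN : Tendsto (fun n => φ (n + N)) atTop atTop :=
      hφ.tendsto_atTop.comp (tendsto_add_atTop_nat N)
    have hlN : Tendsto (fun n => k (ns (φ (n + N)))) atTop (𝓝 L0) := hl.comp (tendsto_add_atTop_nat N)
    have hu : IsUnit L0 := gt_isUnit_of_near (by linarith)
    have hm := hT.closed (fun _ => a) (fun n => ns (φ (n + N))) (fun n => k (ns (φ (n + N)))) a b L0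
      tendsto_const_nhds (hns'.comp hφN) hlN
      (fun n => hk1 _ (hN _ ((Nat.le_add_left N n).trans (hφ.id_le _)))) hu
    have h5 := hann _ haδ _ hb _ hm (hL0.trans hrr0)
    have h6 : L0 = k b := huniq b _ hm _ (hk1 b hb) h5 (hk2 b)
    refine ⟨fun n => φ (n + N), ?_⟩
    rw [← h6]
    exact hlN

end Pool.Agent.Helper438.Proj
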