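import Pool.Agent.Helper438.Proj.GrpdDef

namespace Pool.Agent.Helper438.Proj

open Set Filter Topology

theorem Grpd.discreteTopology_fibre {T : ℝ × ℝ → ℝ × ℝ → Set EndV} (hT : Grpd T)
    (a b : ℝ × ℝ) : DiscreteTopology (T a b) := by
  rw [discreteTopology_iff_isOpen_singleton]
  intro M0
  rw [Metric.isOpen_singleton_iff]
  obtain ⟨r, hr, hd⟩ := hT.discrete b
  have hu : IsUnit M0.1 := hT.isUnit a b _ M0.2
  have hc : 0 < ‖Ring.inverse M0.1‖ + 1 := by positivity
  refine ⟨r / (‖Ring.inverse M0.1‖ + 1), by positivity, fun M hM => ?_⟩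
  have h1 : M.1 * Ring.inverse M0.1 ∈ T b b :=
    hT.mul b a b _ _ (hT.inv a b _ M0.2) M.2
  have h2 : M.1 * Ring.inverse M0.1 - 1 = (M.1 - M0.1) * Ring.inverse M0.1 := by
    rw [sub_mul, Ring.mul_inverse_cancel _ hu]
  have h3 : ‖M.1 * Ring.inverse M0.1 - 1‖ < r := by
    rw [h2]
    have h4 : ‖M.1 - M0.1‖ < r / (‖Ring.inverse M0.1‖ + 1) := by
      rw [← dist_eq_norm]; exact hM
    calc ‖(M.1 - M0.1) * Ring.inverse M0.1‖ ≤ ‖M.1 - M0.1‖ * ‖Ring.inverse M0.1‖ := norm_mul_le _ _
      _ ≤ ‖M.1 - M0.1‖ * (‖Ring.inverse M0.1‖ + 1) := by gcongr; linarith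
      _ < r / (‖Ring.inverse M0.1‖ + 1) * (‖Ring.inverse M0.1‖ + 1) := by gcongr
      _ = r := by field_simp
  have h5 := hd _ h1 h3
  apply Subtype.ext
  calc M.1 = M.1 * (Ring.inverse M0.1 * M0.1) := by rw [Ring.inverse_mul_cancel _ hu, mul_one]
    _ = M0.1 := by rw [← mul_assoc, h5, one_mul]

/-- TARGET D: global transport from local transport (covering space argument). -/
theorem Grpd.global_transport {T : ℝ × ℝ → ℝ × ℝ → Set EndV} (hT : Grpd T)
    (hloc : ∀ a : ℝ × ℝ, ∃ δ > 0, ∃ k : ℝ × ℝ → EndV, k a = 1 ∧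
      ContinuousOn k (Metric.ball a δ) ∧ ∀ b ∈ Metric.ball a δ, k b ∈ T a b)
    (a : ℝ × ℝ) :
    ∃ L : ℝ × ℝ → EndV, Continuous L ∧ L a = 1 ∧ ∀ b, L b ∈ T a b := by
  let E := {p : (ℝ × ℝ) × EndV // p.2 ∈ T a p.1}
  let pr : E → ℝ × ℝ := fun p => p.1.1
  have hpr : Continuous pr := continuous_fst.comp continuous_subtype_val
  have hcov : IsCoveringMap pr := by
    intro b0
    obtain ⟨δ, hδ, k, hk1, hkc, hkT⟩ := hloc b0
    have hku : ∀ b ∈ Metric.ball b0 δ, IsUnit (k b) := fun b hb => hT.isUnit _ _ _ (hkT b hb)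
    have hkinv : ContinuousOn (fun b => Ring.inverse (k b)) (Metric.ball b0 δ) := by
      intro b hb
      obtain ⟨u, hu⟩ := hku b hb
      have h1 : ContinuousAt Ring.inverse (k b) := by
        rw [← hu]; exact NormedRing.inverse_continuousAt u
      exact ContinuousAt.comp_continuousWithinAt h1 (hkc b hb)
    have hev : IsEvenlyCovered pr b0 (T a b0) := by
      refine ⟨hT.discreteTopology_fibre a b0, Metric.ball b0 δ, Metric.mem_ball_self hδ,
        Metric.isOpen_ball, Metric.isOpen_ball.preimage hpr, ?_⟩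
      let H : (pr ⁻¹' (Metric.ball b0 δ)) ≃ₜ (Metric.ball b0 δ) × (T a b0) :=
        { toFun := fun e => (⟨pr e.1, e.2⟩,
            ⟨Ring.inverse (k (pr e.1)) * e.1.1.2,
              hT.mul a (pr e.1) b0 _ _ e.1.2 (hT.inv _ _ _ (hkT _ e.2))⟩)
          invFun := fun x => ⟨⟨(x.1.1, k x.1.1 * x.2.1),
            hT.mul a b0 x.1.1 _ _ x.2.2 (hkT _ x.1.2)⟩, x.1.2⟩
          left_inv := by
            intro e
            apply Subtype.ext
            apply Subtype.ext
            show (pr e.1, k (pr e.1) * (Ring.inverse (k (pr e.1)) * e.1.1.2)) = e.1.1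
            rw [← mul_assoc, Ring.mul_inverse_cancel _ (hku _ e.2), one_mul]
          right_inv := by
            intro x
            apply Prod.ext
            · rfl
            · apply Subtype.ext
              show Ring.inverse (k x.1.1) * (k x.1.1 * x.2.1) = x.2.1
              rw [← mul_assoc, Ring.inverse_mul_cancel _ (hku _ x.1.2), one_mul]
          continuous_toFun := by
            have hk' : Continuous fun e : (pr ⁻¹' (Metric.ball b0 δ)) =>
                Ring.inverse (k (pr e.1)) :=
              hkinv.comp_continuous (hpr.comp continuous_subtype_val) (fun e => e.2)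
            refine Continuous.prodMk ?_ ?_
            · exact Continuous.subtype_mk (hpr.comp continuous_subtype_val) _
            · refine Continuous.subtype_mk (hk'.mul ?_) _
              exact continuous_snd.comp (continuous_subtype_val.comp continuous_subtype_val)
          continuous_invFun := by
            have hk' : Continuous fun x : (Metric.ball b0 δ) × (T a b0) => k x.1.1 :=
              hkc.comp_continuous (continuous_subtype_val.comp continuous_fst) (fun x => x.1.2)
            refine Continuous.subtype_mk (Continuous.subtype_mk (Continuous.prodMk ?_ ?_) _) _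
            · exact continuous_subtype_val.comp continuous_fst
            · exact hk'.mul (continuous_subtype_val.comp continuous_snd) }
      exact ⟨H, fun e => rfl⟩
    exact hev.to_isEvenlyCovered_preimage
  have : SimplyConnectedSpace (ℝ × ℝ) := SimplyConnectedSpace.ofContractible _
  obtain ⟨F, ⟨hF0, hF⟩, -⟩ := hcov.existsUnique_continuousMap_lifts
    (ContinuousMap.id (ℝ × ℝ)) a (⟨(a, 1), hT.one a⟩ : E) rfl
  have hF' : ∀ b, (F b).1.1 = b := fun b => congrFun hF b
  refine ⟨fun b => (F b).1.2, ?_, ?_, fun b => ?_⟩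
  · exact continuous_snd.comp (continuous_subtype_val.comp F.continuous)
  · show (F a).1.2 = 1
    rw [hF0]
  · have := (F b).2
    rw [hF' b] at this
    exact this

end Pool.Agent.Helper438.Proj
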