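import Pool.Agent.Helper438.Proj.Defs

namespace Pool.Agent.Helper438.Proj.SG

open Set Filter Topology

theorem G_pow_sub_pow (A B : EndV) (C : ℝ) (hC : 1 ≤ C) (hA : ‖A‖ ≤ C) (hB : ‖B‖ ≤ C) (m : ℕ) :
    ‖A ^ m - B ^ m‖ ≤ m * C ^ m * ‖A - B‖ := by
  induction m with
  | zero => simp
  | succ m ih =>
    have e : A ^ (m + 1) - B ^ (m + 1) = A ^ m * (A - B) + (A ^ m - B ^ m) * B := by
      rw [pow_succ, pow_succ, mul_sub, sub_mul]
      abel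
    have h1 : ‖A ^ m * (A - B)‖ ≤ C ^ m * ‖A - B‖ := by
      refine (norm_mul_le _ _).trans ?_
      gcongr
      exact (norm_pow_le A m).trans (by gcongr)
    have h2 : ‖(A ^ m - B ^ m) * B‖ ≤ m * C ^ m * ‖A - B‖ * C := by
      refine (norm_mul_le _ _).trans ?_
      gcongr
    have h3 : C ^ m * ‖A - B‖ ≤ C ^ (m + 1) * ‖A - B‖ := by
      gcongr
      omega
    rw [e]
    refine (norm_add_le _ _).trans ?_
    push_cast
    calc ‖A ^ m * (A - B)‖ + ‖(A ^ m - B ^ m) * B‖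
        ≤ C ^ (m + 1) * ‖A - B‖ + m * C ^ m * ‖A - B‖ * C := by linarith
      _ = ((m : ℝ) + 1) * C ^ (m + 1) * ‖A - B‖ := by ring

theorem G_eventually_le (A : ℕ → EndV) (ε : ℕ → ℝ) (Z : EndV) (hε0 : ∀ n, 0 < ε n)
    (hA : Tendsto (fun n => (ε n)⁻¹ • (A n - 1)) atTop (𝓝 Z)) :
    ∀ᶠ n in atTop, ‖A n‖ ≤ Real.exp (ε n * (‖Z‖ + 1)) := by
  have h1 : ∀ᶠ n in atTop, ‖(ε n)⁻¹ • (A n - 1)‖ < ‖Z‖ + 1 :=
    hA.norm.eventually_lt_const (by linarith)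
  filter_upwards [h1] with n hn
  rw [norm_smul, norm_inv, Real.norm_of_nonneg (hε0 n).le, inv_mul_lt_iff₀ (hε0 n)] at hn
  have h2 : ‖A n‖ ≤ ‖A n - 1‖ + 1 := by
    calc ‖A n‖ = ‖(A n - 1) + 1‖ := by rw [sub_add_cancel]
      _ ≤ ‖A n - 1‖ + ‖(1 : EndV)‖ := norm_add_le _ _
      _ = _ := by rw [norm_one]
  have h3 := Real.add_one_le_exp (ε n * (‖Z‖ + 1))
  linarith

theorem G_floor (ε : ℕ → ℝ) (hε0 : ∀ n, 0 < ε n)
    (hε : Tendsto ε atTop (𝓝 0)) (t : ℝ) (ht : 0 ≤ t) :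
    Tendsto (fun n => (⌊t / ε n⌋₊ : ℝ) * ε n) atTop (𝓝 t) := by
  have h1 : ∀ n, (⌊t / ε n⌋₊ : ℝ) * ε n ≤ t := by
    intro n
    have := Nat.floor_le (div_nonneg ht (hε0 n).le)
    rwa [le_div_iff₀ (hε0 n)] at this
  have h2 : ∀ n, t - ε n ≤ (⌊t / ε n⌋₊ : ℝ) * ε n := by
    intro n
    have := Nat.lt_floor_add_one (t / ε n)
    rw [div_lt_iff₀ (hε0 n)] at this
    linarith
  refine tendsto_of_tendsto_of_tendsto_of_le_of_le (g := fun n => t - ε n) (h := fun _ => t)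
    ?_ tendsto_const_nhds h2 h1
  simpa using tendsto_const_nhds.sub hε

theorem G_slope (f : ℝ → EndV) (Z : EndV) (hf : HasDerivAt f Z 0) (hf0 : f 0 = 1)
    (ε : ℕ → ℝ) (hε0 : ∀ n, 0 < ε n) (hε : Tendsto ε atTop (𝓝 0)) :
    Tendsto (fun n => (ε n)⁻¹ • (f (ε n) - 1)) atTop (𝓝 Z) := by
  have h1 := hf.tendsto_slope_zero
  have h2 : Tendsto ε atTop (𝓝[≠] 0) :=
    tendsto_nhdsWithin_iff.2 ⟨hε, Eventually.of_forall fun n => (hε0 n).ne'⟩
  have h3 := h1.comp h2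
  simpa [Function.comp_def, hf0] using h3

/-- TARGET G1. -/
theorem exp_limit (A : ℕ → EndV) (ε : ℕ → ℝ) (Z : EndV) (hε0 : ∀ n, 0 < ε n)
    (hε : Tendsto ε atTop (𝓝 0))
    (hA : Tendsto (fun n => (ε n)⁻¹ • (A n - 1)) atTop (𝓝 Z)) (t : ℝ) (ht : 0 ≤ t) :
    Tendsto (fun n => A n ^ ⌊t / ε n⌋₊) atTop (𝓝 (NormedSpace.exp (t • Z))) := by
  let _ : NormedAlgebra ℚ EndV := NormedAlgebra.restrictScalars ℚ ℝ EndV
  set B : ℕ → EndV := fun n => NormedSpace.exp (ε n • Z) with hBdef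
  have hB : Tendsto (fun n => (ε n)⁻¹ • (B n - 1)) atTop (𝓝 Z) := by
    refine G_slope (fun u : ℝ => NormedSpace.exp (u • Z)) Z ?_ ?_ ε hε0 hε
    · have := hasDerivAt_exp_smul_const (𝕂 := ℝ) Z 0
      simpa using this
    · simp
  have hfl := G_floor ε hε0 hε t ht
  have hBm : Tendsto (fun n => B n ^ ⌊t / ε n⌋₊) atTop (𝓝 (NormedSpace.exp (t • Z))) := by
    have h1 : ∀ n, B n ^ ⌊t / ε n⌋₊ = NormedSpace.exp (((⌊t / ε n⌋₊ : ℝ) * ε n) • Z) := by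
      intro n
      rw [hBdef]
      simp only
      rw [← NormedSpace.exp_nsmul, ← smul_smul, ← Nat.cast_smul_eq_nsmul ℝ]
    simp only [h1]
    exact (NormedSpace.exp_continuous.tendsto _).comp (hfl.smul_const Z)
  have hdiff : Tendsto (fun n => A n ^ ⌊t / ε n⌋₊ - B n ^ ⌊t / ε n⌋₊) atTop (𝓝 0) := by
    have h1 : Tendsto (fun n => ‖(ε n)⁻¹ • (A n - 1) - (ε n)⁻¹ • (B n - 1)‖) atTop (𝓝 0) := by
      have := (hA.sub hB).norm
      simpa using this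
    have h2 : Tendsto (fun n => t * Real.exp (t * (‖Z‖ + 1)) *
        ‖(ε n)⁻¹ • (A n - 1) - (ε n)⁻¹ • (B n - 1)‖) atTop (𝓝 0) := by
      simpa using h1.const_mul (t * Real.exp (t * (‖Z‖ + 1)))
    refine squeeze_zero_norm' ?_ h2
    filter_upwards [G_eventually_le A ε Z hε0 hA, G_eventually_le B ε Z hε0 hB] with n h3 h4
    have hM : 0 ≤ ‖Z‖ + 1 := by positivity
    have h5 := G_pow_sub_pow (A n) (B n) (Real.exp (ε n * (‖Z‖ + 1)))
      (Real.one_le_exp (mul_nonneg (hε0 n).le hM)) h3 h4 ⌊t / ε n⌋₊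
    have h6 : (⌊t / ε n⌋₊ : ℝ) * ε n ≤ t := by
      have := Nat.floor_le (div_nonneg ht (hε0 n).le)
      rwa [le_div_iff₀ (hε0 n)] at this
    have h7 : Real.exp (ε n * (‖Z‖ + 1)) ^ ⌊t / ε n⌋₊ ≤ Real.exp (t * (‖Z‖ + 1)) := by
      rw [← Real.exp_nat_mul]
      apply Real.exp_le_exp.2
      nlinarith
    have h8 : ‖A n - B n‖ = ε n * ‖(ε n)⁻¹ • (A n - 1) - (ε n)⁻¹ • (B n - 1)‖ := by
      have e : A n - B n = ε n • ((ε n)⁻¹ • (A n - 1) - (ε n)⁻¹ • (B n - 1)) := by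
        rw [smul_sub, smul_smul, smul_smul, mul_inv_cancel₀ (hε0 n).ne', one_smul, one_smul]
        abel
      conv_lhs => rw [e]
      rw [norm_smul, Real.norm_of_nonneg (hε0 n).le]
    refine h5.trans ?_
    rw [h8]
    calc (⌊t / ε n⌋₊ : ℝ) * Real.exp (ε n * (‖Z‖ + 1)) ^ ⌊t / ε n⌋₊ *
          (ε n * ‖(ε n)⁻¹ • (A n - 1) - (ε n)⁻¹ • (B n - 1)‖)
        = ((⌊t / ε n⌋₊ : ℝ) * ε n) * Real.exp (ε n * (‖Z‖ + 1)) ^ ⌊t / ε n⌋₊ *
          ‖(ε n)⁻¹ • (A n - 1) - (ε n)⁻¹ • (B n - 1)‖ := by ring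
      _ ≤ t * Real.exp (t * (‖Z‖ + 1)) *
          ‖(ε n)⁻¹ • (A n - 1) - (ε n)⁻¹ • (B n - 1)‖ := by
        gcongr
  have := hdiff.add hBm
  simpa using this

theorem G_pow_mem {Q : Set V} (A : EndV) (hA : ∀ x ∈ Q, A x ∈ Q) (m : ℕ) :
    ∀ x ∈ Q, (A ^ m) x ∈ Q := by
  induction m with
  | zero => intro x hx; simpa using hx
  | succ m ih =>
    intro x hx
    rw [pow_succ']
    exact hA _ (ih x hx)

theorem G_limit_mem {Q : Set V} (hQ : IsClosed Q) (A : ℕ → EndV) (ε : ℕ → ℝ) (Z : EndV)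
    (hε0 : ∀ n, 0 < ε n) (hε : Tendsto ε atTop (𝓝 0))
    (hA : Tendsto (fun n => (ε n)⁻¹ • (A n - 1)) atTop (𝓝 Z))
    (hm : ∀ n, ∀ x ∈ Q, A n x ∈ Q) (t : ℝ) (ht : 0 ≤ t) (x : V) (hx : x ∈ Q) :
    (NormedSpace.exp (t • Z)) x ∈ Q := by
  have h1 := exp_limit A ε Z hε0 hε hA t ht
  have h2 : Tendsto (fun n => (A n ^ ⌊t / ε n⌋₊) x) atTop (𝓝 ((NormedSpace.exp (t • Z)) x)) :=
    (((ContinuousLinearMap.apply ℝ V x).continuous).tendsto _).comp h1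
  exact hQ.mem_of_tendsto h2 (Eventually.of_forall fun n => G_pow_mem (A n) (hm n) _ x hx)

/-- TARGET G2. -/
theorem lie_one {Q : Set V} (hQ : IsPC Q) : (1 : EndV) ∈ Lie Q := by
  intro t x hx
  have h := NormedSpace.algebraMap_exp_comm (𝕂 := ℝ) (𝔸 := EndV) t
  rw [Algebra.algebraMap_eq_smul_one, Algebra.algebraMap_eq_smul_one, ← Real.exp_eq_exp_ℝ] at h
  rw [← h]
  exact hQ.smul_mem _ (Real.exp_pos t).le x hx

/-- TARGET G3. -/
theorem lie_smul {Q : Set V} {X : EndV} (hX : X ∈ Lie Q) (c : ℝ) : c • X ∈ Lie Q := by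
  intro t x hx
  rw [smul_smul]
  exact hX (t * c) x hx

theorem G_add_pos {Q : Set V} (hQ : IsPC Q) {X Y : EndV} (hX : X ∈ Lie Q) (hY : Y ∈ Lie Q)
    (t : ℝ) (ht : 0 ≤ t) (x : V) (hx : x ∈ Q) : (NormedSpace.exp (t • (X + Y))) x ∈ Q := by
  have hε : Tendsto (fun n : ℕ => 1 / ((n : ℝ) + 1)) atTop (𝓝 0) :=
    tendsto_one_div_add_atTop_nhds_zero_nat
  have hε0 : ∀ n : ℕ, 0 < 1 / ((n : ℝ) + 1) := fun n => by positivity
  refine G_limit_mem hQ.closed (fun n : ℕ => NormedSpace.exp ((1 / ((n : ℝ) + 1)) • X) *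
    NormedSpace.exp ((1 / ((n : ℝ) + 1)) • Y)) (fun n => 1 / ((n : ℝ) + 1)) (X + Y) hε0 hε ?_ ?_
    t ht x hx
  · refine G_slope (fun u : ℝ => NormedSpace.exp (u • X) * NormedSpace.exp (u • Y)) (X + Y) ?_ ?_
      _ hε0 hε
    · have h1 := hasDerivAt_exp_smul_const (𝕂 := ℝ) X 0
      have h2 := hasDerivAt_exp_smul_const (𝕂 := ℝ) Y 0
      have h3 := h1.fun_mul h2
      simpa using h3
    · simp
  · intro n y hy
    exact hX _ _ (hY _ _ hy)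

/-- TARGET G4. -/
theorem lie_add {Q : Set V} (hQ : IsPC Q) {X Y : EndV} (hX : X ∈ Lie Q) (hY : Y ∈ Lie Q) :
    X + Y ∈ Lie Q := by
  intro t x hx
  rcases le_total 0 t with ht | ht
  · exact G_add_pos hQ hX hY t ht x hx
  · have h1 := G_add_pos hQ (lie_smul hX (-1)) (lie_smul hY (-1)) (-t) (by linarith) x hx
    have e : -t • ((-1 : ℝ) • X + (-1 : ℝ) • Y) = t • (X + Y) := by
      rw [← smul_add, smul_smul]
      congr 1
      ring
    rwa [e] at h1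

theorem G_det (L : EndV) : L.det =
    L (Pi.single 0 1) 0 * L (Pi.single 1 1) 1 * L (Pi.single 2 1) 2
    - L (Pi.single 1 1) 0 * L (Pi.single 0 1) 1 * L (Pi.single 2 1) 2
    - L (Pi.single 0 1) 0 * L (Pi.single 2 1) 1 * L (Pi.single 1 1) 2
    + L (Pi.single 2 1) 0 * L (Pi.single 0 1) 1 * L (Pi.single 1 1) 2
    + L (Pi.single 1 1) 0 * L (Pi.single 2 1) 1 * L (Pi.single 0 1) 2
    - L (Pi.single 2 1) 0 * L (Pi.single 1 1) 1 * L (Pi.single 0 1) 2 := by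
  have h : L.det = (LinearMap.toMatrix' (L : V →ₗ[ℝ] V)).det := (LinearMap.det_toMatrix' _).symm
  rw [h, Matrix.det_fin_three]
  simp only [LinearMap.toMatrix'_apply, ContinuousLinearMap.coe_coe]
  ring

theorem G_nonscalar (W : ℕ → EndV) (ε : ℕ → ℝ) (hε0 : ∀ n, 0 < ε n)
    (hε : Tendsto ε atTop (𝓝 0)) (c : ℝ) (hc : c ≠ 0)
    (hd : ∀ n, |(1 + ε n • W n).det| = 1) (hW : Tendsto W atTop (𝓝 (c • (1 : EndV)))) : False := by
  have hcoef : ∀ i j : Fin 3, Tendsto (fun n => W n (Pi.single j 1) i) atTop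
      (𝓝 ((c • (1 : EndV)) (Pi.single j 1) i)) := by
    intro i j
    have h1 : Tendsto (fun n => W n (Pi.single j 1)) atTop
        (𝓝 ((c • (1 : EndV)) (Pi.single j 1))) :=
      (((ContinuousLinearMap.apply ℝ V (Pi.single j 1)).continuous).tendsto _).comp hW
    exact ((continuous_apply i).tendsto _).comp h1
  have h00 := hcoef 0 0
  have h01 := hcoef 0 1
  have h02 := hcoef 0 2
  have h10 := hcoef 1 0
  have h11 := hcoef 1 1
  have h12 := hcoef 1 2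
  have h20 := hcoef 2 0
  have h21 := hcoef 2 1
  have h22 := hcoef 2 2
  simp at h00 h01 h02 h10 h11 h12 h20 h21 h22
  set a : Fin 3 → Fin 3 → ℕ → ℝ := fun i j n => W n (Pi.single j 1) i with ha
  have hdet : ∀ n, (1 + ε n • W n).det = 1 + ε n * ((a 0 0 n + a 1 1 n + a 2 2 n) +
      ε n * (a 0 0 n * a 1 1 n + a 0 0 n * a 2 2 n + a 1 1 n * a 2 2 n - a 0 1 n * a 1 0 n
        - a 0 2 n * a 2 0 n - a 1 2 n * a 2 1 n) +
      ε n ^ 2 * (a 0 0 n * a 1 1 n * a 2 2 n - a 0 1 n * a 1 0 n * a 2 2 n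
        - a 0 0 n * a 1 2 n * a 2 1 n + a 0 2 n * a 1 0 n * a 2 1 n
        + a 0 1 n * a 1 2 n * a 2 0 n - a 0 2 n * a 1 1 n * a 2 0 n)) := by
    intro n
    rw [G_det]
    simp [ha]
    ring
  have hlim : Tendsto (fun n => (a 0 0 n + a 1 1 n + a 2 2 n) +
      ε n * (a 0 0 n * a 1 1 n + a 0 0 n * a 2 2 n + a 1 1 n * a 2 2 n - a 0 1 n * a 1 0 n
        - a 0 2 n * a 2 0 n - a 1 2 n * a 2 1 n) +
      ε n ^ 2 * (a 0 0 n * a 1 1 n * a 2 2 n - a 0 1 n * a 1 0 n * a 2 2 n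
        - a 0 0 n * a 1 2 n * a 2 1 n + a 0 2 n * a 1 0 n * a 2 1 n
        + a 0 1 n * a 1 2 n * a 2 0 n - a 0 2 n * a 1 1 n * a 2 0 n)) atTop (𝓝 (c + c + c)) := by
    have k1 : Tendsto (fun n => a 0 0 n + a 1 1 n + a 2 2 n) atTop (𝓝 (c + c + c)) :=
      (h00.add h11).add h22
    have k2 : Tendsto (fun n => ε n * (a 0 0 n * a 1 1 n + a 0 0 n * a 2 2 n + a 1 1 n * a 2 2 n
        - a 0 1 n * a 1 0 n - a 0 2 n * a 2 0 n - a 1 2 n * a 2 1 n)) atTop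
        (𝓝 (0 * (c * c + c * c + c * c - 0 * 0 - 0 * 0 - 0 * 0))) :=
      hε.mul ((((((h00.mul h11).add (h00.mul h22)).add (h11.mul h22)).sub (h01.mul h10)).sub
        (h02.mul h20)).sub (h12.mul h21))
    have k3 : Tendsto (fun n => ε n ^ 2 * (a 0 0 n * a 1 1 n * a 2 2 n
        - a 0 1 n * a 1 0 n * a 2 2 n
        - a 0 0 n * a 1 2 n * a 2 1 n + a 0 2 n * a 1 0 n * a 2 1 n
        + a 0 1 n * a 1 2 n * a 2 0 n - a 0 2 n * a 1 1 n * a 2 0 n)) atTop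
        (𝓝 (0 ^ 2 * (c * c * c - 0 * 0 * c - c * 0 * 0 + 0 * 0 * 0 + 0 * 0 * 0 - 0 * c * 0))) :=
      (hε.pow 2).mul (((((((h00.mul h11).mul h22).sub ((h01.mul h10).mul h22)).sub
        ((h00.mul h12).mul h21)).add ((h02.mul h10).mul h21)).add ((h01.mul h12).mul h20)).sub
        ((h02.mul h11).mul h20))
    have := (k1.add k2).add k3
    simpa using this
  have hd1 : Tendsto (fun n => (1 + ε n • W n).det) atTop (𝓝 1) := by
    simp only [hdet]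
    have := (hε.mul hlim).const_add 1
    simpa using this
  have hpos : ∀ᶠ n in atTop, 0 < (1 + ε n • W n).det := hd1.eventually_const_lt one_pos
  have hz : Tendsto (fun _ : ℕ => (0 : ℝ)) atTop (𝓝 (c + c + c)) := by
    refine hlim.congr' ?_
    filter_upwards [hpos] with n hn
    have h1 := hd n
    rw [abs_of_pos hn, hdet] at h1
    have h2 := hε0 n
    have h3 : ε n * ((a 0 0 n + a 1 1 n + a 2 2 n) +
      ε n * (a 0 0 n * a 1 1 n + a 0 0 n * a 2 2 n + a 1 1 n * a 2 2 n - a 0 1 n * a 1 0 n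
        - a 0 2 n * a 2 0 n - a 1 2 n * a 2 1 n) +
      ε n ^ 2 * (a 0 0 n * a 1 1 n * a 2 2 n - a 0 1 n * a 1 0 n * a 2 2 n
        - a 0 0 n * a 1 2 n * a 2 1 n + a 0 2 n * a 1 0 n * a 2 1 n
        + a 0 1 n * a 1 2 n * a 2 0 n - a 0 2 n * a 1 1 n * a 2 0 n)) = 0 := by linarith
    exact (mul_eq_zero.1 h3).resolve_left h2.ne'
  have := tendsto_nhds_unique hz tendsto_const_nhds
  apply hc
  linarith

/-- TARGET G5. -/
theorem exists_nonscalar {Q : Set V} (hQ : IsPC Q) (L : ℕ → EndV)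
    (h1 : ∀ n, Maps (L n) Q Q) (hd : ∀ n, |(L n).det| = 1) (hne : ∀ n, L n ≠ 1)
    (hl : Tendsto L atTop (𝓝 1)) : ∃ Z ∈ Lie Q, ∀ c : ℝ, Z ≠ c • (1 : EndV) := by
  have hpos : ∀ n, 0 < ‖L n - 1‖ := fun n => norm_pos_iff.2 (sub_ne_zero.2 (hne n))
  have hsph : ∀ n, ‖L n - 1‖⁻¹ • (L n - 1) ∈ Metric.sphere (0 : EndV) 1 := by
    intro n
    rw [mem_sphere_zero_iff_norm, norm_smul, norm_inv, norm_norm, inv_mul_cancel₀ (hpos n).ne']
  obtain ⟨Z, hZ, φ, hφ, hlim⟩ := (isCompact_sphere (0 : EndV) 1).tendsto_subseq hsph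
  have hZ1 : ‖Z‖ = 1 := mem_sphere_zero_iff_norm.1 hZ
  have hε : Tendsto (fun n => ‖L (φ n) - 1‖) atTop (𝓝 0) := by
    have h1 : Tendsto (fun n => ‖L n - 1‖) atTop (𝓝 0) := by
      have := (hl.sub_const 1).norm
      simpa using this
    exact h1.comp hφ.tendsto_atTop
  have hε0 : ∀ n, 0 < ‖L (φ n) - 1‖ := fun n => hpos _
  have hlim' : Tendsto (fun n => ‖L (φ n) - 1‖⁻¹ • (L (φ n) - 1)) atTop (𝓝 Z) := hlim
  refine ⟨Z, ?_, ?_⟩
  · intro t x hx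
    rcases le_total 0 t with ht | ht
    · exact G_limit_mem hQ.closed (fun n => L (φ n)) _ Z hε0 hε hlim'
        (fun n y hy => ((h1 (φ n)).2 y).1 hy) t ht x hx
    · have hinv : Tendsto (fun n => Ring.inverse (L (φ n))) atTop (𝓝 1) := by
        have h2 : ContinuousAt (Ring.inverse : EndV → EndV) ((1 : EndVˣ) : EndV) :=
          NormedRing.inverse_continuousAt 1
        have h3 : Tendsto (Ring.inverse : EndV → EndV) (𝓝 1) (𝓝 1) := by
          have := h2.tendsto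
          simpa using this
        exact h3.comp (hl.comp hφ.tendsto_atTop)
      have h4 : Tendsto (fun n => ‖L (φ n) - 1‖⁻¹ • (Ring.inverse (L (φ n)) - 1)) atTop
          (𝓝 (-Z)) := by
        have h5 : Tendsto (fun n => -(Ring.inverse (L (φ n)) *
            (‖L (φ n) - 1‖⁻¹ • (L (φ n) - 1)))) atTop (𝓝 (-(1 * Z))) :=
          (hinv.mul hlim').neg
        rw [one_mul] at h5
        refine h5.congr fun n => ?_
        have e : Ring.inverse (L (φ n)) - 1 = -(1 - Ring.inverse (L (φ n))) := by abel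
        rw [mul_smul_comm, mul_sub, Ring.inverse_mul_cancel _ (h1 (φ n)).1, mul_one, e, smul_neg]
      have h6 := G_limit_mem hQ.closed (fun n => Ring.inverse (L (φ n))) _ (-Z) hε0 hε h4
        (fun n y hy => by
          rw [(h1 (φ n)).2]
          have : L (φ n) ((Ring.inverse (L (φ n))) y) = (L (φ n) * Ring.inverse (L (φ n))) y := rfl
          rw [this, Ring.mul_inverse_cancel _ (h1 (φ n)).1]
          exact hy) (-t) (by linarith) x hx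
      rwa [smul_neg, neg_smul, neg_neg] at h6
  · intro c hc
    have hc0 : c ≠ 0 := by
      rintro rfl
      rw [zero_smul] at hc
      rw [hc, norm_zero] at hZ1
      exact zero_ne_one hZ1
    refine G_nonscalar (fun n => ‖L (φ n) - 1‖⁻¹ • (L (φ n) - 1)) _ hε0 hε c hc0 (fun n => ?_)
      (hc ▸ hlim')
    have : 1 + ‖L (φ n) - 1‖ • ‖L (φ n) - 1‖⁻¹ • (L (φ n) - 1) = L (φ n) := by
      rw [smul_smul, mul_inv_cancel₀ (hε0 n).ne', one_smul]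
      abel
    rw [this]
    exact hd (φ n)

end Pool.Agent.Helper438.Proj.SG
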