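import Pool.Agent.Helper438.Proj.Defs

namespace Pool.Agent.Helper438.Proj.SI

open Set Filter Topology

/-- integral curves of `Z - c` starting in `Q` stay in `Q` -/
theorem flow_mem {Q : Set V} (hQ : IsPC Q) {Z : EndV} (hZ : Z ∈ Lie Q) (c : ℝ) (g : ℝ → V)
    (hg : ∀ t, HasDerivAt g (Z (g t) - c • g t) t) (h0 : g 0 ∈ Q) (t : ℝ) : g t ∈ Q := by
  -- h = e^{ct} g
  have hh : ∀ t, HasDerivAt (fun t => Real.exp (c * t) • g t) (Z (Real.exp (c * t) • g t)) t := by
    intro t
    have h1 : HasDerivAt (fun t : ℝ => Real.exp (c * t)) (Real.exp (c * t) * c) t := by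
      have := ((hasDerivAt_id t).const_mul c).exp
      simpa using this
    have h2 := h1.smul (hg t)
    refine HasDerivAt.congr_deriv h2 ?_
    rw [map_smul]
    module
  have hexp : ∀ t : ℝ, HasDerivAt (fun t : ℝ => (NormedSpace.exp (t • (-Z)) : EndV)
      (Real.exp (c * t) • g t)) 0 t := by
    intro t
    have h1 := hasDerivAt_exp_smul_const (-Z) t
    have h2 := h1.clm_apply (hh t)
    refine HasDerivAt.congr_deriv h2 ?_
    simp
  have hconst := is_const_of_deriv_eq_zero (f := fun t : ℝ => (NormedSpace.exp (t • (-Z)) : EndV)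
      (Real.exp (c * t) • g t)) (fun t => (hexp t).differentiableAt)
      (fun t => (hexp t).deriv) t 0
  simp only [zero_smul, NormedSpace.exp_zero, mul_zero, Real.exp_zero, one_smul,
    ContinuousLinearMap.one_apply] at hconst
  letI : NormedAlgebra ℚ EndV := NormedAlgebra.restrictScalars ℚ ℝ EndV
  have hinv : (NormedSpace.exp (t • Z) : EndV) * NormedSpace.exp (t • (-Z)) = 1 := by
    rw [← NormedSpace.exp_add_of_commute]
    · simp
    · rw [smul_neg]; exact (Commute.refl (t • Z)).neg_right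
  have h3 : Real.exp (c * t) • g t = (NormedSpace.exp (t • Z) : EndV) (g 0) := by
    rw [← hconst]
    have := congrArg (fun L : EndV => L (Real.exp (c * t) • g t)) hinv
    simpa using this.symm
  have h4 : (NormedSpace.exp (t • Z) : EndV) (g 0) ∈ Q := hZ t _ h0
  rw [← h3] at h4
  have h5 := hQ.smul_mem (Real.exp (-(c * t))) (Real.exp_pos _).le _ h4
  rw [smul_smul, ← Real.exp_add] at h5
  simpa using h5

theorem lim_mem {Q : Set V} (hQ : IsPC Q) (v : V) (s : ℕ → ℝ) (x : ℕ → V) (x0 : V)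
    (hs : Tendsto s atTop atTop) (hx : Tendsto x atTop (𝓝 x0))
    (h : ∀ n, v + s n • x n ∈ Q) : x0 ∈ Q := by
  have h1 : Tendsto (fun n => (s n)⁻¹ • v + x n) atTop (𝓝 ((0:ℝ) • v + x0)) :=
    ((tendsto_inv_atTop_zero.comp hs).smul_const v).add hx
  rw [zero_smul, zero_add] at h1
  refine hQ.closed.mem_of_tendsto h1 ?_
  filter_upwards [hs.eventually_gt_atTop 0] with n hn
  have := hQ.smul_mem (s n)⁻¹ (inv_nonneg.2 hn.le) _ (h n)
  rwa [smul_add, smul_smul, inv_mul_cancel₀ hn.ne', one_smul] at this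

theorem exists_eps {Q : Set V} {v : V} (hv : v ∈ interior Q) (u : V) :
    ∃ ε : ℝ, 0 < ε ∧ v + ε • u ∈ Q ∧ v + ε • (-u) ∈ Q := by
  have hc : ∀ u : V, Tendsto (fun ε : ℝ => v + ε • u) (𝓝[>] 0) (𝓝 v) := by
    intro u
    have : Continuous (fun ε : ℝ => v + ε • u) := by fun_prop
    have h := this.tendsto 0
    simp only [zero_smul, add_zero] at h
    exact h.mono_left nhdsWithin_le_nhds
  have h1 := (hc u).eventually (mem_interior_iff_mem_nhds.1 hv)
  have h2 := (hc (-u)).eventually (mem_interior_iff_mem_nhds.1 hv)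
  obtain ⟨ε, ⟨ha, hb⟩, hc⟩ := ((h1.and h2).and self_mem_nhdsWithin).exists
  exact ⟨ε, hc, ha, hb⟩

theorem zero_of_eps {Q : Set V} (hQ : IsPC Q) {ε : ℝ} (hε : 0 < ε) (u : V)
    (h1 : ε • u ∈ Q) (h2 : ε • (-u) ∈ Q) : u = 0 := by
  have := hQ.salient _ h1 (by rwa [smul_neg] at h2)
  exact (smul_eq_zero.1 this).resolve_left hε.ne'

section

variable {Q : Set V} {Z : EndV} {v : V} {c : ℝ}

theorem real_eig (hQ : IsPC Q) (hZ : Z ∈ Lie Q) (hv : v ∈ interior Q) (hZv : Z v = c • v)
    {u : V} {r : ℝ} (hr : r ≠ 0) (hu : Z u - c • u = r • u) : u = 0 := by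
  obtain ⟨ε, hε, h1, h2⟩ := exists_eps hv u
  have key : ∀ w : V, Z w - c • w = r • w → v + ε • w ∈ Q → ε • w ∈ Q := by
    intro w hw h0
    have hg : ∀ t, HasDerivAt (fun t : ℝ => v + Real.exp (r * t) • (ε • w))
        (Z (v + Real.exp (r * t) • (ε • w)) - c • (v + Real.exp (r * t) • (ε • w))) t := by
      intro t
      have h1 : HasDerivAt (fun t : ℝ => Real.exp (r * t)) (Real.exp (r * t) * r) t := by
        have := ((hasDerivAt_id t).const_mul r).exp
        simpa using this
      have h2 := (h1.smul_const (ε • w)).const_add v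
      refine HasDerivAt.congr_deriv h2 ?_
      have hw' : Z w = r • w + c • w := by rw [← hw]; abel
      rw [map_add, map_smul, map_smul, hZv, hw']
      module
    have hmem := flow_mem hQ hZ c _ hg (by simpa using h0)
    rcases lt_or_gt_of_ne hr with hneg | hpos
    · refine lim_mem hQ v (fun n : ℕ => Real.exp (r * (-(n : ℝ)))) (fun _ => ε • w) _ ?_
        tendsto_const_nhds (fun n => hmem (-(n : ℝ)))
      refine Real.tendsto_exp_atTop.comp ?_
      have : (fun n : ℕ => r * (-(n : ℝ))) = fun n : ℕ => (-r) * (n : ℝ) := by ext n; ring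
      rw [this]
      exact tendsto_natCast_atTop_atTop.const_mul_atTop (by linarith)
    · refine lim_mem hQ v (fun n : ℕ => Real.exp (r * (n : ℝ))) (fun _ => ε • w) _ ?_
        tendsto_const_nhds (fun n => hmem (n : ℝ))
      refine Real.tendsto_exp_atTop.comp ?_
      exact tendsto_natCast_atTop_atTop.const_mul_atTop hpos
  refine zero_of_eps hQ hε u (key u hu h1) (key (-u) ?_ h2)
  rw [map_neg, smul_neg, smul_neg, ← hu]; abel

theorem nilp (hQ : IsPC Q) (hZ : Z ∈ Lie Q) (hv : v ∈ interior Q) (hZv : Z v = c • v)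
    {u w : V} (hu : Z u - c • u = w) (hw : Z w - c • w = 0) : w = 0 := by
  obtain ⟨ε, hε, h1, h2⟩ := exists_eps hv u
  have key : ∀ u w : V, Z u - c • u = w → Z w - c • w = 0 → v + ε • u ∈ Q → ε • w ∈ Q := by
    intro u w hu hw h0
    have hg : ∀ t, HasDerivAt (fun t : ℝ => v + ε • (u + t • w))
        (Z (v + ε • (u + t • w)) - c • (v + ε • (u + t • w))) t := by
      intro t
      have h2 := ((((hasDerivAt_id t).smul_const w).const_add u).const_smul ε).const_add v
      refine HasDerivAt.congr_deriv h2 ?_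
      have hu' : Z u = w + c • u := by rw [← hu]; abel
      have hw' : Z w = c • w := by rw [sub_eq_zero] at hw; exact hw
      simp only [map_add, map_smul, hZv, hw', hu']
      module
    have hmem := flow_mem hQ hZ c _ hg (by simpa using h0)
    refine lim_mem hQ (v + ε • u) (fun n : ℕ => (n : ℝ)) (fun _ => ε • w) _
      tendsto_natCast_atTop_atTop tendsto_const_nhds (fun n => ?_)
    have := hmem (n : ℝ)
    convert this using 1
    module
  refine zero_of_eps hQ hε w (key u w hu hw h1) (key (-u) (-w) ?_ ?_ h2)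
  · rw [map_neg, smul_neg, ← hu]; abel
  · rw [map_neg, smul_neg]; rw [sub_eq_zero] at hw; rw [hw]; simp

theorem cplx (hQ : IsPC Q) (hZ : Z ∈ Lie Q) (hv : v ∈ interior Q) (hZv : Z v = c • v)
    {u u1 : V} {a p w : ℝ} (ha : a ≠ 0) (hw : 0 < w) (hp : p = w ^ 2 + a ^ 2 / 4)
    (hu : Z u - c • u = u1) (hu1 : Z u1 - c • u1 = a • u1 - p • u) : u = 0 := by
  obtain ⟨ε, hε, h1, h2⟩ := exists_eps hv u
  have key : ∀ u u1 : V, Z u - c • u = u1 → Z u1 - c • u1 = a • u1 - p • u →
      v + ε • u ∈ Q → ε • u ∈ Q := by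
    intro u u1 hu hu1 h0
    have hg : ∀ t, HasDerivAt (fun t : ℝ => v + (ε * Real.exp (a / 2 * t)) •
        (Real.cos (w * t) • u + (Real.sin (w * t) / w) • (u1 - (a / 2) • u)))
        (Z (v + (ε * Real.exp (a / 2 * t)) •
        (Real.cos (w * t) • u + (Real.sin (w * t) / w) • (u1 - (a / 2) • u)))
        - c • (v + (ε * Real.exp (a / 2 * t)) •
        (Real.cos (w * t) • u + (Real.sin (w * t) / w) • (u1 - (a / 2) • u)))) t := by
      intro t
      have e1 : HasDerivAt (fun t : ℝ => ε * Real.exp (a / 2 * t))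
          (ε * (Real.exp (a / 2 * t) * (a / 2))) t := by
        have := (((hasDerivAt_id t).const_mul (a / 2)).exp).const_mul ε
        simpa using this
      have e2 : HasDerivAt (fun t : ℝ => Real.cos (w * t)) (- Real.sin (w * t) * w) t := by
        have := ((hasDerivAt_id t).const_mul w).cos
        simpa using this
      have e3 : HasDerivAt (fun t : ℝ => Real.sin (w * t) / w) (Real.cos (w * t) * w / w) t := by
        have := (((hasDerivAt_id t).const_mul w).sin).div_const w
        simpa using this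
      have h2 := (e1.smul ((e2.smul_const u).add (e3.smul_const (u1 - (a / 2) • u)))).const_add v
      refine HasDerivAt.congr_deriv h2 ?_
      have hu' : Z u = u1 + c • u := by rw [← hu]; abel
      have hu1' : Z u1 = a • u1 - p • u + c • u1 := by rw [← hu1]; abel
      simp only [map_add, map_sub, map_smul, hZv, hu', hu1', hp, Pi.add_apply]
      match_scalars <;> field_simp <;> ring
    have hmem := flow_mem hQ hZ c _ hg (by simpa using h0)
    have hval : ∀ s : ℝ, Real.cos (w * s) = 1 → Real.sin (w * s) = 0 →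
        v + Real.exp (a / 2 * s) • (ε • u) ∈ Q := by
      intro s hs1 hs2
      have := hmem s
      simp only [hs1, hs2] at this
      convert this using 1
      module
    have hval' : ∀ n : ℤ, v + Real.exp (a / 2 * (n * (2 * Real.pi) / w)) • (ε • u) ∈ Q := by
      intro n
      have hwn : w * (n * (2 * Real.pi) / w) = n * (2 * Real.pi) := by field_simp
      refine hval _ ?_ ?_
      · rw [hwn]; exact Real.cos_int_mul_two_pi n
      · rw [hwn]
        have : (n : ℝ) * (2 * Real.pi) = ((2 * n : ℤ) : ℝ) * Real.pi := by push_cast; ring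
        rw [this]; exact Real.sin_int_mul_pi _
    rcases lt_or_gt_of_ne ha with hneg | hpos
    · refine lim_mem hQ v (fun n : ℕ => Real.exp (a / 2 * (((-(n : ℤ) : ℤ) : ℝ) * (2 * Real.pi) / w)))
        (fun _ => ε • u) _ ?_ tendsto_const_nhds (fun n => hval' (-(n : ℤ)))
      refine Real.tendsto_exp_atTop.comp ?_
      have : (fun n : ℕ => a / 2 * (((-(n : ℤ) : ℤ) : ℝ) * (2 * Real.pi) / w)) =
          fun n : ℕ => (-a * Real.pi / w) * (n : ℝ) := by
        ext n; push_cast; field_simp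
      rw [this]
      refine tendsto_natCast_atTop_atTop.const_mul_atTop ?_
      have : 0 < -a := by linarith
      positivity
    · refine lim_mem hQ v (fun n : ℕ => Real.exp (a / 2 * ((((n : ℤ) : ℤ) : ℝ) * (2 * Real.pi) / w)))
        (fun _ => ε • u) _ ?_ tendsto_const_nhds (fun n => hval' (n : ℤ))
      refine Real.tendsto_exp_atTop.comp ?_
      have : (fun n : ℕ => a / 2 * ((((n : ℤ) : ℤ) : ℝ) * (2 * Real.pi) / w)) =
          fun n : ℕ => (a * Real.pi / w) * (n : ℝ) := by
        ext n; push_cast; field_simp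
      rw [this]
      refine tendsto_natCast_atTop_atTop.const_mul_atTop ?_
      positivity
  refine zero_of_eps hQ hε u (key u u1 hu hu1 h1) (key (-u) (-u1) ?_ ?_ h2)
  · rw [map_neg, smul_neg, ← hu]; abel
  · rw [map_neg, smul_neg, smul_neg, smul_neg]
    have : Z u1 = a • u1 - p • u + c • u1 := by rw [← hu1]; abel
    rw [this]; abel

end

theorem cayley (Y : V →ₗ[ℝ] V) (v : V) (hv : v ≠ 0) (h : Y v = 0) :
    ∃ a p : ℝ, ∀ x, Y (Y (Y x)) = a • Y (Y x) - p • Y x := by
  have hdet : LinearMap.det Y = 0 := by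
    by_contra hd
    have h1 : (LinearMap.equivOfDetNeZero Y hd) v = 0 := h
    exact hv ((LinearEquiv.map_eq_zero_iff _).1 h1)
  have h0 : Y.charpoly.coeff 0 = 0 := by
    have := LinearMap.det_eq_sign_charpoly_coeff Y
    rw [hdet] at this
    have h3 : ((-1 : ℝ)) ^ Module.finrank ℝ V ≠ 0 := pow_ne_zero _ (by norm_num)
    exact (mul_eq_zero.1 this.symm).resolve_left h3
  have hdeg : Y.charpoly.natDegree = 3 := by
    rw [LinearMap.charpoly_natDegree]; simp
  have h3 : Y.charpoly.coeff 3 = 1 := by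
    have := LinearMap.charpoly_monic Y
    rw [Polynomial.Monic, Polynomial.leadingCoeff, hdeg] at this
    exact this
  have hc := LinearMap.aeval_self_charpoly Y
  rw [Polynomial.aeval_eq_sum_range, hdeg] at hc
  simp only [Finset.sum_range_succ, Finset.sum_range_zero, h0, h3, zero_add, zero_smul,
    pow_one, one_smul] at hc
  refine ⟨-Y.charpoly.coeff 2, Y.charpoly.coeff 1, fun x => ?_⟩
  have := congrArg (fun L : V →ₗ[ℝ] V => L x) hc
  simp only [LinearMap.add_apply, LinearMap.smul_apply, LinearMap.zero_apply, pow_succ, pow_zero,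
    Module.End.mul_apply, Module.End.one_apply] at this
  have e : Y (Y (Y x)) = -(Y.charpoly.coeff 1 • Y x + Y.charpoly.coeff 2 • Y (Y x)) :=
    eq_neg_of_add_eq_zero_right this
  rw [e]
  module

/-- the cubic relation -/
theorem cubic {Q : Set V} {Z : EndV} {v : V} {c : ℝ}
    (hQ : IsPC Q) (hZ : Z ∈ Lie Q) (hv : v ∈ interior Q) (hv0 : v ≠ 0) (hZv : Z v = c • v)
    (hns : ∀ c : ℝ, Z ≠ c • (1 : EndV)) :
    ∃ w : ℝ, 0 < w ∧ ∀ x, (Z - c • (1 : EndV)) ((Z - c • (1 : EndV)) ((Z - c • (1 : EndV)) x))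
      = -(w ^ 2 • (Z - c • (1 : EndV)) x) := by
  set Y : EndV := Z - c • (1 : EndV) with hY
  have hYa : ∀ x, Y x = Z x - c • x := fun x => by simp [hY]
  have hYv : Y v = 0 := by rw [hYa, hZv]; simp
  have hYne : ∃ x, Y x ≠ 0 := by
    by_contra hcon
    push Not at hcon
    apply hns c
    ext1 x
    have := hcon x
    rw [hYa, sub_eq_zero] at this
    simpa using this
  obtain ⟨a, p, hap⟩ := cayley (Y : V →ₗ[ℝ] V) v hv0 (by simpa using hYv)
  have hap' : ∀ x, Y (Y (Y x)) = a • Y (Y x) - p • Y x := fun x => by simpa using hap x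
  -- eigenvectors
  have eig : ∀ (r : ℝ) (u : V), r ≠ 0 → Y u = r • u → u = 0 := by
    intro r u hr hu
    rw [hYa] at hu
    exact real_eig hQ hZ hv hZv hr hu
  have nil : ∀ u : V, Y (Y u) = 0 → Y u = 0 := by
    intro u hu
    refine nilp hQ hZ hv hZv (u := u) (hYa u).symm ?_
    rw [← hYa]; exact hu
  obtain ⟨x1, hx1⟩ := hYne
  by_cases hD : 0 ≤ a ^ 2 - 4 * p
  · exfalso
    obtain ⟨r1, r2, hs, hpr⟩ : ∃ r1 r2 : ℝ, r1 + r2 = a ∧ r1 * r2 = p := by
      refine ⟨(a + Real.sqrt (a ^ 2 - 4 * p)) / 2, (a - Real.sqrt (a ^ 2 - 4 * p)) / 2, by ring, ?_⟩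
      have := Real.sq_sqrt hD
      nlinarith
    subst hs
    subst hpr
    -- u1 = Y (Y x) - r2 Y x satisfies Y u1 = r1 u1
    have hu1 : ∀ (r1' r2' : ℝ), r1' + r2' = r1 + r2 → r1' * r2' = r1 * r2 → ∀ x,
        Y (Y (Y x) - r2' • Y x) = r1' • (Y (Y x) - r2' • Y x) := by
      intro r1' r2' e1 e2 x
      rw [map_sub, map_smul, hap', ← e1, ← e2]
      module
    by_cases hr1 : r1 = 0
    · by_cases hr2 : r2 = 0
      · have h3 : Y (Y (Y x1)) = 0 := by rw [hap', hr1, hr2]; simp
        exact hx1 (nil _ (nil _ h3))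
      · have h3 := eig r2 _ hr2 (hu1 r2 r1 (by ring) (by ring) x1)
        rw [hr1, zero_smul, sub_zero] at h3
        exact hx1 (nil _ h3)
    · have h3 := eig r1 _ hr1 (hu1 r1 r2 rfl rfl x1)
      rw [sub_eq_zero] at h3
      by_cases hr2 : r2 = 0
      · rw [hr2, zero_smul] at h3
        exact hx1 (nil _ h3)
      · exact hx1 (eig r2 _ hr2 h3)
  · push Not at hD
    have hw0 : 0 < (4 * p - a ^ 2) / 4 := by linarith
    set w := Real.sqrt ((4 * p - a ^ 2) / 4) with hw
    have hwpos : 0 < w := Real.sqrt_pos.2 hw0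
    have hw2 : w ^ 2 = (4 * p - a ^ 2) / 4 := Real.sq_sqrt hw0.le
    have ha : a = 0 := by
      by_contra ha
      refine hx1 (cplx hQ hZ hv hZv (u := Y x1) (u1 := Y (Y x1)) (a := a) (p := p) (w := w) ha hwpos
        (by rw [hw2]; ring) (hYa _).symm ?_)
      rw [← hYa, hap']
    refine ⟨w, hwpos, fun x => ?_⟩
    rw [hap', hw2, ha]
    match_scalars <;> ring

/-- the rotation flow -/
theorem rot_mem {Q : Set V} {Z : EndV} {v : V} {c w : ℝ}
    (hQ : IsPC Q) (hZ : Z ∈ Lie Q) (hw : 0 < w) (hZv : Z v = c • v) {e1 e2 : V}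
    (h1 : Z e1 = e2 + c • e1) (h2 : Z e2 = -(w ^ 2 • e1) + c • e2) (a b g : ℝ)
    (hz : a • v + b • e1 + g • e2 ∈ Q) (θ : ℝ) :
    a • v + (b * Real.cos θ - w * g * Real.sin θ) • e1
      + ((b * Real.sin θ + w * g * Real.cos θ) / w) • e2 ∈ Q := by
  have hg : ∀ t, HasDerivAt (fun t : ℝ => a • v +
      ((b * Real.cos (w * t) - w * g * Real.sin (w * t)) • e1
      + ((b * Real.sin (w * t) + w * g * Real.cos (w * t)) / w) • e2))
      (Z (a • v +
      ((b * Real.cos (w * t) - w * g * Real.sin (w * t)) • e1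
      + ((b * Real.sin (w * t) + w * g * Real.cos (w * t)) / w) • e2)) - c • (a • v +
      ((b * Real.cos (w * t) - w * g * Real.sin (w * t)) • e1
      + ((b * Real.sin (w * t) + w * g * Real.cos (w * t)) / w) • e2))) t := by
    intro t
    have e2' : HasDerivAt (fun t : ℝ => Real.cos (w * t)) (- Real.sin (w * t) * w) t := by
      have := ((hasDerivAt_id t).const_mul w).cos
      simpa using this
    have e3' : HasDerivAt (fun t : ℝ => Real.sin (w * t)) (Real.cos (w * t) * w) t := by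
      have := (((hasDerivAt_id t).const_mul w).sin)
      simpa using this
    have f1 := ((e2'.const_mul b).sub (e3'.const_mul (w * g))).smul_const e1
    have f2 := (((e3'.const_mul b).add (e2'.const_mul (w * g))).div_const w).smul_const e2
    have h3 := (f1.add f2).const_add (a • v)
    refine HasDerivAt.congr_deriv h3 ?_
    simp only [map_add, map_smul, hZv, h1, h2]
    match_scalars <;> field_simp <;> ring
  have hmem := flow_mem hQ hZ c _ hg (by
    have e : ((b * Real.sin (w * 0) + w * g * Real.cos (w * 0)) / w) = g := by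
      simp; field_simp
    rw [e]
    have e' : b * Real.cos (w * 0) - w * g * Real.sin (w * 0) = b := by simp
    rw [e', ← add_assoc]
    exact hz) (θ / w)
  have e : w * (θ / w) = θ := by field_simp
  rw [e, ← add_assoc] at hmem
  exact hmem

/-- TARGET I. -/
theorem conic_of_fixed_interior {Q : Set V} (hQ : IsPC Q) {Z : EndV} (hZ : Z ∈ Lie Q)
    (hns : ∀ c : ℝ, Z ≠ c • (1 : EndV)) {v : V} (hv : v ∈ interior Q) (c : ℝ)
    (hZv : Z v = c • v) : Conic Q := by
  have hvQ : v ∈ Q := interior_subset hv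
  have hv0 : v ≠ 0 := by
    rintro rfl
    obtain ⟨ε, hε, h1, h2⟩ := exists_eps hv (fun _ => (1:ℝ))
    have := zero_of_eps hQ hε (fun _ => (1:ℝ)) (by simpa using h1) (by simpa using h2)
    exact absurd (congrFun this 0) (by norm_num)
  obtain ⟨w, hw, hcub⟩ := cubic hQ hZ hv hv0 hZv hns
  set Y : EndV := Z - c • (1 : EndV) with hY
  have hYa : ∀ x, Y x = Z x - c • x := fun x => by simp [hY]
  have hYv : Y v = 0 := by rw [hYa, hZv]; simp
  have hYne : ∃ x, Y x ≠ 0 := by
    by_contra hcon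
    push Not at hcon
    apply hns c
    ext1 x
    have := hcon x
    rw [hYa, sub_eq_zero] at this
    simpa using this
  obtain ⟨x0, hx0⟩ := hYne
  set e1 := Y x0 with he1
  set e2 := Y e1 with he2
  have hYe2 : Y e2 = -(w ^ 2 • e1) := by rw [he2, he1, hcub]
  have hZe1 : Z e1 = e2 + c • e1 := by rw [he2, hYa]; abel
  have hZe2 : Z e2 = -(w ^ 2 • e1) + c • e2 := by rw [← hYe2, hYa]; abel
  have hw2 : 0 < w ^ 2 := by positivity
  have hli : LinearIndependent ℝ ![v, e1, e2] := by
    rw [Fintype.linearIndependent_iff]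
    intro g hg
    simp only [Fin.sum_univ_three, Matrix.cons_val_zero, Matrix.cons_val_one, Matrix.cons_val] at hg
    have h1 := congrArg Y hg
    rw [map_add, map_add, map_smul, map_smul, map_smul, hYv, hYe2, ← he2, map_zero] at h1
    have h2 := congrArg Y h1
    rw [map_add, map_add, map_smul, map_smul, map_smul, map_neg, map_smul, map_zero, hYe2,
      ← he2] at h2
    -- h1 : g1 e2 - g2 w² e1 = 0 ; h2 : -g1 w² e1 - g2 w² e2 = 0
    have h3 : ((g 1) ^ 2 * w ^ 2 + (g 2) ^ 2 * w ^ 4) • e1 = 0 := by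
      have : ((g 1) ^ 2 * w ^ 2 + (g 2) ^ 2 * w ^ 4) • e1 =
          (-(g 1)) • (g 0 • (0:V) + g 1 • (-(w ^ 2 • e1)) + g 2 • (-(w ^ 2 • e2)))
          + (-(g 2 * w ^ 2)) • (g 0 • (0:V) + g 1 • e2 + g 2 • (-(w ^ 2 • e1))) := by
        module
      rw [this, h1, h2]; simp
    have h4 := (smul_eq_zero.1 h3).resolve_right hx0
    have h5 : g 1 = 0 := by
      have : (g 1) ^ 2 * w ^ 2 = 0 := by nlinarith [sq_nonneg (g 1), sq_nonneg (g 2), mul_nonneg (sq_nonneg (g 1)) hw2.le, mul_nonneg (sq_nonneg (g 2)) (pow_pos hw 4).le]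
      simpa [hw.ne'] using this
    have h6 : g 2 = 0 := by
      have : (g 2) ^ 2 * w ^ 4 = 0 := by nlinarith [sq_nonneg (g 1), sq_nonneg (g 2), mul_nonneg (sq_nonneg (g 1)) hw2.le, mul_nonneg (sq_nonneg (g 2)) (pow_pos hw 4).le]
      simpa [hw.ne'] using this
    rw [h5, h6] at hg
    have h7 : g 0 = 0 := by
      have : g 0 • v = 0 := by simpa using hg
      exact (smul_eq_zero.1 this).resolve_right hv0
    intro i
    fin_cases i <;> assumption
  let B : Module.Basis (Fin 3) ℝ V := basisOfLinearIndependentOfCardEqFinrank hli (by simp)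
  have hB0 : B 0 = v := by simp [B]
  have hB1 : B 1 = e1 := by simp [B]
  have hB2 : B 2 = e2 := by simp [B]
  have hrep : ∀ z : V, z = B.coord 0 z • v + B.coord 1 z • e1 + B.coord 2 z • e2 := by
    intro z
    have := B.sum_repr z
    rw [Fin.sum_univ_three, hB0, hB1, hB2] at this
    simpa [Module.Basis.coord_apply] using this.symm
  have hk : ∀ a b g : ℝ, B.coord 0 (a • v + b • e1 + g • e2) = a := by
    intro a b g
    rw [← hB0, ← hB1, ← hB2]; simp [Module.Basis.coord_apply]
  have hb : ∀ a b g : ℝ, B.coord 1 (a • v + b • e1 + g • e2) = b := by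
    intro a b g
    rw [← hB0, ← hB1, ← hB2]; simp [Module.Basis.coord_apply]
  have hgm : ∀ a b g : ℝ, B.coord 2 (a • v + b • e1 + g • e2) = g := by
    intro a b g
    rw [← hB0, ← hB1, ← hB2]; simp [Module.Basis.coord_apply]
  set k : V →ₗ[ℝ] ℝ := B.coord 0 with hkdef
  set β : V →ₗ[ℝ] ℝ := B.coord 1 with hβdef
  set γ : V →ₗ[ℝ] ℝ := B.coord 2 with hγdef
  have hadd : ∀ x ∈ Q, ∀ y ∈ Q, x + y ∈ Q := by
    intro x hx y hy
    have h1 := hQ.convex hx hy (by norm_num : (0:ℝ) ≤ 1/2) (by norm_num : (0:ℝ) ≤ 1/2) (by norm_num)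
    have h2 := hQ.smul_mem 2 (by norm_num) _ h1
    convert h2 using 1
    module
  have hrot : ∀ z ∈ Q, ∀ θ : ℝ, k z • v + (β z * Real.cos θ - w * γ z * Real.sin θ) • e1
      + ((β z * Real.sin θ + w * γ z * Real.cos θ) / w) • e2 ∈ Q := by
    intro z hz θ
    exact rot_mem hQ hZ hw hZv hZe1 hZe2 _ _ _ (by rw [← hrep z]; exact hz) θ
  have hpi : ∀ z ∈ Q, k z • v - β z • e1 - γ z • e2 ∈ Q := by
    intro z hz
    have := hrot z hz Real.pi
    rw [Real.cos_pi, Real.sin_pi] at this
    convert this using 1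
    match_scalars <;> field_simp <;> ring
  have kpos : ∀ z ∈ Q, z ≠ 0 → 0 < k z := by
    intro z hz hz0
    have h1 := hpi z hz
    have h2 : (2 * k z) • v ∈ Q := by
      have := hadd _ hz _ h1
      convert this using 1
      conv_rhs => rw [hrep z, hk, hb, hgm]
      module
    by_contra hcon
    push Not at hcon
    rcases hcon.lt_or_eq with hlt | heq
    · have h3 := hQ.smul_mem (-(2 * k z))⁻¹ (by
        apply inv_nonneg.2; linarith) _ h2
      rw [smul_smul] at h3
      have h4 : (-(2 * k z))⁻¹ * (2 * k z) = -1 := by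
        have : k z ≠ 0 := hlt.ne
        field_simp
      rw [h4, neg_one_smul] at h3
      exact hv0 (hQ.salient _ hvQ h3)
    · rw [heq] at h1
      have h5 : (0:ℝ) • v - β z • e1 - γ z • e2 = -z := by
        conv_rhs => rw [hrep z, heq]
        module
      rw [h5] at h1
      exact hz0 (hQ.salient _ hz h1)
  have star : ∀ z ∈ Q, ∀ z' : V, 0 < k z → 0 < k z' →
      ((β z') ^ 2 + w ^ 2 * (γ z') ^ 2) * (k z) ^ 2 ≤ ((β z) ^ 2 + w ^ 2 * (γ z) ^ 2) * (k z') ^ 2 →
      z' ∈ Q := by
    intro z hz z' hk1 hk2 hN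
    set ζ : ℂ := ⟨β z, w * γ z⟩ with hζ
    set ζ' : ℂ := ⟨β z', w * γ z'⟩ with hζ'
    have n1 : ‖ζ‖ ^ 2 = (β z) ^ 2 + w ^ 2 * (γ z) ^ 2 := by
      rw [Complex.sq_norm, Complex.normSq_apply, hζ]; ring
    have n2 : ‖ζ'‖ ^ 2 = (β z') ^ 2 + w ^ 2 * (γ z') ^ 2 := by
      rw [Complex.sq_norm, Complex.normSq_apply, hζ']; ring
    rw [← n1, ← n2] at hN
    by_cases h0 : ζ = 0
    · rw [h0, norm_zero] at hN
      have h1 : ‖ζ'‖ ^ 2 = 0 := by
        have : 0 < k z ^ 2 := by positivity
        nlinarith [sq_nonneg ‖ζ'‖]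
      have h2 : ζ' = 0 := by simpa using h1
      have h3 : β z' = 0 := by
        have := congrArg Complex.re h2; simpa [hζ'] using this
      have h4 : γ z' = 0 := by
        have := congrArg Complex.im h2; simpa [hζ', hw.ne'] using this
      rw [hrep z', h3, h4, zero_smul, zero_smul, add_zero, add_zero]
      exact hQ.smul_mem _ hk2.le _ hvQ
    · have hnz : 0 < ‖ζ‖ := norm_pos_iff.2 h0
      set r := ‖ζ' / ζ‖ with hr
      set θ := (ζ' / ζ).arg with hθ
      have hr0 : 0 ≤ r := norm_nonneg _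
      have hmain : ζ' = (r * (Real.cos θ + Real.sin θ * Complex.I)) * ζ := by
        have := Complex.norm_mul_cos_add_sin_mul_I (ζ' / ζ)
        rw [← hr, ← hθ] at this
        rw [Complex.ofReal_cos, Complex.ofReal_sin, this, div_mul_cancel₀ _ h0]
      have hre : β z' = r * (β z * Real.cos θ - w * γ z * Real.sin θ) := by
        have := congrArg Complex.re hmain
        simp [hζ, hζ', -Complex.ofReal_cos, -Complex.ofReal_sin] at this
        rw [this]; ring
      have him : w * γ z' = r * (β z * Real.sin θ + w * γ z * Real.cos θ) := by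
        have := congrArg Complex.im hmain
        simp [hζ, hζ', -Complex.ofReal_cos, -Complex.ofReal_sin] at this
        rw [this]; ring
      have hle : r * k z ≤ k z' := by
        have h1 : ‖ζ'‖ * k z ≤ ‖ζ‖ * k z' := by
          apply le_of_sq_le_sq _ (by positivity)
          rw [mul_pow, mul_pow]; exact hN
        rw [hr, norm_div, div_mul_eq_mul_div, div_le_iff₀ hnz]
        linarith
      have hm := hrot z hz θ
      have hs := hadd _ (hQ.smul_mem r hr0 _ hm) _
        (hQ.smul_mem (k z' - r * k z) (by linarith) _ hvQ)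
      convert hs using 1
      conv_lhs => rw [hrep z', hre]
      have : γ z' = (r * (β z * Real.sin θ + w * γ z * Real.cos θ)) / w := by
        rw [← him]; field_simp
      rw [this]
      match_scalars <;> field_simp <;> ring
  have kc : Continuous k := LinearMap.continuous_of_finiteDimensional k
  have βc : Continuous β := LinearMap.continuous_of_finiteDimensional β
  have γc : Continuous γ := LinearMap.continuous_of_finiteDimensional γ
  have hfr : ∀ z ∈ frontier Q, z ∈ Q := fun z hz => hQ.closed.frontier_subset hz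
  have fr : ∀ z1 ∈ frontier Q, ∀ z2 ∈ Q, 0 < k z1 → 0 < k z2 →
      ¬ ((β z1) ^ 2 + w ^ 2 * (γ z1) ^ 2) * (k z2) ^ 2 <
        ((β z2) ^ 2 + w ^ 2 * (γ z2) ^ 2) * (k z1) ^ 2 := by
    intro z1 hz1 z2 hz2 hk1 hk2 hlt
    have hopen : IsOpen {z : V | 0 < k z ∧ ((β z) ^ 2 + w ^ 2 * (γ z) ^ 2) * (k z2) ^ 2 <
        ((β z2) ^ 2 + w ^ 2 * (γ z2) ^ 2) * (k z) ^ 2} := by
      apply IsOpen.and
      · exact isOpen_lt continuous_const kc
      · exact isOpen_lt (by fun_prop) (by fun_prop)
    have hsub : {z : V | 0 < k z ∧ ((β z) ^ 2 + w ^ 2 * (γ z) ^ 2) * (k z2) ^ 2 <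
        ((β z2) ^ 2 + w ^ 2 * (γ z2) ^ 2) * (k z) ^ 2} ⊆ Q := by
      rintro z ⟨h1, h2⟩
      exact star z2 hz2 z hk2 h1 h2.le
    have : z1 ∈ interior Q := mem_interior.2 ⟨_, hsub, hopen, ⟨hk1, hlt⟩⟩
    exact hz1.2 this
  by_cases hex : ∃ z0 ∈ frontier Q, z0 ≠ 0
  · obtain ⟨z0, hz0, hz00⟩ := hex
    have hk0 := kpos z0 (hfr z0 hz0) hz00
    refine ⟨(k z0) ^ 2 • (QuadraticMap.linMulLin β β + w ^ 2 • QuadraticMap.linMulLin γ γ)
      - ((β z0) ^ 2 + w ^ 2 * (γ z0) ^ 2) • QuadraticMap.linMulLin k k, ?_, ?_⟩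
    · intro hzero
      have := congrArg (fun q : QuadraticForm ℝ V => q e1) hzero
      have hk1 : k e1 = 0 := by
        have := hk 0 1 0; simpa using this
      have hb1 : β e1 = 1 := by
        have := hb 0 1 0; simpa using this
      have hg1 : γ e1 = 0 := by
        have := hgm 0 1 0; simpa using this
      simp [hk1, hb1, hg1] at this
      exact hk0.ne' this
    · intro z hz
      by_cases hz1 : z = 0
      · subst hz1; simp
      · have hkz := kpos z (hfr z hz) hz1
        have h1 := fr z hz z0 (hfr z0 hz0) hkz hk0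
        have h2 := fr z0 hz0 z (hfr z hz) hk0 hkz
        push Not at h1 h2
        simp only [QuadraticMap.sub_apply, QuadraticMap.smul_apply, QuadraticMap.add_apply,
          QuadraticMap.linMulLin_apply, smul_eq_mul]
        nlinarith
  · push Not at hex
    refine ⟨QuadraticMap.linMulLin k k, ?_, ?_⟩
    · intro hzero
      have := congrArg (fun q : QuadraticForm ℝ V => q v) hzero
      have hk1 : k v = 1 := by
        have := hk 1 0 0; simpa using this
      simp [hk1] at this
    · intro z hz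
      rw [hex z hz]; simp

end Pool.Agent.Helper438.Proj.SI
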