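import Pool.Agent.Helper438.Proj.Defs

namespace Pool.Agent.Helper438.Proj.SJ

open Set Filter Topology

lemma frontier_map {Q : Set V} (hQ : IsClosed Q) {f g : V → V} (hf : Continuous f)
    (hgf : ∀ y, g (f y) = y) (hgQ : ∀ x ∈ Q, g x ∈ Q) (hfQ : ∀ x ∈ Q, f x ∈ Q) {x : V}
    (hx : x ∈ frontier Q) : f x ∈ frontier Q := by
  rw [hQ.frontier_eq] at hx ⊢
  refine ⟨hfQ x hx.1, fun hfx => hx.2 ?_⟩
  rw [mem_interior]
  refine ⟨f ⁻¹' interior Q, fun y hy => ?_, isOpen_interior.preimage hf, hfx⟩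
  have := hgQ _ (interior_subset hy)
  rwa [hgf] at this

lemma exp_inv_apply (Y : EndV) (s : ℝ) (y : V) :
    (NormedSpace.exp ((-s) • Y)) ((NormedSpace.exp (s • Y)) y) = y := by
  letI : NormedAlgebra ℚ EndV := NormedAlgebra.restrictScalars ℚ ℝ EndV
  have h : NormedSpace.exp ((-s) • Y) * NormedSpace.exp (s • Y) = (1 : EndV) := by
    rw [← NormedSpace.exp_add_of_commute (((Commute.refl Y).smul_left (-s)).smul_right s),
      ← add_smul, neg_add_cancel, zero_smul, NormedSpace.exp_zero]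
  have := congrArg (fun A : EndV => A y) h
  simpa using this

lemma exp_frontier {Q : Set V} (hQ : IsPC Q) {Y : EndV} (hY : Y ∈ Lie Q) (s : ℝ) {x : V}
    (hx : x ∈ frontier Q) : (NormedSpace.exp (s • Y)) x ∈ frontier Q :=
  frontier_map hQ.closed (f := fun x => (NormedSpace.exp (s • Y)) x)
    (g := fun x => (NormedSpace.exp ((-s) • Y)) x) (NormedSpace.exp (s • Y)).continuous
    (exp_inv_apply Y s) (hY (-s)) (hY s) hx

lemma smul_frontier {Q : Set V} (hQ : IsPC Q) {c : ℝ} (hc : 0 < c) {x : V}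
    (hx : x ∈ frontier Q) : c • x ∈ frontier Q :=
  frontier_map hQ.closed (f := fun x => c • x) (g := fun x => c⁻¹ • x) (continuous_const_smul c)
    (fun y => by simp [smul_smul, inv_mul_cancel₀ hc.ne'])
    (hQ.smul_mem _ (inv_pos.2 hc).le) (hQ.smul_mem _ hc.le) hx

lemma exp_smul_deriv (Y : EndV) (l : ℝ × ℝ × ℝ →L[ℝ] ℝ) :
    HasStrictFDerivAt (fun p : ℝ × ℝ × ℝ => NormedSpace.exp (l p • Y))
      (l.smulRight Y : ℝ × ℝ × ℝ →L[ℝ] EndV) 0 := by
  have h1 : HasStrictFDerivAt (fun p : ℝ × ℝ × ℝ => l p • Y)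
      (l.smulRight Y : ℝ × ℝ × ℝ →L[ℝ] EndV) 0 :=
    (l.smulRight Y : ℝ × ℝ × ℝ →L[ℝ] EndV).hasStrictFDerivAt
  have h2 : HasStrictFDerivAt (NormedSpace.exp : EndV → EndV) (1 : EndV →L[ℝ] EndV)
      (l (0 : ℝ × ℝ × ℝ) • Y) := by
    rw [map_zero, zero_smul]
    exact hasStrictFDerivAt_exp_zero
  have := h2.comp (0 : ℝ × ℝ × ℝ) h1
  exact this

/-- TARGET J1. -/
theorem lie_dep {Q : Set V} (hQ : IsPC Q) {Y Z : EndV} (hY : Y ∈ Lie Q) (hZ : Z ∈ Lie Q)
    {q : V} (hq : q ∈ frontier Q) : ¬ LinearIndependent ℝ ![q, Y q, Z q] := by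
  intro hli
  let l1 : ℝ × ℝ × ℝ →L[ℝ] ℝ := ContinuousLinearMap.fst ℝ ℝ (ℝ × ℝ)
  let l2 : ℝ × ℝ × ℝ →L[ℝ] ℝ := (ContinuousLinearMap.fst ℝ ℝ ℝ).comp
    (ContinuousLinearMap.snd ℝ ℝ (ℝ × ℝ))
  let l3 : ℝ × ℝ × ℝ →L[ℝ] ℝ := (ContinuousLinearMap.snd ℝ ℝ ℝ).comp
    (ContinuousLinearMap.snd ℝ ℝ (ℝ × ℝ))
  let F : ℝ × ℝ × ℝ → V := fun p => Real.exp (l1 p) •
    (NormedSpace.exp (l2 p • Y)) ((NormedSpace.exp (l3 p • Z)) q)
  have hF0 : F 0 = q := by
    simp [F]
  have hFf : ∀ p, F p ∈ frontier Q := fun p =>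
    smul_frontier hQ (Real.exp_pos _) (exp_frontier hQ hY _ (exp_frontier hQ hZ _ hq))
  -- derivative
  have d3 : HasStrictFDerivAt (fun p : ℝ × ℝ × ℝ => (NormedSpace.exp (l3 p • Z)) q)
      ((l3.smulRight Z : ℝ × ℝ × ℝ →L[ℝ] EndV).flip q) 0 := by
    have := (exp_smul_deriv Z l3).clm_apply (hasStrictFDerivAt_const q (0 : ℝ × ℝ × ℝ))
    simpa using this
  have d2 := (exp_smul_deriv Y l2).clm_apply d3
  have d1 : HasStrictFDerivAt (fun p : ℝ × ℝ × ℝ => Real.exp (l1 p)) l1 0 := by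
    have h1 : HasStrictFDerivAt (fun p : ℝ × ℝ × ℝ => l1 p) l1 0 := l1.hasStrictFDerivAt
    have h2 := (Real.hasStrictDerivAt_exp (l1 0)).comp_hasStrictFDerivAt (0 : ℝ × ℝ × ℝ) h1
    have e : Real.exp (l1 0) • l1 = l1 := by rw [map_zero, Real.exp_zero, one_smul]
    rw [e] at h2
    exact h2
  have dF0 := d1.smul d2
  obtain ⟨F', hval, dF⟩ : ∃ F' : ℝ × ℝ × ℝ →L[ℝ] V,
      (∀ p : ℝ × ℝ × ℝ, F' p = p.1 • q + p.2.1 • Y q + p.2.2 • Z q) ∧
      HasStrictFDerivAt F F' 0 := by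
    refine ⟨_, fun p => ?_, dF0⟩
    simp [l1, l2, l3]
    abel
  have hsurj : F'.range = ⊤ := by
    rw [LinearMap.range_eq_top]
    intro v
    have hspan := hli.span_eq_top_of_card_eq_finrank' (by simp)
    have hv : v ∈ Submodule.span ℝ (Set.range ![q, Y q, Z q]) := by rw [hspan]; trivial
    rw [Submodule.mem_span_range_iff_exists_fun] at hv
    obtain ⟨c, hc⟩ := hv
    refine ⟨(c 0, c 1, c 2), ?_⟩
    rw [← hc, Fin.sum_univ_three]
    have := hval (c 0, c 1, c 2)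
    simpa using this
  have hmap := dF.map_nhds_eq_of_surj hsurj
  rw [hF0] at hmap
  have hmem : frontier Q ∈ 𝓝 q := by
    rw [← hmap]
    exact Filter.mem_map.2 (Filter.univ_mem' hFf)
  have hint : q ∈ interior (frontier Q) := mem_interior_iff_mem_nhds.2 hmem
  rw [interior_frontier hQ.closed] at hint
  exact hint

/-- the line `u + s v` meets the boundary -/
lemma exists_frontier {Q : Set V} (hQ : IsPC Q) {v : V} (hv : v ∈ interior Q) (hv0 : v ≠ 0)
    (u : V) : ∃ s : ℝ, u + s • v ∈ frontier Q := by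
  have hcont : Continuous fun s : ℝ => u + s • v := by fun_prop
  set T : Set ℝ := (fun s : ℝ => u + s • v) ⁻¹' Q with hT
  have hne : T.Nonempty := by
    have hc : Continuous fun ε : ℝ => v + ε • u := by fun_prop
    have ht := hc.tendsto 0
    simp only [zero_smul, add_zero] at ht
    have he : ∀ᶠ ε : ℝ in 𝓝 0, v + ε • u ∈ interior Q := ht (isOpen_interior.mem_nhds hv)
    obtain ⟨ε, h1, h2⟩ := ((he.filter_mono (nhdsWithin_le_nhds (s := Set.Ioi 0))).and
      self_mem_nhdsWithin).exists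
    have h2' : (0 : ℝ) < ε := h2
    refine ⟨ε⁻¹, ?_⟩
    have h3 := hQ.smul_mem ε⁻¹ (inv_pos.2 h2').le _ (interior_subset h1)
    rw [smul_add, smul_smul, inv_mul_cancel₀ h2'.ne', one_smul, add_comm] at h3
    exact h3
  have hnu : T ≠ univ := by
    have hneg : -v ∉ Q := fun h => hv0 (hQ.salient v (interior_subset hv) h)
    have hc : Continuous fun ε : ℝ => -v + ε • u := by fun_prop
    have ht := hc.tendsto 0
    simp only [zero_smul, add_zero] at ht
    have he : ∀ᶠ ε : ℝ in 𝓝 0, -v + ε • u ∈ Qᶜ := ht (hQ.closed.isOpen_compl.mem_nhds hneg)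
    obtain ⟨ε, h1, h2⟩ := ((he.filter_mono (nhdsWithin_le_nhds (s := Set.Ioi 0))).and
      self_mem_nhdsWithin).exists
    have h2' : (0 : ℝ) < ε := h2
    intro hu
    have h3 : (-ε⁻¹) ∈ T := by rw [hu]; trivial
    have h4 := hQ.smul_mem ε h2'.le _ h3
    apply h1
    have e : ε • (u + (-ε⁻¹) • v) = -v + ε • u := by
      rw [smul_add, smul_smul, mul_neg, mul_inv_cancel₀ h2'.ne', neg_smul, one_smul, add_comm]
    have h5 : ε • (u + (-ε⁻¹) • v) ∈ Q := h4
    rwa [e] at h5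
  obtain ⟨s, hs⟩ := nonempty_frontier_iff.2 ⟨hne, hnu⟩
  exact ⟨s, hcont.frontier_preimage_subset Q hs⟩

/-- TARGET J2. -/
theorem exists_moved {Q : Set V} (hQ : IsPC Q) {Y : EndV} (hns : ∀ c : ℝ, Y ≠ c • (1 : EndV)) :
    ∃ q ∈ frontier Q, q ≠ 0 ∧ ∀ c : ℝ, Y q ≠ c • q := by
  by_contra hcon
  push Not at hcon
  obtain ⟨v, hv⟩ := hQ.int_nonempty
  have hv0 : v ≠ 0 := by
    intro h0
    rw [h0] at hv
    -- small multiples of e and -e
    set e : V := fun _ => 1 with he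
    have hc : Continuous fun ε : ℝ => ε • e := by fun_prop
    have hc' : Continuous fun ε : ℝ => -(ε • e) := by fun_prop
    have ht := hc.tendsto 0
    have ht' := hc'.tendsto 0
    simp only [zero_smul, neg_zero] at ht ht'
    have h1 : ∀ᶠ ε : ℝ in 𝓝 0, ε • e ∈ interior Q := ht (isOpen_interior.mem_nhds hv)
    have h2 : ∀ᶠ ε : ℝ in 𝓝 0, -(ε • e) ∈ interior Q := ht' (isOpen_interior.mem_nhds hv)
    obtain ⟨ε, ⟨h3, h4⟩, h5⟩ := (((h1.and h2).filter_mono
      (nhdsWithin_le_nhds (s := Set.Ioi 0))).and self_mem_nhdsWithin).exists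
    have h5' : (0 : ℝ) < ε := h5
    have h6 := hQ.salient _ (interior_subset h3) (interior_subset h4)
    have h7 := congrFun h6 0
    simp [he] at h7
    exact h5'.ne' h7
  -- key fact for `u` not in the line
  have key : ∀ u : V, (∀ c : ℝ, u ≠ c • v) → ∃ c1 c2 σ a : ℝ, σ ≠ 0 ∧
      σ • Y v = (c1 - c2) • u + a • v ∧ (c1 = c2 → a = c1 * σ) ∧
      ∃ s1 : ℝ, Y u = c1 • (u + s1 • v) - s1 • Y v := by
    intro u hu
    obtain ⟨s1, h1⟩ := exists_frontier hQ hv hv0 u
    obtain ⟨s2, h2⟩ := exists_frontier hQ hv hv0 (-u)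
    have n1 : u + s1 • v ≠ 0 := by
      intro h
      exact hu (-s1) (by rw [neg_smul]; exact eq_neg_of_add_eq_zero_left h)
    have n2 : -u + s2 • v ≠ 0 := by
      intro h
      exact hu s2 (by rw [neg_add_eq_zero] at h; exact h)
    obtain ⟨c1, e1⟩ := hcon _ h1 n1
    obtain ⟨c2, e2⟩ := hcon _ h2 n2
    have q1Q : u + s1 • v ∈ Q := hQ.closed.frontier_subset h1
    have q2Q : -u + s2 • v ∈ Q := hQ.closed.frontier_subset h2
    refine ⟨c1, c2, s1 + s2, c1 * s1 + c2 * s2, ?_, ?_, ?_, s1, ?_⟩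
    · intro h0
      apply n1
      refine hQ.salient _ q1Q ?_
      have : -(u + s1 • v) = -u + s2 • v := by
        have hs : s2 = -s1 := by linarith
        rw [hs, neg_smul, neg_add]
      rwa [this]
    · have hsum : (s1 + s2) • v = (u + s1 • v) + (-u + s2 • v) := by
        rw [add_smul]; abel
      rw [← map_smul, hsum, map_add, e1, e2]
      module
    · intro h
      rw [h]; ring
    · have : Y u = Y (u + s1 • v) - s1 • Y v := by
        rw [map_add, map_smul, add_sub_cancel_right]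
      rw [this, e1]
  -- `Y v` is a multiple of `v`
  have hYv : ∃ mu : ℝ, Y v = mu • v := by
    by_contra hno
    push Not at hno
    have hne : Submodule.span ℝ ({v, Y v} : Set V) ≠ ⊤ := by
      intro htop
      have h1 : Module.finrank ℝ (Submodule.span ℝ ({v, Y v} : Set V)) ≤ 2 := by
        have h2 := finrank_span_finset_le_card (R := ℝ) ({v, Y v} : Finset V)
        rw [Finset.coe_pair] at h2
        refine h2.trans ?_
        exact Finset.card_le_two
      rw [htop, finrank_top] at h1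
      simp at h1
    obtain ⟨u, hu⟩ : ∃ u, u ∉ Submodule.span ℝ ({v, Y v} : Set V) := by
      by_contra hall
      push Not at hall
      exact hne (eq_top_iff.2 fun x _ => hall x)
    have hvs : v ∈ Submodule.span ℝ ({v, Y v} : Set V) := Submodule.subset_span (by simp)
    have hYvs : Y v ∈ Submodule.span ℝ ({v, Y v} : Set V) := Submodule.subset_span (by simp)
    obtain ⟨c1, c2, σ, a, hσ, h1, -, -⟩ := key u (fun c hc => hu (by
      rw [hc]; exact Submodule.smul_mem _ _ hvs))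
    by_cases hcc : c1 - c2 = 0
    · rw [hcc, zero_smul, zero_add] at h1
      refine hno (σ⁻¹ * a) ?_
      rw [mul_smul, ← h1, smul_smul, inv_mul_cancel₀ hσ, one_smul]
    · apply hu
      have e : u = (c1 - c2)⁻¹ • (σ • Y v - a • v) := by
        rw [h1, add_sub_cancel_right, smul_smul, inv_mul_cancel₀ hcc, one_smul]
      rw [e]
      exact Submodule.smul_mem _ _ (Submodule.sub_mem _ (Submodule.smul_mem _ _ hYvs)
        (Submodule.smul_mem _ _ hvs))
  obtain ⟨mu, hmu⟩ := hYv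
  refine hns mu ?_
  ext1 u
  show Y u = mu • u
  by_cases hu : ∀ c : ℝ, u ≠ c • v
  · obtain ⟨c1, c2, σ, a, hσ, h1, h2, s1, h3⟩ := key u hu
    have hcc : c1 - c2 = 0 := by
      by_contra hcc
      refine hu ((c1 - c2)⁻¹ * (σ * mu - a)) ?_
      have e : (c1 - c2) • u = (σ * mu - a) • v := by
        rw [hmu, smul_smul] at h1
        rw [sub_smul (σ * mu), h1, add_sub_cancel_right]
      rw [mul_smul, ← e, smul_smul, inv_mul_cancel₀ hcc, one_smul]
    have ha : a = c1 * σ := h2 (sub_eq_zero.1 hcc)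
    rw [hcc, zero_smul, zero_add, hmu, smul_smul, ha] at h1
    have hm : σ * mu = c1 * σ := by
      by_contra hne
      have h5 : (σ * mu - c1 * σ) • v = 0 := by rw [sub_smul, h1, sub_self]
      rcases smul_eq_zero.1 h5 with h6 | h6
      · exact hne (sub_eq_zero.1 h6)
      · exact hv0 h6
    have hm2 : mu = c1 := by
      have : σ * mu = σ * c1 := by rw [hm]; ring
      exact mul_left_cancel₀ hσ this
    rw [h3, hmu, ← hm2]
    module
  · push Not at hu
    obtain ⟨c, rfl⟩ := hu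
    rw [map_smul, hmu, smul_comm]

end Pool.Agent.Helper438.Proj.SJ
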