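import Pool.Agent.Helper438.Proj.Defs

namespace Pool.Agent.Helper438.Proj.SK

open Set Filter Topology

theorem fc_add_mem {Q : Set V} (hQ : IsPC Q) {x y : V} (hx : x ∈ Q) (hy : y ∈ Q) : x + y ∈ Q := by
  have h := hQ.convex hx hy (show (0:ℝ) ≤ 1/2 by norm_num) (show (0:ℝ) ≤ 1/2 by norm_num)
    (by norm_num)
  have h2 := hQ.smul_mem 2 (by norm_num) _ h
  have h3 : (2:ℝ) • ((1/2:ℝ) • x + (1/2:ℝ) • y) = x + y := by module
  rwa [h3] at h2

theorem fc_recession {Q : Set V} (hQ : IsPC Q) {x w : V}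
    (h : ∀ T : ℝ, 0 < T → x + T • w ∈ Q) : w ∈ Q := by
  have h1 : ∀ n : ℕ, ((1:ℝ)/((n:ℝ)+1)) • x + w ∈ Q := by
    intro n
    have hn : (0:ℝ) < (n:ℝ) + 1 := by positivity
    have h2 := hQ.smul_mem (1/((n:ℝ)+1)) (by positivity) _ (h ((n:ℝ)+1) hn)
    have h3 : (1/((n:ℝ)+1)) • (x + ((n:ℝ)+1) • w) = ((1:ℝ)/((n:ℝ)+1)) • x + w := by
      rw [smul_add, smul_smul, one_div_mul_cancel hn.ne', one_smul]
    rwa [h3] at h2
  have h2 : Tendsto (fun n : ℕ => ((1:ℝ)/((n:ℝ)+1)) • x + w) atTop (𝓝 w) := by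
    have h4 := tendsto_one_div_add_atTop_nhds_zero_nat (𝕜 := ℝ)
    simpa using (h4.smul_const x).add_const w
  exact hQ.closed.mem_of_tendsto h2 (Eventually.of_forall h1)

theorem fc_exp_mul_neg (A : EndV) (t : ℝ) (x : V) :
    (NormedSpace.exp (t • A)) ((NormedSpace.exp ((-t) • A)) x) = x := by
  let _ : NormedAlgebra ℚ EndV := NormedAlgebra.restrictScalars ℚ ℝ EndV
  have hc : Commute (t • A) ((-t) • A) :=
    ((Commute.refl A).smul_left t).smul_right (-t)
  have h : NormedSpace.exp (t • A) * NormedSpace.exp ((-t) • A) = (1 : EndV) := by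
    rw [← NormedSpace.exp_add_of_commute hc]
    have h0 : t • A + (-t) • A = 0 := by module
    rw [h0, NormedSpace.exp_zero]
  calc (NormedSpace.exp (t • A)) ((NormedSpace.exp ((-t) • A)) x)
      = (NormedSpace.exp (t • A) * NormedSpace.exp ((-t) • A)) x := rfl
    _ = x := by rw [h]; rfl

theorem fc_exp_flow (A : EndV) (f : ℝ → V) (hf : ∀ t, HasDerivAt f (A (f t)) t) (t : ℝ) :
    (NormedSpace.exp (t • A)) (f 0) = f t := by
  have h1 : ∀ s, HasDerivAt (fun s : ℝ => (NormedSpace.exp ((-s) • A)) (f s)) 0 s := by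
    intro s
    have h2 : HasDerivAt (fun u : ℝ => NormedSpace.exp (u • A))
        (NormedSpace.exp ((-s) • A) * A) (-s) := hasDerivAt_exp_smul_const A (-s)
    have h3 : HasDerivAt (fun u : ℝ => NormedSpace.exp ((-u) • A))
        ((-1 : ℝ) • (NormedSpace.exp ((-s) • A) * A)) s :=
      HasDerivAt.scomp s h2 (hasDerivAt_neg s)
    have h4 := h3.clm_apply (hf s)
    have h5 : ((-1 : ℝ) • (NormedSpace.exp ((-s) • A) * A)) (f s) +
        (NormedSpace.exp ((-s) • A)) (A (f s)) = 0 := by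
      simp
    rw [h5] at h4
    exact h4
  have h6 := is_const_of_deriv_eq_zero (fun s => (h1 s).differentiableAt)
    (fun s => (h1 s).deriv) t 0
  simp only [neg_zero, zero_smul, NormedSpace.exp_zero] at h6
  have h7 : (1 : EndV) (f 0) = f 0 := rfl
  rw [h7] at h6
  rw [← h6, fc_exp_mul_neg]


/-- the flow as a homeomorphism -/
noncomputable def fcHomeo (A : EndV) (t : ℝ) : V ≃ₜ V where
  toFun := fun x => (NormedSpace.exp (t • A) : EndV) x
  invFun := fun x => (NormedSpace.exp ((-t) • A) : EndV) x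
  left_inv x := by
    have h := fc_exp_mul_neg A (-t) x
    rwa [neg_neg] at h
  right_inv x := fc_exp_mul_neg A t x
  continuous_toFun := ContinuousLinearMap.continuous _
  continuous_invFun := ContinuousLinearMap.continuous _

theorem fc_frontier {Q : Set V} {Y : EndV} (hY : Y ∈ Lie Q) (t : ℝ) {q : V}
    (hq : q ∈ frontier Q) : (NormedSpace.exp (t • Y)) q ∈ frontier Q := by
  have h1 : (fcHomeo Y t) ⁻¹' Q = Q := by
    ext z
    constructor
    · intro hz
      have h2 := hY (-t) _ hz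
      have h3 := fc_exp_mul_neg Y (-t) z
      rw [neg_neg] at h3
      have h4 : (NormedSpace.exp ((-t) • Y)) ((fcHomeo Y t) z) = z := h3
      rwa [h4] at h2
    · intro hz
      exact hY t z hz
  have h2 : (fcHomeo Y t) ⁻¹' (frontier Q) = frontier Q := by
    rw [Homeomorph.preimage_frontier, h1]
  rw [← h2] at hq
  exact hq

theorem fc_deriv (A : EndV) (q : V) :
    HasDerivAt (fun s : ℝ => (NormedSpace.exp (s • A)) q) (A q) 0 := by
  have h2 : HasDerivAt (fun u : ℝ => NormedSpace.exp (u • A))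
        (NormedSpace.exp ((0:ℝ) • A) * A) 0 := hasDerivAt_exp_smul_const A 0
  have h3 := h2.clm_apply (hasDerivAt_const (0:ℝ) q)
  have h5 : (NormedSpace.exp ((0:ℝ) • A) * A) q + (NormedSpace.exp ((0:ℝ) • A)) 0 = A q := by
    simp
  rw [h5] at h3
  exact h3

theorem fc_inv (A : EndV) (P : Submodule ℝ V) (hP : ∀ p ∈ P, A p ∈ P) (t : ℝ) {p : V}
    (hp : p ∈ P) : (NormedSpace.exp (t • A)) p ∈ P := by
  have h1 : HasSum (fun n : ℕ => ((n.factorial : ℝ)⁻¹) • (t • A) ^ n) (NormedSpace.exp (t • A)) :=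
    NormedSpace.exp_series_hasSum_exp' (t • A)
  have h2 := h1.mapL (ContinuousLinearMap.apply ℝ V p)
  have h3 : ∀ n : ℕ, ((t • A) ^ n) p ∈ P := by
    intro n
    induction n with
    | zero => simpa using hp
    | succ n ih =>
      rw [pow_succ']
      have h4 : ((t • A) * (t • A) ^ n) p = t • A (((t • A) ^ n) p) := rfl
      rw [h4]
      exact P.smul_mem _ (hP _ ih)
  have h4 : IsClosed (P : Set V) := Submodule.closed_of_finiteDimensional P
  refine h4.mem_of_tendsto h2 (Eventually.of_forall fun s => ?_)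
  refine P.sum_mem fun n _ => ?_
  have h5 : (ContinuousLinearMap.apply ℝ V p) (((n.factorial : ℝ)⁻¹) • (t • A) ^ n) =
      ((n.factorial : ℝ)⁻¹) • (((t • A) ^ n) p) := rfl
  rw [h5]
  exact P.smul_mem _ (h3 n)


theorem fc_dual {q w : V} (hli : LinearIndependent ℝ ![q, w]) :
    ∃ f g : V →L[ℝ] ℝ, f q = 1 ∧ f w = 0 ∧ g q = 0 ∧ g w = 1 := by
  have h1 : LinearMap.ker (Fintype.linearCombination ℝ ![q, w]) = ⊥ :=
    LinearMap.ker_eq_bot.2 (linearIndependent_iff_injective_fintypeLinearCombination.1 hli)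
  obtain ⟨G, hG⟩ := LinearMap.exists_leftInverse_of_injective _ h1
  have hq : G q = Pi.single 0 1 := by
    have := LinearMap.congr_fun hG (Pi.single 0 1)
    simpa [Fintype.linearCombination_apply] using this
  have hw : G w = Pi.single 1 1 := by
    have := LinearMap.congr_fun hG (Pi.single 1 1)
    simpa [Fintype.linearCombination_apply] using this
  refine ⟨LinearMap.toContinuousLinearMap (LinearMap.proj 0 ∘ₗ G),
    LinearMap.toContinuousLinearMap (LinearMap.proj 1 ∘ₗ G), ?_⟩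
  simp [hq, hw]

theorem fc_coord {q w : V} {f g : V →L[ℝ] ℝ} (h1 : f q = 1) (h2 : f w = 0) (h3 : g q = 0)
    (h4 : g w = 1) {v : V} (hv : v ∈ Submodule.span ℝ {q, w}) : v = f v • q + g v • w := by
  obtain ⟨a, b, rfl⟩ := Submodule.mem_span_pair.1 hv
  simp [h1, h2, h3, h4]

theorem fc_small {Y : EndV} {q : V} (hli : LinearIndependent ℝ ![q, Y q])
    (hinv : Y (Y q) ∈ Submodule.span ℝ {q, Y q}) (K : ℝ) (σ : ℝ) (hσ : σ * σ = 1) :
    ∃ a c t : ℝ, 0 < c ∧ K * c < a ∧
      (NormedSpace.exp (t • Y)) q = a • q + (σ * c) • Y q := by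
  obtain ⟨f, g, h1, h2, h3, h4⟩ := fc_dual hli
  set P := Submodule.span ℝ {q, Y q} with hP
  have hqP : q ∈ P := Submodule.subset_span (by simp)
  have hwP : Y q ∈ P := Submodule.subset_span (by simp)
  have hPY : ∀ p ∈ P, Y p ∈ P := by
    intro p hp
    obtain ⟨a, b, rfl⟩ := Submodule.mem_span_pair.1 hp
    simp only [map_add, map_smul]
    exact P.add_mem (P.smul_mem _ hwP) (P.smul_mem _ hinv)
  have hd := fc_deriv Y q
  have hs : HasDerivAt (fun s : ℝ => σ * s) σ 0 := by
    simpa using (hasDerivAt_id (0:ℝ)).const_mul σ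
  have hd2 : HasDerivAt (fun s : ℝ => (NormedSpace.exp ((σ * s) • Y)) q) (σ • Y q) 0 := by
    have hd' : HasDerivAt (fun s : ℝ => (NormedSpace.exp (s • Y)) q) (Y q) (σ * 0) := by
      rw [mul_zero]; exact hd
    exact HasDerivAt.scomp (0:ℝ) hd' hs
  have hx : HasDerivAt (fun s : ℝ => f ((NormedSpace.exp ((σ * s) • Y)) q)) 0 0 := by
    have := (f.hasFDerivAt).comp_hasDerivAt (0:ℝ) hd2
    simp only [map_smul, h2, smul_zero] at this
    exact this
  have hy : HasDerivAt (fun s : ℝ => σ * g ((NormedSpace.exp ((σ * s) • Y)) q)) 1 0 := by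
    have := ((g.hasFDerivAt).comp_hasDerivAt (0:ℝ) hd2).const_mul σ
    simpa [h4, hσ] using this
  have e0 : (NormedSpace.exp ((σ * 0) • Y)) q = q := by
    simp
  have e1 : ∀ᶠ s in 𝓝[>] (0:ℝ), 0 < σ * g ((NormedSpace.exp ((σ * s) • Y)) q) := by
    have h5 := hasDerivAt_iff_tendsto_slope_zero.1 hy
    have h6 : ∀ᶠ s in 𝓝[≠] (0:ℝ), 0 < s⁻¹ • ((σ * g ((NormedSpace.exp ((σ * (0 + s)) • Y)) q)) -
        (σ * g ((NormedSpace.exp ((σ * 0) • Y)) q))) :=
      h5.eventually (lt_mem_nhds one_pos)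
    have h7 : 𝓝[>] (0:ℝ) ≤ 𝓝[≠] (0:ℝ) := nhdsWithin_mono _ (fun s hs => ne_of_gt hs)
    filter_upwards [h7 h6, self_mem_nhdsWithin] with s hs hs0
    rw [e0, h3, mul_zero, sub_zero, zero_add, smul_eq_mul] at hs
    have hs0' : 0 < s⁻¹ := inv_pos.2 hs0
    exact (mul_pos_iff_of_pos_left hs0').1 hs
  have e2 : ∀ᶠ s in 𝓝[>] (0:ℝ), K * (σ * g ((NormedSpace.exp ((σ * s) • Y)) q)) <
      f ((NormedSpace.exp ((σ * s) • Y)) q) := by
    have h5 : ContinuousAt (fun s : ℝ => f ((NormedSpace.exp ((σ * s) • Y)) q) -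
        K * (σ * g ((NormedSpace.exp ((σ * s) • Y)) q))) 0 :=
      hx.continuousAt.sub (hy.continuousAt.const_mul K)
    have h6 : Tendsto (fun s : ℝ => f ((NormedSpace.exp ((σ * s) • Y)) q) -
        K * (σ * g ((NormedSpace.exp ((σ * s) • Y)) q))) (𝓝 0) (𝓝 1) := by
      have h7 := h5.tendsto
      rw [e0, h1, h3] at h7
      simpa using h7
    have h8 := (h6.mono_left nhdsWithin_le_nhds : Tendsto _ (𝓝[>] (0:ℝ)) _).eventually
      (lt_mem_nhds one_pos)
    filter_upwards [h8] with s hs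
    linarith
  obtain ⟨s, hs1, hs2⟩ := (e1.and e2).exists
  refine ⟨_, _, σ * s, hs1, hs2, ?_⟩
  have h9 := fc_coord h1 h2 h3 h4 (fc_inv Y P hPY (σ * s) hqP)
  rw [← mul_assoc, hσ, one_mul]
  exact h9


theorem fc_add_int {Q : Set V} (hQ : IsPC Q) {x y : V} (hx : x ∈ Q) (hy : y ∈ interior Q) :
    x + y ∈ interior Q := by
  have h1 : IsOpen ((fun z => x + z) '' interior Q) :=
    (Homeomorph.addLeft x).isOpenMap _ isOpen_interior
  have h2 : (fun z => x + z) '' interior Q ⊆ Q := by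
    rintro _ ⟨z, hz, rfl⟩
    exact fc_add_mem hQ hx (interior_subset hz)
  exact interior_maximal h2 h1 ⟨y, hy, rfl⟩

theorem fc_smul_int {Q : Set V} (hQ : IsPC Q) {c : ℝ} (hc : 0 < c) {y : V}
    (hy : y ∈ interior Q) : c • y ∈ interior Q := by
  have h1 : IsOpen ((fun z => c • z) '' interior Q) :=
    (isOpenMap_smul₀ hc.ne') _ isOpen_interior
  have h2 : (fun z => c • z) '' interior Q ⊆ Q := by
    rintro _ ⟨z, hz, rfl⟩
    exact hQ.smul_mem c hc.le _ (interior_subset hz)
  exact interior_maximal h2 h1 ⟨y, hy, rfl⟩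

/-- sign decomposition -/
theorem fc_sign (β : ℝ) : ∃ σ : ℝ, σ * σ = 1 ∧ β = σ * |β| := by
  rcases le_or_gt 0 β with h | h
  · exact ⟨1, by norm_num, by rw [abs_of_nonneg h]; ring⟩
  · exact ⟨-1, by norm_num, by rw [abs_of_neg h]; ring⟩

theorem fc_b {Q : Set V} (hQ : IsPC Q) {q w : V} (hq : q ∈ frontier Q)
    (hE : ∀ σ : ℝ, σ * σ = 1 → ∀ K : ℝ, ∃ a c : ℝ, 0 < c ∧ K * c < a ∧
      a • q + (σ * c) • w ∈ frontier Q)
    {y : V} (hy : y ∈ Submodule.span ℝ {q, w}) : y ∉ interior Q := by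
  intro hyi
  have hqQ : q ∈ Q := hQ.closed.frontier_subset hq
  have hfi : ∀ z, z ∈ frontier Q → z ∉ interior Q := fun z hz hz' => by
    rw [frontier] at hz
    exact hz.2 hz'
  obtain ⟨x0, c0, rfl⟩ := Submodule.mem_span_pair.1 hy
  by_cases hc0 : c0 = 0
  · subst hc0
    rw [zero_smul, add_zero] at hyi
    have h1 : (|x0| + 1) • q + x0 • q ∈ interior Q :=
      fc_add_int hQ (hQ.smul_mem _ (by positivity) _ hqQ) hyi
    have h2 : 0 < |x0| + 1 + x0 := by
      have := neg_abs_le x0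
      linarith
    have h3 := fc_smul_int hQ (inv_pos.2 h2) h1
    rw [← add_smul, smul_smul, inv_mul_cancel₀ h2.ne', one_smul] at h3
    exact hfi q hq h3
  · obtain ⟨σ, hσ, hc⟩ := fc_sign c0
    have hpos : 0 < |c0| := abs_pos.2 hc0
    obtain ⟨a, c, hcpos, hK, hz⟩ := hE σ hσ (x0 / |c0|)
    refine hfi _ hz ?_
    have h1 : (a - x0 / |c0| * c) • q ∈ Q := hQ.smul_mem _ (by linarith) _ hqQ
    have h2 : (c / |c0|) • (x0 • q + c0 • w) ∈ interior Q := fc_smul_int hQ (by positivity) hyi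
    have h3 := fc_add_int hQ h1 h2
    have h4 : (a - x0 / |c0| * c) • q + (c / |c0|) • (x0 • q + c0 • w) =
        a • q + (σ * c) • w := by
      have h5 : c / |c0| * c0 = σ * c := by
        have h6 : c / |c0| * c0 = c / |c0| * (σ * |c0|) := by rw [← hc]
        rw [h6]
        field_simp
      have h7 : c / |c0| * x0 = x0 / |c0| * c := by ring
      rw [smul_add, smul_smul, smul_smul, h5, h7]
      module
    rwa [h4] at h3

theorem fc_c {Q : Set V} (hQ : IsPC Q) {q w : V} (hqQ : q ∈ Q)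
    (hE : ∀ σ : ℝ, σ * σ = 1 → ∀ K : ℝ, ∃ a c : ℝ, 0 < c ∧ K * c < a ∧
      a • q + (σ * c) • w ∈ frontier Q)
    {v : V} (hv : v ∈ Submodule.span ℝ {q, w}) : ∃ ε : ℝ, 0 < ε ∧ q + ε • v ∈ Q := by
  obtain ⟨α, β, rfl⟩ := Submodule.mem_span_pair.1 hv
  obtain ⟨σ, hσ, hβ⟩ := fc_sign β
  obtain ⟨a, c, hcpos, hK, hz⟩ := hE σ hσ 0
  rw [zero_mul] at hK
  have hzQ := hQ.closed.frontier_subset hz
  set D : ℝ := 1 + |α| + |β| * a / c with hD
  have hDpos : 0 < D := by positivity
  refine ⟨1 / D, by positivity, ?_⟩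
  have h0 : 0 ≤ 1 + 1 / D * α - 1 / D * |β| * a / c := by
    have h1 : 1 + 1 / D * α - 1 / D * |β| * a / c = (D + α - |β| * a / c) / D := by
      field_simp
    rw [h1]
    apply div_nonneg _ hDpos.le
    have h2 := neg_abs_le α
    rw [hD]
    linarith
  have h1 : (1 + 1 / D * α - 1 / D * |β| * a / c) • q ∈ Q := hQ.smul_mem _ h0 _ hqQ
  have h2 : (1 / D * |β| / c) • (a • q + (σ * c) • w) ∈ Q := hQ.smul_mem _ (by positivity) _ hzQ
  have h3 := fc_add_mem hQ h1 h2
  have h4 : (1 + 1 / D * α - 1 / D * |β| * a / c) • q +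
      (1 / D * |β| / c) • (a • q + (σ * c) • w) = q + (1 / D) • (α • q + β • w) := by
    have h5 : 1 / D * |β| / c * (σ * c) = 1 / D * β := by
      have h6 : 1 / D * β = 1 / D * (σ * |β|) := by rw [← hβ]
      rw [h6]
      field_simp
    rw [smul_add, smul_smul, smul_smul, h5]
    module
  rwa [h4] at h3

theorem fc_dep3 {x y z : V} (h1 : LinearIndependent ℝ ![x, y])
    (h2 : ¬ LinearIndependent ℝ ![x, y, z]) : z ∈ Submodule.span ℝ {x, y} := by
  by_contra hz
  apply h2
  rw [Fintype.linearIndependent_iff]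
  intro g hg
  simp only [Fin.sum_univ_three, Matrix.cons_val_zero, Matrix.cons_val_one,
    Matrix.cons_val] at hg
  have h3 : g 2 = 0 := by
    by_contra h3
    apply hz
    rw [Submodule.mem_span_pair]
    refine ⟨-(g 2)⁻¹ * g 0, -(g 2)⁻¹ * g 1, ?_⟩
    have h4 : g 2 • z = -(g 0 • x) - g 1 • y := by
      rw [← sub_eq_zero]
      rw [← hg]
      abel
    have h5 : z = (g 2)⁻¹ • (g 2 • z) := by
      rw [smul_smul, inv_mul_cancel₀ h3, one_smul]
    rw [h5, h4]
    module
  rw [h3, zero_smul, add_zero] at hg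
  rw [LinearIndependent.pair_iff] at h1
  obtain ⟨h4, h5⟩ := h1 _ _ hg
  intro i
  fin_cases i
  · exact h4
  · exact h5
  · exact h3

theorem fc_indep3 {x y z : V} (h1 : LinearIndependent ℝ ![x, y])
    (h2 : z ∉ Submodule.span ℝ {x, y}) : LinearIndependent ℝ ![x, y, z] := by
  by_contra h
  exact h2 (fc_dep3 h1 h)

theorem fc_shift {Q : Set V} (hQ : IsPC Q) {Z : EndV} (hZ : Z ∈ Lie Q) (c0 : ℝ) :
    Z - c0 • (1 : EndV) ∈ Lie Q := by
  intro t x hx
  let _ : NormedAlgebra ℚ EndV := NormedAlgebra.restrictScalars ℚ ℝ EndV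
  have hc : Commute (t • Z) ((-t * c0) • (1 : EndV)) :=
    ((Commute.one_right Z).smul_left t).smul_right _
  have h1 : t • (Z - c0 • (1 : EndV)) = t • Z + (-t * c0) • (1 : EndV) := by module
  rw [h1, NormedSpace.exp_add_of_commute hc]
  have h2 := fc_exp_flow (1 : EndV) (fun s => Real.exp s • x)
    (fun s => by
      have := (Real.hasDerivAt_exp s).smul_const x
      simpa using this) (-t * c0)
  simp only [Real.exp_zero, one_smul] at h2
  have h3 : (NormedSpace.exp (t • Z) * NormedSpace.exp ((-t * c0) • (1 : EndV))) x =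
      Real.exp (-t * c0) • (NormedSpace.exp (t • Z)) x := by
    have h4 : (NormedSpace.exp (t • Z) * NormedSpace.exp ((-t * c0) • (1 : EndV))) x =
      (NormedSpace.exp (t • Z)) ((NormedSpace.exp ((-t * c0) • (1 : EndV))) x) := rfl
    rw [h4, h2, map_smul]
  rw [h3]
  exact hQ.smul_mem _ (Real.exp_pos _).le _ (hZ t x hx)


/-- linear dynamics: an eigenvector direction -/
theorem fc_eig {Q : Set V} {Z : EndV} (hZ : Z ∈ Lie Q) {q v : V} {m : ℝ}
    (hm : m ≠ 0) (hq : Z q = 0) (hv : Z v = m • v) (h : q + v ∈ Q) (T : ℝ) (hT : 0 < T) :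
    q + T • v ∈ Q := by
  have h1 := fc_exp_flow Z (fun t => q + Real.exp (t * m) • v) (fun t => by
    have h2 : HasDerivAt (fun t : ℝ => t * m) m t := by
      simpa using (hasDerivAt_id t).mul_const m
    have h3 := ((h2.exp).smul_const v).const_add q
    have h4 : Z (q + Real.exp (t * m) • v) = (Real.exp (t * m) * m) • v := by
      rw [map_add, hq, map_smul, hv, zero_add, smul_smul]
    rw [h4]
    exact h3) (Real.log T / m)
  simp only [zero_mul, Real.exp_zero, one_smul] at h1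
  rw [div_mul_cancel₀ _ hm, Real.exp_log hT] at h1
  rw [← h1]
  exact hZ _ _ h

theorem fc_shear {Q : Set V} {Z : EndV} (hZ : Z ∈ Lie Q) {x p : V}
    (hx : Z x = p) (hp : Z p = 0) (h : x ∈ Q) (t : ℝ) :
    x + t • p ∈ Q := by
  have h1 := fc_exp_flow Z (fun t => x + t • p) (fun t => by
    have h3 := ((hasDerivAt_id t).smul_const p).const_add x
    have h4 : Z (x + t • p) = p := by
      rw [map_add, hx, map_smul, hp, smul_zero, add_zero]
    rw [h4]
    simpa using h3) t
  simp only [zero_smul, add_zero] at h1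
  rw [← h1]
  exact hZ _ _ h

/-- step (d) -/
theorem fc_d {Q : Set V} (hQ : IsPC Q) {q w : V} (hli : LinearIndependent ℝ ![q, w])
    (hqQ : q ∈ Q) (hq0 : q ≠ 0)
    (hC : ∀ v ∈ Submodule.span ℝ {q, w}, ∃ ε : ℝ, 0 < ε ∧ q + ε • v ∈ Q)
    {Z : EndV} (hZ : Z ∈ Lie Q) (hZq : Z q = 0) (hZw : Z w ∈ Submodule.span ℝ {q, w}) :
    Z w = 0 := by
  obtain ⟨a, m, ham⟩ := Submodule.mem_span_pair.1 hZw
  rw [LinearIndependent.pair_iff] at hli
  by_cases hm : m = 0
  · subst hm
    rw [zero_smul, add_zero] at ham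
    by_cases ha : a = 0
    · rw [← ham, ha, zero_smul]
    · exfalso
      obtain ⟨ε, hε, hε2⟩ := hC w (Submodule.subset_span (by simp))
      have h1 : ∀ t : ℝ, (q + ε • w) + t • ((ε * a) • q) ∈ Q := by
        intro t
        apply fc_shear hZ _ _ hε2
        · rw [map_add, hZq, map_smul, ← ham, zero_add, smul_smul]
        · rw [map_smul, hZq, smul_zero]
      have h2 : -q ∈ Q := by
        apply fc_recession hQ (x := q + ε • w)
        intro T _
        have h3 := h1 (-T / (ε * a))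
        have h4 : (-T / (ε * a)) • ((ε * a) • q) = T • -q := by
          rw [smul_smul, div_mul_cancel₀ _ (mul_ne_zero hε.ne' ha)]
          module
        rwa [h4] at h3
      exact hq0 (hQ.salient q hqQ h2)
  · exfalso
    set u : V := w + (a / m) • q with hu
    have hZu : Z u = m • u := by
      rw [hu, map_add, map_smul, hZq, smul_zero, add_zero, ← ham, smul_add, smul_smul,
        mul_div_cancel₀ _ hm, add_comm]
    have huP : u ∈ Submodule.span ℝ {q, w} :=
      Submodule.add_mem _ (Submodule.subset_span (by simp))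
        (Submodule.smul_mem _ _ (Submodule.subset_span (by simp)))
    have key : ∀ v : V, v ∈ Submodule.span ℝ {q, w} → Z v = m • v → v ∈ Q := by
      intro v hvP hZv
      obtain ⟨ε, hε, hε2⟩ := hC v hvP
      apply fc_recession hQ (x := q)
      intro T hT
      have h3 := fc_eig hZ hm hZq (v := ε • v) (by rw [map_smul, hZv, smul_comm]) hε2
        (T / ε) (by positivity)
      rwa [smul_smul, div_mul_cancel₀ _ hε.ne'] at h3
    have h1 := key u huP hZu
    have h2 := key (-u) (Submodule.neg_mem _ huP) (by rw [map_neg, hZu, smul_neg])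
    have h3 := hQ.salient u h1 h2
    have h4 := hli (a / m) 1 (by rw [← h3, hu, one_smul, add_comm])
    exact one_ne_zero h4.2

/-- step (e) -/
theorem fc_e {Q : Set V} (hQ : IsPC Q) {q w : V} (hli : LinearIndependent ℝ ![q, w])
    (hb : ∀ y ∈ Submodule.span ℝ {q, w}, y ∉ interior Q)
    {Z : EndV} (hZ : Z ∈ Lie Q) (hZ0 : Z ≠ 0) (hZq : Z q = 0) (hZw : Z w = 0) :
    ∃ c : V, c ∈ Q ∧ c ∉ Submodule.span ℝ {q, w} ∧
      ∀ ρ ∈ Submodule.span ℝ {q, w}, ∀ k : ℝ, ρ + k • c ∈ Q → ρ ∈ Q ∧ 0 ≤ k := by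
  obtain ⟨r0, hr0⟩ := hQ.int_nonempty
  have hr0P : r0 ∉ Submodule.span ℝ {q, w} := fun h => hb _ h hr0
  have hr0Q : r0 ∈ Q := interior_subset hr0
  have hli3 := fc_indep3 hli hr0P
  have hspan : ∀ v : V, ∃ p ∈ Submodule.span ℝ {q, w}, ∃ m : ℝ, v = p + m • r0 := by
    intro v
    let b := basisOfLinearIndependentOfCardEqFinrank hli3 (by simp)
    have hbv := b.sum_repr v
    have hbc : ⇑b = ![q, w, r0] := coe_basisOfLinearIndependentOfCardEqFinrank _ _
    rw [Fin.sum_univ_three, hbc] at hbv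
    simp only [Matrix.cons_val_zero, Matrix.cons_val_one, Matrix.cons_val] at hbv
    exact ⟨(b.repr v) 0 • q + (b.repr v) 1 • w, Submodule.mem_span_pair.2 ⟨_, _, rfl⟩,
      (b.repr v) 2, hbv.symm⟩
  have hZP : ∀ p ∈ Submodule.span ℝ {q, w}, Z p = 0 := by
    intro p hp
    obtain ⟨a, b, rfl⟩ := Submodule.mem_span_pair.1 hp
    simp [hZq, hZw]
  obtain ⟨p, hp, m, hpm⟩ := hspan (Z r0)
  by_cases hm : m = 0
  · exfalso
    subst hm
    rw [zero_smul, add_zero] at hpm
    have h1 : ∀ t : ℝ, r0 + t • p ∈ Q := fun t => fc_shear hZ hpm (hZP p hp) hr0Q t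
    have h2 : p ∈ Q := fc_recession hQ (x := r0) (fun T _ => h1 T)
    have h3 : -p ∈ Q := fc_recession hQ (x := r0) (fun T _ => by
      have := h1 (-T)
      rwa [neg_smul, ← smul_neg] at this)
    have h4 := hQ.salient p h2 h3
    apply hZ0
    ext1 v
    obtain ⟨p', hp', m', rfl⟩ := hspan v
    rw [map_add, hZP p' hp', map_smul, hpm, h4, smul_zero, add_zero]
    rfl
  · set c : V := r0 + m⁻¹ • p with hc
    have hZc : Z c = m • c := by
      rw [hc, map_add, map_smul, hZP p hp, smul_zero, add_zero, hpm, smul_add, smul_smul,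
        mul_inv_cancel₀ hm, one_smul, add_comm]
    have hcP : c ∉ Submodule.span ℝ {q, w} := by
      intro h
      apply hr0P
      have h1 : r0 = c - m⁻¹ • p := by rw [hc]; abel
      rw [h1]
      exact Submodule.sub_mem _ h (Submodule.smul_mem _ _ hp)
    have key : ∀ ρ ∈ Submodule.span ℝ {q, w}, ∀ k : ℝ, ρ + k • c ∈ Q → ρ ∈ Q ∧ k • c ∈ Q := by
      intro ρ hρ k hk
      have h1 : ∀ T : ℝ, 0 < T → ρ + T • (k • c) ∈ Q := fun T hT =>
        fc_eig hZ hm (hZP ρ hρ) (v := k • c) (by rw [map_smul, hZc, smul_comm]) hk T hT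
      refine ⟨?_, fc_recession hQ h1⟩
      have h2 : Tendsto (fun n : ℕ => ρ + ((1:ℝ)/((n:ℝ)+1)) • (k • c)) atTop (𝓝 ρ) := by
        have h4 := tendsto_one_div_add_atTop_nhds_zero_nat (𝕜 := ℝ)
        simpa using (h4.smul_const (k • c)).const_add ρ
      exact hQ.closed.mem_of_tendsto h2 (Eventually.of_forall fun n => h1 _ (by positivity))
    have hcQ : c ∈ Q := by
      have h1 : (-(m⁻¹ • p)) + (1:ℝ) • c ∈ Q := by
        have h2 : (-(m⁻¹ • p)) + (1:ℝ) • c = r0 := by rw [hc, one_smul]; abel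
        rwa [h2]
      have h2 := (key _ (Submodule.neg_mem _ (Submodule.smul_mem _ _ hp)) 1 h1).2
      rwa [one_smul] at h2
    refine ⟨c, hcQ, hcP, fun ρ hρ k hk => ?_⟩
    obtain ⟨h1, h2⟩ := key ρ hρ k hk
    refine ⟨h1, ?_⟩
    by_contra hk0
    push Not at hk0
    have h3 : (-k)⁻¹ • (k • c) ∈ Q := hQ.smul_mem _ (inv_nonneg.2 (by linarith)) _ h2
    have h4 : (-k)⁻¹ • (k • c) = -c := by
      rw [smul_smul]
      have h5 : (-k)⁻¹ * k = -1 := by
        rw [inv_neg, neg_mul, inv_mul_cancel₀ hk0.ne]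
      rw [h5, neg_one_smul]
    rw [h4] at h3
    have h5 := hQ.salient c hcQ h3
    exact hcP (by rw [h5]; exact Submodule.zero_mem _)


/-- step (f1) -/
theorem fc_f1 {Q : Set V} (hQ : IsPC Q) {q w : V} (hli : LinearIndependent ℝ ![q, w])
    (hqQ : q ∈ Q) : ∃ u ∈ Submodule.span ℝ {q, w}, u ∉ Q ∧ -u ∉ Q := by
  by_contra hcon
  push Not at hcon
  have hcon' : ∀ u ∈ Submodule.span ℝ {q, w}, u ∈ Q ∨ -u ∈ Q := by
    intro u hu
    by_cases h : u ∈ Q
    · exact Or.inl h
    · exact Or.inr (hcon u hu h)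
  rw [LinearIndependent.pair_iff] at hli
  have hqP : q ∈ Submodule.span ℝ {q, w} := Submodule.subset_span (by simp)
  have hwP : w ∈ Submodule.span ℝ {q, w} := Submodule.subset_span (by simp)
  obtain ⟨σ, hσ, hσw⟩ : ∃ σ : ℝ, σ * σ = 1 ∧ σ • w ∈ Q := by
    rcases hcon' w hwP with h | h
    · exact ⟨1, by norm_num, by rwa [one_smul]⟩
    · exact ⟨-1, by norm_num, by rwa [neg_one_smul]⟩
  have h1 := (isPreconnected_closed_iff.1 (isPreconnected_Icc (a := (0:ℝ)) (b := 1)))
    {t | (1 - t) • (σ • w) - t • q ∈ Q} {t | -((1 - t) • (σ • w) - t • q) ∈ Q}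
    (hQ.closed.preimage (by fun_prop)) (hQ.closed.preimage (by fun_prop))
    (fun t _ => hcon' _ (Submodule.sub_mem _ (Submodule.smul_mem _ _
      (Submodule.smul_mem _ _ hwP)) (Submodule.smul_mem _ _ hqP)))
    ⟨0, by simp, by simpa using hσw⟩
    ⟨1, by simp, by simpa using hqQ⟩
  obtain ⟨t, _, ht1, ht2⟩ := h1
  have h2 := hQ.salient _ ht1 ht2
  have h3 := hli (-t) ((1 - t) * σ) (by rw [← h2]; module)
  obtain ⟨h4, h5⟩ := h3
  have h6 : t = 0 := by linarith
  rw [h6, sub_zero, one_mul] at h5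
  rw [h5] at hσ
  norm_num at hσ

/-- step (f2) -/
theorem fc_f2 {Q : Set V} (hQ : IsPC Q) {q w : V} (hli : LinearIndependent ℝ ![q, w])
    (hqQ : q ∈ Q) (hq0 : q ≠ 0)
    (hC : ∀ v ∈ Submodule.span ℝ {q, w}, ∃ ε : ℝ, 0 < ε ∧ q + ε • v ∈ Q) :
    ∃ e1 ∈ Submodule.span ℝ {q, w}, ∃ e2 ∈ Submodule.span ℝ {q, w},
      LinearIndependent ℝ ![e1, e2] ∧ ∀ α β : ℝ, α • e1 + β • e2 ∈ Q ↔ 0 ≤ α ∧ 0 ≤ β := by
  obtain ⟨u, huP, hu1, hu2⟩ := fc_f1 hQ hli hqQ
  have hqP : q ∈ Submodule.span ℝ {q, w} := Submodule.subset_span (by simp)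
  rw [LinearIndependent.pair_iff] at hli
  -- multiples of u in Q
  have hmul : ∀ y : ℝ, y • u ∈ Q → y = 0 := by
    intro y hy
    by_contra hy0
    rcases lt_or_gt_of_ne hy0 with h | h
    · apply hu2
      have h1 := hQ.smul_mem (-y)⁻¹ (inv_nonneg.2 (by linarith)) _ hy
      have h2 : (-y)⁻¹ • (y • u) = -u := by
        rw [smul_smul]
        have h5 : (-y)⁻¹ * y = -1 := by
          rw [inv_neg, neg_mul, inv_mul_cancel₀ hy0]
        rw [h5, neg_one_smul]
      rwa [h2] at h1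
    · apply hu1
      have h1 := hQ.smul_mem y⁻¹ (inv_nonneg.2 h.le) _ hy
      rwa [smul_smul, inv_mul_cancel₀ hy0, one_smul] at h1
  have hqu : ∀ x y : ℝ, x • q + y • u = 0 → x = 0 ∧ y = 0 := by
    intro x y hxy
    by_cases hy : y = 0
    · rw [hy, zero_smul, add_zero] at hxy
      exact ⟨(smul_eq_zero.1 hxy).resolve_right hq0, hy⟩
    · exfalso
      have h1 : (-y) • u = x • q := by
        rw [neg_smul]
        exact neg_eq_of_add_eq_zero_left hxy
      have h3 : u = (-x / y) • q := by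
        have h2 : (-x / y) • q = -(y⁻¹ • (x • q)) := by
          rw [smul_smul, ← neg_smul]
          congr 1
          ring
        rw [h2, ← h1, smul_smul, ← neg_smul]
        have h4 : -(y⁻¹ * -y) = 1 := by
          field_simp
        rw [h4, one_smul]
      rcases le_or_gt 0 (-x / y) with h | h
      · apply hu1
        rw [h3]
        exact hQ.smul_mem _ h _ hqQ
      · apply hu2
        rw [h3, ← neg_smul]
        exact hQ.smul_mem _ (by linarith) _ hqQ
  set S : Set ℝ := {s | q + s • u ∈ Q} with hS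
  have hScl : IsClosed S := hQ.closed.preimage (by fun_prop)
  have h0S : (0:ℝ) ∈ S := by simpa [hS] using hqQ
  have hSseg : ∀ s ∈ S, ∀ r : ℝ, 0 ≤ r → r ≤ 1 → r * s ∈ S := by
    intro s hs r hr0 hr1
    have h1 := fc_add_mem hQ (hQ.smul_mem r hr0 _ hs) (hQ.smul_mem (1 - r) (by linarith) _ hqQ)
    have h2 : r • (q + s • u) + (1 - r) • q = q + (r * s) • u := by module
    rwa [h2] at h1
  have hba : BddAbove S := by
    by_contra hnb
    apply hu1
    apply fc_recession hQ (x := q)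
    intro T hT
    rw [not_bddAbove_iff] at hnb
    obtain ⟨s, hs, hTs⟩ := hnb T
    have hs0 : 0 < s := hT.trans hTs
    have h1 := hSseg s hs (T / s) (by positivity) ((div_le_one hs0).2 hTs.le)
    rw [div_mul_cancel₀ _ hs0.ne'] at h1
    exact h1
  have hbb : BddBelow S := by
    by_contra hnb
    apply hu2
    apply fc_recession hQ (x := q)
    intro T hT
    rw [not_bddBelow_iff] at hnb
    obtain ⟨s, hs, hTs⟩ := hnb (-T)
    have hs0 : s < 0 := by linarith
    have h1 := hSseg s hs (-T / s) (div_nonneg_of_nonpos (by linarith) hs0.le)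
      ((div_le_one_of_neg hs0).2 hTs.le)
    rw [div_mul_cancel₀ _ hs0.ne] at h1
    have h2 : q + T • -u = q + (-T) • u := by module
    rw [h2]
    exact h1
  have hb := hScl.csSup_mem ⟨0, h0S⟩ hba
  have ha := hScl.csInf_mem ⟨0, h0S⟩ hbb
  set b : ℝ := sSup S with hbdef
  set a : ℝ := sInf S with hadef
  have hbpos : 0 < b := by
    obtain ⟨ε, hε, hε2⟩ := hC u huP
    exact hε.trans_le (le_csSup hba hε2)
  have haneg : a < 0 := by
    obtain ⟨ε, hε, hε2⟩ := hC (-u) (Submodule.neg_mem _ huP)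
    have h1 : -ε ∈ S := by
      have h2 : q + ε • -u = q + (-ε) • u := by module
      rw [h2] at hε2
      exact hε2
    have := csInf_le hbb h1
    linarith
  refine ⟨q + a • u, Submodule.add_mem _ hqP (Submodule.smul_mem _ _ huP),
    q + b • u, Submodule.add_mem _ hqP (Submodule.smul_mem _ _ huP), ?_, ?_⟩
  · rw [LinearIndependent.pair_iff]
    intro s t hst
    have h1 : (s + t) • q + (s * a + t * b) • u = 0 := by
      rw [← hst]; module
    obtain ⟨h2, h3⟩ := hqu _ _ h1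
    have h4 : s = -t := by linarith
    rw [h4] at h3
    have h5 : t * (b - a) = 0 := by linarith
    have h6 : b - a ≠ 0 := by linarith
    have h7 : t = 0 := (mul_eq_zero.1 h5).resolve_right h6
    exact ⟨by rw [h4, h7, neg_zero], h7⟩
  · intro α β
    constructor
    · intro hz
      have h1 : α • (q + a • u) + β • (q + b • u) = (α + β) • q + (α * a + β * b) • u := by
        module
      rw [h1] at hz
      rcases le_or_gt (α + β) 0 with hx | hx
      · have h2 := fc_add_mem hQ hz (hQ.smul_mem (-(α + β)) (by linarith) _ hqQ)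
        have h3 : (α + β) • q + (α * a + β * b) • u + (-(α + β)) • q =
            (α * a + β * b) • u := by module
        rw [h3] at h2
        have h4 := hmul _ h2
        rw [h4, zero_smul, add_zero] at hz
        have h5 : α + β = 0 := by
          by_contra h5
          have h6 : α + β < 0 := lt_of_le_of_ne hx h5
          have h7 := hQ.smul_mem (-(α + β))⁻¹ (inv_nonneg.2 (by linarith)) _ hz
          have h8 : (-(α + β))⁻¹ • ((α + β) • q) = -q := by
            rw [smul_smul, inv_neg, neg_mul, inv_mul_cancel₀ h5, neg_one_smul]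
          rw [h8] at h7
          exact hq0 (hQ.salient q hqQ h7)
        have h6 : α = -β := by linarith
        rw [h6] at h4
        have h7 : β * (b - a) = 0 := by linarith
        have h8 : β = 0 := (mul_eq_zero.1 h7).resolve_right (by linarith)
        rw [h6, h8]
        simp
      · have h2 := hQ.smul_mem (α + β)⁻¹ (inv_nonneg.2 hx.le) _ hz
        have h3 : (α + β)⁻¹ • ((α + β) • q + (α * a + β * b) • u) =
            q + ((α * a + β * b) / (α + β)) • u := by
          rw [smul_add, smul_smul, smul_smul, inv_mul_cancel₀ hx.ne', one_smul]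
          congr 2
          ring
        rw [h3] at h2
        have h4 : a ≤ (α * a + β * b) / (α + β) := csInf_le hbb h2
        have h5 : (α * a + β * b) / (α + β) ≤ b := le_csSup hba h2
        rw [le_div_iff₀ hx] at h4
        rw [div_le_iff₀ hx] at h5
        constructor
        · by_contra h
          push Not at h
          nlinarith
        · by_contra h
          push Not at h
          nlinarith
    · rintro ⟨h1, h2⟩
      exact fc_add_mem hQ (hQ.smul_mem _ h1 _ ha) (hQ.smul_mem _ h2 _ hb)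

/-- TARGET K. -/
theorem flat_case {Q : Set V} (hQ : IsPC Q) {Y Z : EndV} (hY : Y ∈ Lie Q) (hZ : Z ∈ Lie Q)
    (hZns : ∀ c : ℝ, Z ≠ c • (1 : EndV)) {q : V} (hq : q ∈ frontier Q) (hq0 : q ≠ 0)
    (hYq : ∀ c : ℝ, Y q ≠ c • q) (c0 : ℝ) (hZq : Z q = c0 • q)
    (hflat : ¬ LinearIndependent ℝ ![q, Y q, Y (Y q)])
    (hdep : ∀ z ∈ frontier Q, ¬ LinearIndependent ℝ ![z, Y z, Z z]) : Simplicial Q := by
  have hqQ : q ∈ Q := hQ.closed.frontier_subset hq
  have hli : LinearIndependent ℝ ![q, Y q] := by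
    rw [LinearIndependent.pair_iff' hq0]
    intro c hc
    exact hYq c hc.symm
  have hinv : Y (Y q) ∈ Submodule.span ℝ {q, Y q} := fc_dep3 hli hflat
  have hqP : q ∈ Submodule.span ℝ {q, Y q} := Submodule.subset_span (by simp)
  have hwP : Y q ∈ Submodule.span ℝ {q, Y q} := Submodule.subset_span (by simp)
  have hE : ∀ σ : ℝ, σ * σ = 1 → ∀ K : ℝ, ∃ a c : ℝ, 0 < c ∧ K * c < a ∧
      a • q + (σ * c) • (Y q) ∈ frontier Q := by
    intro σ hσ K
    obtain ⟨a, c, t, hc, hK, he⟩ := fc_small hli hinv K σ hσ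
    exact ⟨a, c, hc, hK, by rw [← he]; exact fc_frontier hY t hq⟩
  have hb := fun y (hy : y ∈ Submodule.span ℝ {q, Y q}) => fc_b hQ hq hE hy
  have hC := fun v (hv : v ∈ Submodule.span ℝ {q, Y q}) => fc_c hQ hqQ hE hv
  -- (a)
  have hZw : Z (Y q) ∈ Submodule.span ℝ {q, Y q} := by
    obtain ⟨a, c, t, hc, hK, he⟩ := fc_small hli hinv 0 1 (by norm_num)
    rw [one_mul] at he
    have hz := fc_frontier hY t hq
    set E : EndV := NormedSpace.exp (t • Y) with hEdef
    have hcomm : Y (E q) = E (Y q) := by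
      have h1 : Commute E Y := by
        let _ : NormedAlgebra ℚ EndV := NormedAlgebra.restrictScalars ℚ ℝ EndV
        exact ((Commute.refl Y).smul_left t).exp_left
      have h2 : (E * Y) q = (Y * E) q := by rw [h1.eq]
      exact h2.symm
    have hker : LinearMap.ker (E : V →ₗ[ℝ] V) = ⊥ := by
      rw [LinearMap.ker_eq_bot']
      intro m hm
      have h1 := fc_exp_mul_neg Y (-t) m
      rw [neg_neg] at h1
      have h2 : E m = 0 := hm
      rw [← hEdef, h2, map_zero] at h1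
      exact h1.symm
    have hli2 : LinearIndependent ℝ ![E q, Y (E q)] := by
      have h1 := hli.map' (E : V →ₗ[ℝ] V) hker
      have h2 : (⇑(E : V →ₗ[ℝ] V) ∘ ![q, Y q]) = ![E q, Y (E q)] := by
        rw [hcomm]
        ext i j
        fin_cases i <;> rfl
      rwa [h2] at h1
    have h3 := fc_dep3 hli2 (hdep _ hz)
    have hEq : E q ∈ Submodule.span ℝ {q, Y q} := by
      rw [he]
      exact Submodule.add_mem _ (Submodule.smul_mem _ _ hqP) (Submodule.smul_mem _ _ hwP)
    have hYE : Y (E q) ∈ Submodule.span ℝ {q, Y q} := by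
      rw [he, map_add, map_smul, map_smul]
      exact Submodule.add_mem _ (Submodule.smul_mem _ _ hwP) (Submodule.smul_mem _ _ hinv)
    have h4 : Z (E q) ∈ Submodule.span ℝ {q, Y q} := by
      refine Submodule.span_le.2 ?_ h3
      intro x hx
      rcases hx with rfl | hx
      · exact hEq
      · rw [Set.mem_singleton_iff] at hx
        rw [hx]
        exact hYE
    rw [he, map_add, map_smul, map_smul, hZq] at h4
    have h5 : Z (Y q) = c⁻¹ • ((a • c0 • q + c • Z (Y q)) - a • c0 • q) := by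
      rw [add_sub_cancel_left, smul_smul, inv_mul_cancel₀ hc.ne', one_smul]
    rw [h5]
    exact Submodule.smul_mem _ _ (Submodule.sub_mem _ h4 (Submodule.smul_mem _ _
      (Submodule.smul_mem _ _ hqP)))
  -- (d)
  have hZ' := fc_shift hQ hZ c0
  set Z' : EndV := Z - c0 • (1 : EndV) with hZ'def
  have hZ'q : Z' q = 0 := by
    have : Z' q = Z q - c0 • q := rfl
    rw [this, hZq, sub_self]
  have hZ'wP : Z' (Y q) ∈ Submodule.span ℝ {q, Y q} := by
    have : Z' (Y q) = Z (Y q) - c0 • (Y q) := rfl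
    rw [this]
    exact Submodule.sub_mem _ hZw (Submodule.smul_mem _ _ hwP)
  have hZ'w := fc_d hQ hli hqQ hq0 hC hZ' hZ'q hZ'wP
  have hZ'0 : Z' ≠ 0 := by
    intro h
    exact hZns c0 (sub_eq_zero.1 h)
  obtain ⟨c, hcQ, hcP, hkey⟩ := fc_e hQ hli hb hZ' hZ'0 hZ'q hZ'w
  obtain ⟨e1, he1, e2, he2, hli12, hplane⟩ := fc_f2 hQ hli hqQ hq0 hC
  have hle : Submodule.span ℝ {e1, e2} ≤ Submodule.span ℝ {q, Y q} := by
    rw [Submodule.span_le]
    intro x hx
    rcases hx with rfl | hx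
    · exact he1
    · rw [Set.mem_singleton_iff] at hx
      rw [hx]
      exact he2
  have hli3 := fc_indep3 hli12 (fun h => hcP (hle h))
  let b := basisOfLinearIndependentOfCardEqFinrank hli3 (by simp)
  have hbc : ⇑b = ![e1, e2, c] := coe_basisOfLinearIndependentOfCardEqFinrank _ _
  refine ⟨b, ?_⟩
  ext z
  have hbv := b.sum_repr z
  rw [Fin.sum_univ_three, hbc] at hbv
  simp only [Matrix.cons_val_zero, Matrix.cons_val_one, Matrix.cons_val] at hbv
  have hρ : (b.repr z) 0 • e1 + (b.repr z) 1 • e2 ∈ Submodule.span ℝ {q, Y q} :=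
    Submodule.add_mem _ (Submodule.smul_mem _ _ he1) (Submodule.smul_mem _ _ he2)
  simp only [Set.mem_ofPred_eq]
  constructor
  · intro hz
    rw [← hbv] at hz
    obtain ⟨h1, h2⟩ := hkey _ hρ _ hz
    obtain ⟨h3, h4⟩ := (hplane _ _).1 h1
    intro i
    fin_cases i
    · exact h3
    · exact h4
    · exact h2
  · intro h
    rw [← hbv]
    exact fc_add_mem hQ ((hplane _ _).2 ⟨h 0, h 1⟩) (hQ.smul_mem _ (h 2) _ hcQ)

end Pool.Agent.Helper438.Proj.SK
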