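import Pool.Agent.Helper438.Proj.Defs

namespace Pool.Agent.Helper438.Proj

open Set Filter Topology


theorem IsPC.add_mem {Q : Set V} (hQ : IsPC Q) {x w : V} (hx : x ∈ Q) (hw : w ∈ Q) : x + w ∈ Q := by
  have h1 : (1 / 2 : ℝ) • x + (1 / 2 : ℝ) • w ∈ Q :=
    hQ.convex hx hw (by norm_num) (by norm_num) (by norm_num)
  have h2 := hQ.smul_mem 2 (by norm_num) _ h1
  rw [smul_add, smul_smul, smul_smul] at h2
  norm_num at h2
  exact h2

theorem IsPC.add_int {Q : Set V} (hQ : IsPC Q) {x w : V} (hx : x ∈ Q) (hw : w ∈ interior Q) :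
    x + w ∈ interior Q := by
  have ho : IsOpen ((fun v : V => v - x) ⁻¹' interior Q) :=
    isOpen_interior.preimage (continuous_id.sub continuous_const)
  have hs : ((fun v : V => v - x) ⁻¹' interior Q) ⊆ Q := by
    intro v hv
    have h1 : v - x ∈ Q := interior_subset hv
    have h2 := hQ.add_mem hx h1
    rwa [add_sub_cancel] at h2
  refine interior_maximal hs ho ?_
  change x + w - x ∈ interior Q
  rwa [add_sub_cancel_left]

theorem IsPC.smul_int {Q : Set V} (hQ : IsPC Q) {w : V} (hw : w ∈ interior Q) {c : ℝ} (hc : 0 < c) :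
    c • w ∈ interior Q := by
  have ho : IsOpen ((fun v : V => c⁻¹ • v) ⁻¹' interior Q) :=
    isOpen_interior.preimage (continuous_const_smul _)
  have hs : ((fun v : V => c⁻¹ • v) ⁻¹' interior Q) ⊆ Q := by
    intro v hv
    have h1 : c⁻¹ • v ∈ Q := interior_subset hv
    have h2 := hQ.smul_mem c hc.le _ h1
    rwa [smul_smul, mul_inv_cancel₀ hc.ne', one_smul] at h2
  refine interior_maximal hs ho ?_
  change c⁻¹ • (c • w) ∈ interior Q
  rwa [smul_smul, inv_mul_cancel₀ hc.ne', one_smul]

theorem crossing {Q : Set V} (hQ : IsPC Q) {y z : V} (hy : y ∈ interior Q) (hz : z ∈ frontier Q)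
    {ε : ℝ} (hε : 0 < ε) :
    ∃ δ > 0, ∀ z' : V, ‖z' - z‖ < δ → ∃ s : ℝ, |s| < ε ∧ z' - s • y ∈ frontier Q := by
  have hfr : frontier Q = Q \ interior Q := hQ.closed.frontier_eq
  rw [hfr] at hz
  have hin : z + (ε / 2) • y ∈ interior Q := hQ.add_int hz.1 (hQ.smul_int hy (by linarith))
  have hout : z - (ε / 2) • y ∈ Qᶜ := by
    intro h
    have h2 := hQ.add_int h (hQ.smul_int hy (half_pos hε))
    rw [sub_add_cancel] at h2
    exact hz.2 h2
  have ho1 : IsOpen ((fun v : V => v + (ε / 2) • y) ⁻¹' interior Q) :=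
    isOpen_interior.preimage (continuous_id.add continuous_const)
  have ho2 : IsOpen ((fun v : V => v - (ε / 2) • y) ⁻¹' Qᶜ) :=
    hQ.closed.isOpen_compl.preimage (continuous_id.sub continuous_const)
  obtain ⟨δ, hδ, hb⟩ := Metric.isOpen_iff.mp (ho1.inter ho2) z ⟨hin, hout⟩
  refine ⟨δ, hδ, fun z' hz' => ?_⟩
  have hzb : z' ∈ Metric.ball z δ := by rwa [Metric.mem_ball, dist_eq_norm]
  obtain ⟨h1, h2⟩ := hb hzb
  change z' + (ε / 2) • y ∈ interior Q at h1
  change z' - (ε / 2) • y ∈ Qᶜ at h2
  by_contra hcon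
  push Not at hcon
  have hc : Continuous (fun s : ℝ => z' - s • y) :=
    continuous_const.sub (continuous_id.smul continuous_const)
  have hpre : IsPreconnected (Icc (-(ε / 2)) (ε / 2)) := isPreconnected_Icc
  have := hpre ((fun s : ℝ => z' - s • y) ⁻¹' interior Q) ((fun s : ℝ => z' - s • y) ⁻¹' Qᶜ)
    (isOpen_interior.preimage hc) (hQ.closed.isOpen_compl.preimage hc) ?_ ?_ ?_
  · obtain ⟨s, _, hs1, hs2⟩ := this
    exact hs2 (interior_subset hs1)
  · intro s hs
    have habs : |s| < ε := by
      rw [abs_lt]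
      constructor <;> linarith [hs.1, hs.2]
    have h3 := hcon s habs
    rw [hfr] at h3
    by_cases h4 : z' - s • y ∈ Q
    · left
      by_contra h5
      exact h3 ⟨h4, h5⟩
    · right
      exact h4
  · refine ⟨-(ε / 2), ⟨le_rfl, by linarith⟩, ?_⟩
    change z' - (-(ε / 2)) • y ∈ interior Q
    rwa [neg_smul, sub_neg_eq_add]
  · exact ⟨ε / 2, ⟨by linarith, le_rfl⟩, h2⟩

theorem flow_inv {Y : EndV} (t : ℝ) (x : V) :
    (NormedSpace.exp ((-t) • Y)) ((NormedSpace.exp (t • Y)) x) = x := by
  let _ : NormedAlgebra ℚ EndV := NormedAlgebra.restrictScalars ℚ ℝ EndV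
  have h1 : NormedSpace.exp ((-t) • Y) * NormedSpace.exp (t • Y) = 1 := by
    rw [← NormedSpace.exp_add_of_commute]
    · rw [← add_smul, neg_add_cancel, zero_smul, NormedSpace.exp_zero]
    · exact ((Commute.refl Y).smul_left _).smul_right _
  change (NormedSpace.exp ((-t) • Y) * NormedSpace.exp (t • Y)) x = x
  rw [h1]
  rfl

theorem flow_frontier {Q : Set V} (hQ : IsPC Q) {Y : EndV} (hY : Y ∈ Lie Q) (t : ℝ) {z : V}
    (hz : z ∈ frontier Q) : (NormedSpace.exp (t • Y)) z ∈ frontier Q := by
  have hfr : frontier Q = Q \ interior Q := hQ.closed.frontier_eq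
  rw [hfr] at hz ⊢
  refine ⟨hY t z hz.1, fun h => hz.2 ?_⟩
  have ho : IsOpen ((NormedSpace.exp (t • Y) : EndV) ⁻¹' interior Q) :=
    isOpen_interior.preimage (NormedSpace.exp (t • Y) : EndV).continuous
  refine interior_maximal ?_ ho h
  intro v hv
  have h1 : (NormedSpace.exp (t • Y)) v ∈ Q := interior_subset hv
  have h2 := hY (-t) _ h1
  rwa [flow_inv] at h2

theorem flow_deriv {Y : EndV} (z : V) (t : ℝ) :
    HasDerivAt (fun u : ℝ => (NormedSpace.exp (u • Y)) z) (Y ((NormedSpace.exp (t • Y)) z)) t := by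
  have h1 : HasDerivAt (fun u : ℝ => NormedSpace.exp (u • Y)) (Y * NormedSpace.exp (t • Y)) t :=
    hasDerivAt_exp_smul_const' Y t
  have h2 := ((ContinuousLinearMap.apply ℝ V z).hasFDerivAt).comp_hasDerivAt t h1
  exact h2


theorem det_dep (e : Module.Basis (Fin 3) ℝ V) {u v w : V}
    (h : ¬ LinearIndependent ℝ ![u, v, w]) :
    e.coord 0 u * (e.coord 1 v * e.coord 2 w - e.coord 2 v * e.coord 1 w)
    - e.coord 1 u * (e.coord 0 v * e.coord 2 w - e.coord 2 v * e.coord 0 w)
    + e.coord 2 u * (e.coord 0 v * e.coord 1 w - e.coord 1 v * e.coord 0 w) = 0 := by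
  by_contra hne
  apply h
  have h1 : IsUnit (e.det ![u, v, w]) := by
    rw [isUnit_iff_ne_zero]
    intro h2
    apply hne
    rw [Module.Basis.det_apply, Matrix.det_fin_three] at h2
    simp only [Module.Basis.toMatrix_apply, Matrix.cons_val_zero, Matrix.cons_val_one,
      Matrix.cons_val] at h2
    simp only [Module.Basis.coord_apply]
    linarith
  exact ((Module.Basis.is_basis_iff_det e).mpr h1).1

/-- TARGET M. -/
theorem nonflat_geom {Q : Set V} (hQ : IsPC Q) (e : Module.Basis (Fin 3) ℝ V) {Y Z : EndV}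
    (hY : Y ∈ Lie Q) (β b d : ℝ) (hbd : b ≠ 0 ∨ d ≠ 0)
    (hY0 : Y (e 0) = e 1) (hY1 : Y (e 1) = e 2) (hY2 : Y (e 2) = β • e 1)
    (hZ0 : Z (e 0) = 0) (hZ1 : Z (e 1) = b • e 0 + d • e 1)
    (hZ2 : Z (e 2) = (-(d * β)) • e 0 + b • e 1 + (2 * d) • e 2)
    (hdep : ∀ z ∈ frontier Q, ¬ LinearIndependent ℝ ![z, Y z, Z z]) : Conic Q := by
  have hfr : frontier Q = Q \ interior Q := hQ.closed.frontier_eq
  -- coordinates
  have hexp : ∀ z : V, z = e.coord 0 z • e 0 + e.coord 1 z • e 1 + e.coord 2 z • e 2 := by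
    intro z
    have := e.sum_repr z
    rw [Fin.sum_univ_three] at this
    exact this.symm
  have cc : ∀ i j : Fin 3, e.coord i (e j) = if i = j then 1 else 0 := by
    intro i j
    rw [Module.Basis.coord_apply, Module.Basis.repr_self, Finsupp.single_apply]
    simp [eq_comm]
  have c00 : e.coord 0 (e 0) = 1 := by rw [cc]; rfl
  have c01 : e.coord 0 (e 1) = 0 := by rw [cc]; rfl
  have c02 : e.coord 0 (e 2) = 0 := by rw [cc]; rfl
  have c10 : e.coord 1 (e 0) = 0 := by rw [cc]; rfl
  have c11 : e.coord 1 (e 1) = 1 := by rw [cc]; rfl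
  have c12 : e.coord 1 (e 2) = 0 := by rw [cc]; rfl
  have c20 : e.coord 2 (e 0) = 0 := by rw [cc]; rfl
  have c21 : e.coord 2 (e 1) = 0 := by rw [cc]; rfl
  have c22 : e.coord 2 (e 2) = 1 := by rw [cc]; rfl
  have hYz : ∀ z : V, Y z = (e.coord 0 z + β * e.coord 2 z) • e 1 + e.coord 1 z • e 2 := by
    intro z
    conv_lhs => rw [hexp z]
    rw [map_add, map_add, map_smul, map_smul, map_smul, hY0, hY1, hY2, smul_smul, add_smul,
      mul_comm β]
    abel
  have hZz : ∀ z : V, Z z = (b * e.coord 1 z - d * β * e.coord 2 z) • e 0 +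
      (d * e.coord 1 z + b * e.coord 2 z) • e 1 + (2 * d * e.coord 2 z) • e 2 := by
    intro z
    conv_lhs => rw [hexp z]
    rw [map_add, map_add, map_smul, map_smul, map_smul, hZ0, hZ1, hZ2]
    module
  have Y0 : ∀ z, e.coord 0 (Y z) = 0 := by
    intro z
    rw [hYz z, map_add, map_smul, map_smul, c01, c02]
    simp
  have Y1 : ∀ z, e.coord 1 (Y z) = e.coord 0 z + β * e.coord 2 z := by
    intro z
    rw [hYz z, map_add, map_smul, map_smul, c11, c12]
    simp
  have Y2 : ∀ z, e.coord 2 (Y z) = e.coord 1 z := by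
    intro z
    rw [hYz z, map_add, map_smul, map_smul, c21, c22]
    simp
  have Z0 : ∀ z, e.coord 0 (Z z) = b * e.coord 1 z - d * β * e.coord 2 z := by
    intro z
    rw [hZz z, map_add, map_add, map_smul, map_smul, map_smul, c00, c01, c02]
    simp
  have Z1 : ∀ z, e.coord 1 (Z z) = d * e.coord 1 z + b * e.coord 2 z := by
    intro z
    rw [hZz z, map_add, map_add, map_smul, map_smul, map_smul, c10, c11, c12]
    simp
  have Z2 : ∀ z, e.coord 2 (Z z) = 2 * d * e.coord 2 z := by
    intro z
    rw [hZz z, map_add, map_add, map_smul, map_smul, map_smul, c20, c21, c22]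
    simp
  have ccont : ∀ i, Continuous (fun z : V => e.coord i z) := fun i =>
    LinearMap.continuous_of_finiteDimensional _
  -- l and Phi
  obtain ⟨l, hl⟩ : ∃ l : V →ₗ[ℝ] ℝ, ∀ z, l z = b * e.coord 1 z - d * e.coord 0 z -
      d * β * e.coord 2 z := by
    refine ⟨b • e.coord 1 - d • e.coord 0 - (d * β) • e.coord 2, fun z => ?_⟩
    simp
  obtain ⟨Φ, hΦ⟩ : ∃ Φ : V → ℝ, ∀ z, Φ z = e.coord 1 z ^ 2 - 2 * e.coord 0 z * e.coord 2 z -
      β * e.coord 2 z ^ 2 := ⟨_, fun z => rfl⟩
  have hΦc : Continuous Φ := by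
    have : Φ = fun z => e.coord 1 z ^ 2 - 2 * e.coord 0 z * e.coord 2 z -
      β * e.coord 2 z ^ 2 := funext hΦ
    rw [this]
    exact (((ccont 1).pow 2).sub ((continuous_const.mul (ccont 0)).mul (ccont 2))).sub
      (continuous_const.mul ((ccont 2).pow 2))
  have hlc : Continuous l := LinearMap.continuous_of_finiteDimensional _
  have hprod : ∀ z ∈ frontier Q, l z * Φ z = 0 := by
    intro z hz
    have h1 := det_dep e (hdep z hz)
    rw [Y0, Y1, Y2, Z0, Z1, Z2] at h1
    rw [hl, hΦ, ← h1]
    ring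
  -- flow invariance of Phi
  have hflow : ∀ (z : V) (t : ℝ), Φ ((NormedSpace.exp (t • Y)) z) = Φ z := by
    intro z t
    have hd : ∀ t : ℝ, HasDerivAt (fun u : ℝ => Φ ((NormedSpace.exp (u • Y)) z)) 0 t := by
      intro t
      have hc : ∀ i, HasDerivAt (fun u : ℝ => e.coord i ((NormedSpace.exp (u • Y)) z))
          (e.coord i (Y ((NormedSpace.exp (t • Y)) z))) t := by
        intro i
        have h1 := flow_deriv (Y := Y) z t
        have h2 := ((LinearMap.toContinuousLinearMap (e.coord i)).hasFDerivAt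
          (x := (NormedSpace.exp (t • Y)) z)).comp_hasDerivAt t h1
        exact h2
      have h0 := hc 0
      have h1 := hc 1
      have h2 := hc 2
      rw [Y0] at h0
      rw [Y1] at h1
      rw [Y2] at h2
      have h3 := ((h1.pow 2).sub ((h0.const_mul 2).mul h2)).sub ((h2.pow 2).const_mul β)
      have h4 : (fun u : ℝ => Φ ((NormedSpace.exp (u • Y)) z)) = fun u : ℝ =>
        e.coord 1 ((NormedSpace.exp (u • Y)) z) ^ 2 - 2 * e.coord 0 ((NormedSpace.exp (u • Y)) z) *
        e.coord 2 ((NormedSpace.exp (u • Y)) z) -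
          β * e.coord 2 ((NormedSpace.exp (u • Y)) z) ^ 2 := funext fun u => hΦ _
      rw [h4]
      refine h3.congr_deriv ?_
      simp only [Nat.cast_ofNat]
      ring
    have hdiff : Differentiable ℝ (fun u : ℝ => Φ ((NormedSpace.exp (u • Y)) z)) :=
      fun u => (hd u).differentiableAt
    have := is_const_of_deriv_eq_zero hdiff (fun u => (hd u).deriv) t 0
    simpa using this
  obtain ⟨y, hy⟩ := hQ.int_nonempty
  -- main claim
  have main : ∀ z ∈ frontier Q, Φ z = 0 := by
    intro q' hq'
    by_contra hne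
    -- local lemma
    have loc : ∀ z ∈ frontier Q, Φ z ≠ 0 → ∃ δ > 0, ∀ u : V, ‖u‖ < δ → ∃ s : ℝ,
        z + u - s • y ∈ frontier Q ∧ l u = s * l y := by
      intro z hz hzne
      have hopen : IsOpen {v : V | Φ v ≠ 0} := isOpen_ne_fun hΦc continuous_const
      obtain ⟨r, hr, hb⟩ := Metric.isOpen_iff.mp hopen z hzne
      have hy0 : 0 < ‖y‖ + 1 := by positivity
      obtain ⟨δ, hδ, hcr⟩ := crossing hQ hy hz (ε := r / (2 * (‖y‖ + 1))) (by positivity)
      refine ⟨min δ (r / 2), lt_min hδ (by linarith), fun u hu => ?_⟩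
      obtain ⟨s, hs, hs2⟩ := hcr (z + u) (by
        rw [add_sub_cancel_left]; exact lt_of_lt_of_le hu (min_le_left _ _))
      have hball : z + u - s • y ∈ Metric.ball z r := by
        rw [Metric.mem_ball, dist_eq_norm]
        have e1 : z + u - s • y - z = u - s • y := by abel
        rw [e1]
        have e2 : ‖u - s • y‖ ≤ ‖u‖ + |s| * ‖y‖ := by
          refine (norm_sub_le _ _).trans ?_
          rw [norm_smul, Real.norm_eq_abs]
        have e3 : |s| * ‖y‖ ≤ r / (2 * (‖y‖ + 1)) * ‖y‖ :=
          mul_le_mul_of_nonneg_right hs.le (norm_nonneg _)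
        have e4 : r / (2 * (‖y‖ + 1)) * ‖y‖ ≤ r / 2 := by
          rw [div_mul_eq_mul_div, div_le_div_iff₀ (by positivity) (by norm_num)]
          nlinarith [norm_nonneg y]
        have e5 := lt_of_lt_of_le hu (min_le_right δ (r / 2))
        linarith
      have hne2 : Φ (z + u - s • y) ≠ 0 := hb hball
      have h1 := hprod _ hs2
      have h2 := hprod _ hz
      have h3 : l (z + u - s • y) = 0 := by
        rcases mul_eq_zero.mp h1 with h | h
        · exact h
        · exact absurd h hne2
      have h4 : l z = 0 := by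
        rcases mul_eq_zero.mp h2 with h | h
        · exact h
        · exact absurd h hzne
      refine ⟨s, hs2, ?_⟩
      rw [map_sub, map_add, map_smul, h4, smul_eq_mul] at h3
      linarith
    -- l does not vanish at y
    have hly : l y ≠ 0 := by
      intro hly
      obtain ⟨u, hu⟩ : ∃ u : V, l u ≠ 0 := by
        rcases hbd with h | h
        · refine ⟨e 1, ?_⟩
          rw [hl, c11, c01, c21]
          simpa using h
        · refine ⟨e 0, ?_⟩
          rw [hl, c10, c00, c20]
          simpa using h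
      obtain ⟨δ, hδ, hloc⟩ := loc q' hq' hne
      have hu0 : 0 < ‖u‖ + 1 := by positivity
      obtain ⟨s, _, hs2⟩ := hloc ((δ / (‖u‖ + 1) / 2) • u) (by
        rw [norm_smul, Real.norm_eq_abs, abs_of_pos (by positivity)]
        have : δ / (‖u‖ + 1) / 2 * ‖u‖ = δ * (‖u‖ / (2 * (‖u‖ + 1))) := by
          field_simp
        rw [this]
        have h2 : ‖u‖ / (2 * (‖u‖ + 1)) < 1 := by
          rw [div_lt_one (by positivity)]
          linarith [norm_nonneg u]
        nlinarith)
      rw [hly, mul_zero, map_smul, smul_eq_mul] at hs2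
      rcases mul_eq_zero.mp hs2 with h | h
      · have : (0 : ℝ) < δ / (‖u‖ + 1) / 2 := by positivity
        linarith
      · exact hu h
    have loc2 : ∀ z ∈ frontier Q, Φ z ≠ 0 → ∃ δ > 0, ∀ u : V, ‖u‖ < δ → l u = 0 →
        z + u ∈ frontier Q := by
      intro z hz hzne
      obtain ⟨δ, hδ, hloc⟩ := loc z hz hzne
      refine ⟨δ, hδ, fun u hu hlu => ?_⟩
      obtain ⟨s, hs1, hs2⟩ := hloc u hu
      rw [hlu] at hs2
      have : s = 0 := by
        rcases mul_eq_zero.mp hs2.symm with h | h
        · exact h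
        · exact absurd h hly
      rwa [this, zero_smul, sub_zero] at hs1
    -- Y invariance
    have hYl : ∀ z ∈ frontier Q, Φ z ≠ 0 → l (Y z) = 0 := by
      intro z hz hzne
      have hz0 : ∀ t : ℝ, l ((NormedSpace.exp (t • Y)) z) = 0 := by
        intro t
        have h1 := hprod _ (flow_frontier hQ hY t hz)
        rw [hflow] at h1
        rcases mul_eq_zero.mp h1 with h | h
        · exact h
        · exact absurd h hzne
      have h1 := flow_deriv (Y := Y) z 0
      have h2 := ((LinearMap.toContinuousLinearMap l).hasFDerivAt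
          (x := (NormedSpace.exp ((0 : ℝ) • Y)) z)).comp_hasDerivAt 0 h1
      have h3 : (fun u : ℝ => (LinearMap.toContinuousLinearMap l) ((NormedSpace.exp (u • Y)) z)) =
          fun _ => 0 := funext hz0
      have h4 : HasDerivAt (fun u : ℝ => (LinearMap.toContinuousLinearMap l)
        ((NormedSpace.exp (u • Y)) z)) (l (Y ((NormedSpace.exp ((0 : ℝ) • Y)) z))) 0 := h2
      rw [h3] at h4
      have h5 := h4.unique (hasDerivAt_const (0 : ℝ) (0 : ℝ))
      simpa using h5
    have hYl2 : ∀ u : V, l u = 0 → l (Y u) = 0 := by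
      intro u hlu
      have hopen : IsOpen {v : V | Φ v ≠ 0} := isOpen_ne_fun hΦc continuous_const
      obtain ⟨r, hr, hb⟩ := Metric.isOpen_iff.mp hopen q' hne
      obtain ⟨δ, hδ, hloc⟩ := loc2 q' hq' hne
      have hm : 0 < min r δ := lt_min hr hδ
      set c : ℝ := min r δ / (‖u‖ + 1) / 2 with hc
      have hc0 : 0 < c := by positivity
      have hcu : ‖c • u‖ < min r δ := by
        rw [norm_smul, Real.norm_eq_abs, abs_of_pos hc0, hc]
        have : min r δ / (‖u‖ + 1) / 2 * ‖u‖ = min r δ * (‖u‖ / (2 * (‖u‖ + 1))) := by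
          field_simp
        rw [this]
        have h2 : ‖u‖ / (2 * (‖u‖ + 1)) < 1 := by
          rw [div_lt_one (by positivity)]
          linarith [norm_nonneg u]
        nlinarith
      have h1 : q' + c • u ∈ frontier Q := hloc _ (lt_of_lt_of_le hcu (min_le_right _ _)) (by
        rw [map_smul, hlu, smul_zero])
      have h2 : Φ (q' + c • u) ≠ 0 := hb (by
        rw [Metric.mem_ball, dist_eq_norm, add_sub_cancel_left]
        exact lt_of_lt_of_le hcu (min_le_left _ _))
      have h3 := hYl _ h1 h2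
      have h4 := hYl _ hq' hne
      rw [map_add, map_add, map_smul, map_smul, h4, zero_add, smul_eq_mul] at h3
      rcases mul_eq_zero.mp h3 with h | h
      · linarith
      · exact h
    have hd : d ≠ 0 := by
      intro hd
      have h1 : l (e 0) = 0 := by
        rw [hl, c10, c00, c20, hd]
        ring
      have h2 := hYl2 _ h1
      rw [hl, Y0, Y1, Y2, c10, c00, c20, hd] at h2
      rcases hbd with h | h
      · apply h
        linarith
      · exact h hd
    have hbb : b ^ 2 = β * d ^ 2 := by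
      have h1 : l (b • e 0 + d • e 1) = 0 := by
        rw [map_add, map_smul, map_smul, hl, hl, c10, c00, c20, c11, c01, c21, smul_eq_mul,
          smul_eq_mul]
        ring
      have h2 := hYl2 _ h1
      rw [map_add, map_smul, map_smul, map_add, map_smul, map_smul, hl, hl, Y0, Y1, Y2, Y0, Y1, Y2,
        c10, c00, c20, c11, c01, c21, smul_eq_mul, smul_eq_mul] at h2
      linarith
    -- the line
    set w : V := (b / d) • e 1 + e 2 with hw
    have w0 : e.coord 0 w = 0 := by
      rw [hw, map_add, map_smul, c01, c02]; simp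
    have w1 : e.coord 1 w = b / d := by
      rw [hw, map_add, map_smul, c11, c12]; simp
    have w2 : e.coord 2 w = 1 := by
      rw [hw, map_add, map_smul, c21, c22]; simp
    have hlw : l w = 0 := by
      rw [hl, w0, w1, w2]
      field_simp
      linarith
    have hlq : l q' = 0 := by
      rcases mul_eq_zero.mp (hprod _ hq') with h | h
      · exact h
      · exact absurd h hne
    have hΦw : ∀ t : ℝ, Φ (q' + t • w) = Φ q' := by
      intro t
      rw [hl] at hlq
      have hβ : β = (b / d) ^ 2 := by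
        rw [div_pow, eq_div_iff (by positivity)]
        linarith
      have hx0 : e.coord 0 q' = b / d * e.coord 1 q' - β * e.coord 2 q' := by
        field_simp
        linarith
      rw [hΦ, hΦ, map_add, map_add, map_add, map_smul, map_smul, map_smul, w0, w1, w2, hx0]
      simp only [smul_eq_mul]
      rw [hβ]
      ring
    have hline : ∀ t : ℝ, q' + t • w ∈ frontier Q := by
      have hcont : Continuous (fun t : ℝ => q' + t • w) :=
        continuous_const.add (continuous_id.smul continuous_const)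
      have hclosed : IsClosed {t : ℝ | q' + t • w ∈ frontier Q} :=
        isClosed_frontier.preimage hcont
      have hopen : IsOpen {t : ℝ | q' + t • w ∈ frontier Q} := by
        rw [Metric.isOpen_iff]
        intro t ht
        obtain ⟨δ, hδ, hloc⟩ := loc2 _ ht (by rw [hΦw]; exact hne)
        refine ⟨δ / (‖w‖ + 1), by positivity, fun t' ht' => ?_⟩
        rw [Metric.mem_ball, Real.dist_eq] at ht'
        have h1 := hloc ((t' - t) • w) (by
          rw [norm_smul, Real.norm_eq_abs]
          have h2 : |t' - t| * ‖w‖ ≤ |t' - t| * (‖w‖ + 1) :=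
            mul_le_mul_of_nonneg_left (by linarith) (abs_nonneg _)
          have h3 : |t' - t| * (‖w‖ + 1) < δ / (‖w‖ + 1) * (‖w‖ + 1) :=
            mul_lt_mul_of_pos_right ht' (by positivity)
          rw [div_mul_cancel₀ _ (by positivity)] at h3
          linarith) (by rw [map_smul, hlw, smul_zero])
        change q' + t' • w ∈ frontier Q
        have h4 : q' + t • w + (t' - t) • w = q' + t' • w := by module
        rwa [h4] at h1
      have huniv : {t : ℝ | q' + t • w ∈ frontier Q} = univ :=
        IsClopen.eq_univ ⟨hclosed, hopen⟩ ⟨0, by simpa using hq'⟩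
      intro t
      have : t ∈ {t : ℝ | q' + t • w ∈ frontier Q} := by rw [huniv]; trivial
      exact this
    have hlineQ : ∀ t : ℝ, q' + t • w ∈ Q := fun t => by
      have := hline t
      rw [hfr] at this
      exact this.1
    have lim : ∀ σ : ℝ, σ • w ∈ Q := by
      intro σ
      have h1 : ∀ n : ℕ, (1 / ((n : ℝ) + 1)) • q' + σ • w ∈ Q := by
        intro n
        have hn : (0 : ℝ) < (n : ℝ) + 1 := by positivity
        have h2 := hQ.smul_mem (1 / ((n : ℝ) + 1)) (by positivity) _
          (hlineQ (((n : ℝ) + 1) * σ))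
        rw [smul_add, smul_smul] at h2
        have h3 : 1 / ((n : ℝ) + 1) * (((n : ℝ) + 1) * σ) = σ := by
          field_simp
        rwa [h3] at h2
      have h2 : Tendsto (fun n : ℕ => (1 / ((n : ℝ) + 1)) • q' + σ • w) atTop
          (𝓝 ((0 : ℝ) • q' + σ • w)) :=
        ((tendsto_one_div_add_atTop_nhds_zero_nat (𝕜 := ℝ)).smul_const q').add_const _
      have h3 := hQ.closed.mem_of_tendsto h2 (Eventually.of_forall h1)
      rwa [zero_smul, zero_add] at h3
    have hw0 : w = 0 := hQ.salient w (by simpa using lim 1) (by simpa using lim (-1))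
    have : e.coord 2 w = 0 := by rw [hw0, map_zero]
    rw [w2] at this
    exact one_ne_zero this
  -- conclusion
  refine ⟨QuadraticMap.linMulLin (e.coord 1) (e.coord 1) -
    (2 : ℝ) • QuadraticMap.linMulLin (e.coord 0) (e.coord 2) -
    β • QuadraticMap.linMulLin (e.coord 2) (e.coord 2), ?_, ?_⟩
  · intro h
    have h1 := congrArg (fun F : QuadraticForm ℝ V => F (e 1)) h
    simp only [sub_apply, smul_apply, QuadraticMap.linMulLin_apply,
      c11, c01, c21] at h1
    norm_num at h1
  · intro z hz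
    have h1 := main z hz
    rw [hΦ] at h1
    simp only [sub_apply, smul_apply, QuadraticMap.linMulLin_apply,
      smul_eq_mul]
    linarith

end Pool.Agent.Helper438.Proj
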