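import Pool.Agent.Helper438.Proj.Defs

namespace Pool.Agent.Helper438.Proj.SN

open Set Filter Topology

private theorem n1_inner {Q : Set V} {v : V} (hv : v ∈ interior Q) (u : V) :
    ∃ ε : ℝ, 0 < ε ∧ v - ε • u ∈ Q := by
  have h1 : Tendsto (fun ε : ℝ => v - ε • u) (𝓝 0) (𝓝 v) := by
    have h : Continuous fun ε : ℝ => v - ε • u := continuous_const.sub (continuous_id.smul continuous_const)
    simpa using h.tendsto 0
  have h2 : ∀ᶠ ε : ℝ in 𝓝 0, v - ε • u ∈ Q := h1.eventually (mem_interior_iff_mem_nhds.1 hv)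
  have h3 : ∀ᶠ ε : ℝ in 𝓝[>] 0, v - ε • u ∈ Q ∧ 0 < ε :=
    (h2.filter_mono nhdsWithin_le_nhds).and self_mem_nhdsWithin
  obtain ⟨ε, h4, h5⟩ := h3.exists
  exact ⟨ε, h5, h4⟩

private theorem n1_pos {Q Q' : Set V} {e : Module.Basis (Fin 3) ℝ V}
    (hQ' : Q' = {z | ∀ i, 0 ≤ e.repr z i}) {L : EndV} (hL : Maps L Q Q') {v : V}
    (hv : v ∈ interior Q) (i : Fin 3) : 0 < e.repr (L v) i := by
  obtain ⟨⟨⟨L, N, hLN, hNL⟩, rfl⟩, hm⟩ := hL
  obtain ⟨ε, hε, h⟩ := n1_inner hv (N (e i))
  have h1 := (hm _).1 h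
  rw [hQ'] at h1
  have h2 := h1 i
  have h3 : L (N (e i)) = e i := by
    have := congrArg (fun f : EndV => f (e i)) hLN
    simpa using this
  have h4 : L (v - ε • N (e i)) = L v - ε • e i := by rw [map_sub, map_smul, h3]
  change 0 ≤ e.repr (L (v - ε • N (e i))) i at h2
  rw [h4] at h2
  simp only [map_sub, map_smul, Module.Basis.repr_self, Finsupp.coe_sub, Finsupp.coe_smul,
    Pi.sub_apply, Pi.smul_apply, Finsupp.single_eq_same, smul_eq_mul, mul_one] at h2
  show 0 < e.repr (L v) i
  linarith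

private noncomputable def n1D (e : Module.Basis (Fin 3) ℝ V) (c : Fin 3 → ℝ) : EndV :=
  LinearMap.toContinuousLinearMap (e.constr ℝ (fun i => c i • e i))

private theorem n1_repr_D (e : Module.Basis (Fin 3) ℝ V) (c : Fin 3 → ℝ) (z : V) (i : Fin 3) :
    e.repr (n1D e c z) i = c i * e.repr z i := by
  unfold n1D
  rw [LinearMap.coe_toContinuousLinearMap', Module.Basis.constr_apply_fintype]
  simp only [map_sum, map_smul, Module.Basis.repr_self, Finsupp.coe_finsetSum, Finset.sum_apply,
    Finsupp.coe_smul, Pi.smul_apply, smul_eq_mul, Module.Basis.equivFun_apply]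
  rw [Finset.sum_eq_single i]
  · simp [mul_comm]
  · intro j _ hj
    rw [Finsupp.single_eq_of_ne hj.symm]
    ring
  · intro h; exact absurd (Finset.mem_univ _) h

private theorem n1_D_unit (e : Module.Basis (Fin 3) ℝ V) {c : Fin 3 → ℝ} (hc : ∀ i, c i ≠ 0) :
    IsUnit (n1D e c) := by
  have key : ∀ c : Fin 3 → ℝ, (∀ i, c i ≠ 0) → n1D e c * n1D e (fun i => (c i)⁻¹) = 1 := by
    intro c hc
    refine ContinuousLinearMap.ext fun z => ?_
    apply e.repr.injective
    ext i
    show e.repr (n1D e c (n1D e (fun i => (c i)⁻¹) z)) i = e.repr z i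
    rw [n1_repr_D, n1_repr_D, ← mul_assoc, mul_inv_cancel₀ (hc i), one_mul]
  refine ⟨⟨n1D e c, n1D e (fun i => (c i)⁻¹), key c hc, ?_⟩, rfl⟩
  have := key (fun i => (c i)⁻¹) (fun i => inv_ne_zero (hc i))
  simpa using this

/-- TARGET N1. -/
theorem simplicial_marked {Q Q' : Set V} (hQ' : Simplicial Q') (L : EndV)
    (hL : Maps L Q Q') {v v' : V} (hv : v ∈ interior Q) (hv' : v' ∈ interior Q') :
    ∃ M : EndV, Maps M Q Q' ∧ M v = v' := by
  obtain ⟨e, he⟩ := hQ'
  have ha : ∀ i, 0 < e.repr (L v) i := n1_pos he hL hv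
  have hb : ∀ i, 0 < e.repr v' i := by
    intro i
    have h1 : Maps (1 : EndV) Q' Q' := ⟨isUnit_one, fun z => by simp⟩
    have := n1_pos he h1 hv' i
    simpa using this
  have hc : ∀ i, 0 < e.repr v' i / e.repr (L v) i := fun i => div_pos (hb i) (ha i)
  refine ⟨n1D e (fun i => e.repr v' i / e.repr (L v) i) * L, ⟨?_, fun z => ?_⟩, ?_⟩
  · exact (n1_D_unit e (fun i => (hc i).ne')).mul hL.1
  · rw [hL.2 z, he, Set.mem_setOf_eq, Set.mem_setOf_eq]
    refine forall_congr' fun i => ?_
    rw [ContinuousLinearMap.mul_apply, n1_repr_D]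
    constructor
    · intro h; exact mul_nonneg (hc i).le h
    · intro h; exact nonneg_of_mul_nonneg_right h (hc i)
  · apply e.repr.injective
    ext i
    rw [ContinuousLinearMap.mul_apply, n1_repr_D, div_mul_cancel₀ _ (ha i).ne']

/-- TARGET N2. -/
theorem simplicial_discrete {Q : Set V} (hQ : Simplicial Q) {v : V} (hv : v ∈ interior Q) :
    ∃ r > 0, ∀ L : EndV, Maps L Q Q → L v = v → ‖L - 1‖ < r → L = 1 := by
  obtain ⟨e, he⟩ := hQ
  have hev : ∀ᶠ L : EndV in 𝓝 1, ∀ j, 0 < e.repr (L (e j)) j := by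
    rw [eventually_all]
    intro j
    have hcont : Continuous fun L : EndV => e.repr (L (e j)) j := by
      have h1 : Continuous fun L : EndV => L (e j) :=
        (ContinuousLinearMap.apply ℝ V (e j)).continuous
      have h2 : Continuous fun z : V => e.repr z j := by
        have : (fun z : V => e.repr z j) = fun z => (e.coord j) z := by
          funext z; rfl
        rw [this]
        exact LinearMap.continuous_of_finiteDimensional _
      exact h2.comp h1
    have h0 : (0 : ℝ) < e.repr ((1 : EndV) (e j)) j := by simp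
    exact hcont.continuousAt.eventually (lt_mem_nhds h0)
  obtain ⟨r, hr, hr'⟩ := Metric.eventually_nhds_iff.1 hev
  refine ⟨r, hr, fun L hL hLv hLr => ?_⟩
  have hmp : ∀ j, 0 < e.repr (L (e j)) j := hr' (by rw [dist_eq_norm]; exact hLr)
  have hvp : ∀ i, 0 < e.repr v i := by
    intro i
    have := n1_pos he hL hv i
    rwa [hLv] at this
  obtain ⟨⟨⟨L, N, hLN, hNL⟩, rfl⟩, hm⟩ := hL
  change ∀ j, 0 < e.repr (L (e j)) j at hmp
  change L v = v at hLv
  change ∀ z, z ∈ Q ↔ L z ∈ Q at hm
  show L = 1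
  have hLN' : ∀ z, L (N z) = z := fun z => by
    have := congrArg (fun f : EndV => f z) hLN
    simpa using this
  have hNL' : ∀ z, N (L z) = z := fun z => by
    have := congrArg (fun f : EndV => f z) hNL
    simpa using this
  have heQ : ∀ i, e i ∈ Q := by
    intro i
    rw [he]
    intro j
    rw [Module.Basis.repr_self, Finsupp.single_apply]
    split_ifs <;> norm_num
  have hm0 : ∀ i j, 0 ≤ e.repr (L (e i)) j := by
    intro i j
    have h1 := (hm _).1 (heQ i)
    rw [he] at h1
    exact h1 j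
  have hn0 : ∀ i j, 0 ≤ e.repr (N (e i)) j := by
    intro i j
    have h1 : N (e i) ∈ Q := by
      rw [hm, hLN']
      exact heQ i
    rw [he] at h1
    exact h1 j
  have hsum : ∀ i k, ∑ j, e.repr (N (e j)) k * e.repr (L (e i)) j = e.repr (e i) k := by
    intro i k
    have h1 : L (e i) = ∑ j, e.repr (L (e i)) j • e j := (e.sum_repr _).symm
    have h2 : e.repr (N (L (e i))) k = ∑ j, e.repr (N (e j)) k * e.repr (L (e i)) j := by
      conv_lhs => rw [h1]
      simp only [map_sum, map_smul, Finsupp.coe_finsetSum, Finset.sum_apply, Finsupp.coe_smul,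
        Pi.smul_apply, smul_eq_mul]
      exact Finset.sum_congr rfl fun j _ => mul_comm _ _
    rw [← h2, hNL']
  have hterm : ∀ i k, k ≠ i → ∀ j, e.repr (N (e j)) k * e.repr (L (e i)) j = 0 := by
    intro i k hki j
    have h1 := hsum i k
    rw [Module.Basis.repr_self, Finsupp.single_eq_of_ne hki] at h1
    exact (Finset.sum_eq_zero_iff_of_nonneg
      (fun j _ => mul_nonneg (hn0 j k) (hm0 i j))).1 h1 j (Finset.mem_univ _)
  have hoff : ∀ i j, j ≠ i → e.repr (L (e i)) j = 0 := by
    intro i j hji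
    by_contra hne
    have hall : ∀ k, e.repr (N (e j)) k = 0 := by
      intro k
      by_cases hk : k = i
      · have hkj : k ≠ j := by rw [hk]; exact hji.symm
        exact (mul_eq_zero.1 (hterm j k hkj j)).resolve_right (hmp j).ne'
      · exact (mul_eq_zero.1 (hterm i k hk j)).resolve_right hne
    have hNz : N (e j) = 0 := by
      apply e.repr.injective
      ext k
      rw [hall k]
      simp
    have h1 := hLN' (e j)
    rw [hNz, map_zero] at h1
    exact e.ne_zero j h1.symm
  have hLe : ∀ i, L (e i) = e.repr (L (e i)) i • e i := by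
    intro i
    conv_lhs => rw [← e.sum_repr (L (e i))]
    rw [Finset.sum_eq_single i]
    · intro j _ hj
      rw [hoff i j hj, zero_smul]
    · intro h; exact absurd (Finset.mem_univ _) h
  have hone : ∀ i, e.repr (L (e i)) i = 1 := by
    intro i
    have h1 : e.repr (L v) i = e.repr v i * e.repr (L (e i)) i := by
      conv_lhs => rw [← e.sum_repr v]
      simp only [map_sum, map_smul, Finsupp.coe_finsetSum, Finset.sum_apply, Finsupp.coe_smul,
        Pi.smul_apply, smul_eq_mul]
      rw [Finset.sum_eq_single i]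
      · intro j _ hj
        rw [hoff j i hj.symm, mul_zero]
      · intro h; exact absurd (Finset.mem_univ _) h
    rw [hLv] at h1
    have h2 := (hvp i).ne'
    field_simp at h1
    linarith
  have hlin : (L : V →ₗ[ℝ] V) = LinearMap.id := by
    apply e.ext
    intro i
    show L (e i) = e i
    rw [hLe i, hone i, one_smul]
  refine ContinuousLinearMap.ext fun z => ?_
  have := congrArg (fun f : V →ₗ[ℝ] V => f z) hlin
  simpa using this

end Pool.Agent.Helper438.Proj.SN
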