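import Pool.Agent.Helper438.Proj.Defs
import Pool.Agent.Helper438.Proj.SolC
import Pool.Agent.Helper438.Proj.SolD
import Pool.Agent.Helper438.Proj.SolG
import Pool.Agent.Helper438.Proj.SolI
import Pool.Agent.Helper438.Proj.SolJ
import Pool.Agent.Helper438.Proj.SolK
import Pool.Agent.Helper438.Proj.SolM
import Pool.Agent.Helper438.Proj.SolN
import Pool.Agent.Helper438.Proj.SolA1
import Pool.Agent.Helper438.Proj.SolA2

namespace Pool.Agent.Helper438.Proj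

open Set Filter Topology

theorem lie_one {Q : Set V} (hQ : IsPC Q) : (1 : EndV) ∈ Lie Q := SG.lie_one hQ

theorem lie_smul {Q : Set V} {X : EndV} (hX : X ∈ Lie Q) (c : ℝ) : c • X ∈ Lie Q :=
  SG.lie_smul hX c

theorem lie_add {Q : Set V} (hQ : IsPC Q) {X Y : EndV} (hX : X ∈ Lie Q) (hY : Y ∈ Lie Q) :
    X + Y ∈ Lie Q := SG.lie_add hQ hX hY

theorem exists_nonscalar {Q : Set V} (hQ : IsPC Q) (L : ℕ → EndV)
    (h1 : ∀ n, Maps (L n) Q Q) (hd : ∀ n, |(L n).det| = 1) (hne : ∀ n, L n ≠ 1)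
    (hl : Tendsto L atTop (𝓝 1)) : ∃ Z ∈ Lie Q, ∀ c : ℝ, Z ≠ c • (1 : EndV) :=
  SG.exists_nonscalar hQ L h1 hd hne hl

theorem conic_of_fixed_interior {Q : Set V} (hQ : IsPC Q) {Z : EndV} (hZ : Z ∈ Lie Q)
    (hns : ∀ c : ℝ, Z ≠ c • (1 : EndV)) {v : V} (hv : v ∈ interior Q) (c : ℝ)
    (hZv : Z v = c • v) : Conic Q := SI.conic_of_fixed_interior hQ hZ hns hv c hZv

theorem lie_dep {Q : Set V} (hQ : IsPC Q) {Y Z : EndV} (hY : Y ∈ Lie Q) (hZ : Z ∈ Lie Q)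
    {q : V} (hq : q ∈ frontier Q) : ¬ LinearIndependent ℝ ![q, Y q, Z q] :=
  SJ.lie_dep hQ hY hZ hq

theorem exists_moved {Q : Set V} (hQ : IsPC Q) {Y : EndV} (hns : ∀ c : ℝ, Y ≠ c • (1 : EndV)) :
    ∃ q ∈ frontier Q, q ≠ 0 ∧ ∀ c : ℝ, Y q ≠ c • q := SJ.exists_moved hQ hns

theorem flat_case {Q : Set V} (hQ : IsPC Q) {Y Z : EndV} (hY : Y ∈ Lie Q) (hZ : Z ∈ Lie Q)
    (hZns : ∀ c : ℝ, Z ≠ c • (1 : EndV)) {q : V} (hq : q ∈ frontier Q) (hq0 : q ≠ 0)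
    (hYq : ∀ c : ℝ, Y q ≠ c • q) (c0 : ℝ) (hZq : Z q = c0 • q)
    (hflat : ¬ LinearIndependent ℝ ![q, Y q, Y (Y q)])
    (hdep : ∀ z ∈ frontier Q, ¬ LinearIndependent ℝ ![z, Y z, Z z]) : Simplicial Q :=
  SK.flat_case hQ hY hZ hZns hq hq0 hYq c0 hZq hflat hdep

theorem simplicial_marked {Q Q' : Set V} (hQ' : Simplicial Q') (L : EndV)
    (hL : Maps L Q Q') {v v' : V} (hv : v ∈ interior Q) (hv' : v' ∈ interior Q') :
    ∃ M : EndV, Maps M Q Q' ∧ M v = v' := SN.simplicial_marked hQ' L hL hv hv'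

theorem simplicial_discrete {Q : Set V} (hQ : Simplicial Q) {v : V} (hv : v ∈ interior Q) :
    ∃ r > 0, ∀ L : EndV, Maps L Q Q → L v = v → ‖L - 1‖ < r → L = 1 :=
  SN.simplicial_discrete hQ hv

theorem gauge_quadratic (K : Set (EuclideanSpace ℝ (Fin 3))) (hc : Convex ℝ K)
    (hK : IsCompact K) (h0 : (0 : EuclideanSpace ℝ (Fin 3)) ∈ interior K)
    (h : ∀ A B : EuclideanSpace ℝ (Fin 3), LinearIndependent ℝ ![A, B] →
      ∃ Φ : QuadraticForm ℝ (Fin 3 → ℝ), Φ ≠ 0 ∧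
        ∀ x y : ℝ, Φ ![x, y, gauge K (x • A + y • B)] = 0) :
    ∃ (q : QuadraticForm ℝ (EuclideanSpace ℝ (Fin 3))) (l : EuclideanSpace ℝ (Fin 3) →ₗ[ℝ] ℝ),
      (∀ x, x ≠ 0 → 0 < q x) ∧ K = {x | q x + l x ≤ 1} :=
  SA1.gauge_quadratic K hc hK h0 h

theorem ellipsoid_normal_form (q : QuadraticForm ℝ (EuclideanSpace ℝ (Fin 3)))
    (hq : ∀ x, x ≠ 0 → 0 < q x) (l : EuclideanSpace ℝ (Fin 3) →ₗ[ℝ] ℝ) :
    ∃ A : EuclideanSpace ℝ (Fin 3) ≃ᵃ[ℝ] EuclideanSpace ℝ (Fin 3),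
      {x | q x + l x ≤ 1} = ⇑A '' Metric.closedBall (0 : EuclideanSpace ℝ (Fin 3)) 1 :=
  SA2.ellipsoid_normal_form q hq l

end Pool.Agent.Helper438.Proj
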