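import Pool.Agent.Helper438.Proj.Frames
import Pool.Agent.Helper438.Proj.Pkg

namespace Pool.Agent.Helper438.Proj

open Set Filter Topology

theorem mem_Qb {K : Set E3} {b : ℝ × ℝ} {z : V} :
    z ∈ Qb K b ↔ gauge K (z 0 • fA b + z 1 • fB b) ≤ z 2 := Iff.rfl

theorem isPC_Qb {K : Set E3} (hK : Body K) (b : ℝ × ℝ) : IsPC (Qb K b) := hK.isPC (frame_li b)

theorem v0_int {K : Set E3} (hK : Body K) (b : ℝ × ℝ) : v0 ∈ interior (Qb K b) :=
  v0_mem hK _ _

theorem jcont {K : Set E3} (hK : Body K) :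
    Continuous (fun p : (ℝ × ℝ) × V => gauge K (p.2 0 • fA p.1 + p.2 1 • fB p.1)) := by
  apply hK.cont.comp
  have := cont_fA
  have := cont_fB
  fun_prop

theorem one_dir {K : Set E3} (hK : Body K) (a b : ℕ → ℝ × ℝ) (L : ℕ → EndV) (a0 b0 : ℝ × ℝ)
    (L0 : EndV) (ha : Tendsto a atTop (𝓝 a0)) (hb : Tendsto b atTop (𝓝 b0))
    (hL : Tendsto L atTop (𝓝 L0)) (h : ∀ n, ∀ z ∈ Qb K (a n), L n z ∈ Qb K (b n)) :
    ∀ z ∈ Qb K a0, L0 z ∈ Qb K b0 := by
  intro z hz
  -- approximate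
  have key : ∀ ε : ℝ, 0 < ε → L0 (z + ε • v0) ∈ Qb K b0 := by
    intro ε hε
    set y := z + ε • v0 with hy
    have hy1 : gauge K (y 0 • fA a0 + y 1 • fB a0) < y 2 := by
      have : y ∈ interior (Qb K a0) := by
        rw [show Qb K a0 = Qf K (fA a0) (fB a0) from rfl, hK.mem_interior_iff]
        have e0 : y 0 = z 0 := by
          show z 0 + ε * 0 = z 0
          ring
        have e1 : y 1 = z 1 := by
          show z 1 + ε * 0 = z 1
          ring
        have e2 : y 2 = z 2 + ε := by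
          show z 2 + ε * 1 = z 2 + ε
          ring
        rw [e0, e1, e2]
        have := mem_Qb.mp hz
        linarith
      rwa [show Qb K a0 = Qf K (fA a0) (fB a0) from rfl, hK.mem_interior_iff] at this
    have h1 : Tendsto (fun n => gauge K (y 0 • fA (a n) + y 1 • fB (a n))) atTop
        (𝓝 (gauge K (y 0 • fA a0 + y 1 • fB a0))) := by
      have := ((jcont hK).tendsto (a0, y)).comp (ha.prodMk_nhds (tendsto_const_nhds (x := y)))
      exact this
    have h2 : ∀ᶠ n in atTop, y ∈ Qb K (a n) := by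
      filter_upwards [h1.eventually (gt_mem_nhds hy1)] with n hn
      exact mem_Qb.mpr hn.le
    have h3 : ∀ᶠ n in atTop, gauge K ((L n y) 0 • fA (b n) + (L n y) 1 • fB (b n)) ≤ (L n y) 2 := by
      filter_upwards [h2] with n hn
      exact mem_Qb.mp (h n y hn)
    have hLy : Tendsto (fun n => L n y) atTop (𝓝 (L0 y)) :=
      ((ContinuousLinearMap.apply ℝ V y).continuous.tendsto L0).comp hL
    have h4 : Tendsto (fun n => gauge K ((L n y) 0 • fA (b n) + (L n y) 1 • fB (b n))) atTop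
        (𝓝 (gauge K ((L0 y) 0 • fA b0 + (L0 y) 1 • fB b0))) := by
      have := ((jcont hK).tendsto (b0, L0 y)).comp (hb.prodMk_nhds hLy)
      exact this
    have h5 : Tendsto (fun n => (L n y) 2) atTop (𝓝 ((L0 y) 2)) :=
      ((continuous_apply 2).tendsto (L0 y)).comp hLy
    exact mem_Qb.mpr (le_of_tendsto_of_tendsto h4 h5 h3)
  have hcl := (isPC_Qb hK b0).closed
  have ht : Tendsto (fun n : ℕ => L0 (z + (1 / ((n : ℝ) + 1)) • v0)) atTop (𝓝 (L0 z)) := by
    have h3 : Tendsto (fun n : ℕ => (1 / ((n : ℝ) + 1))) atTop (𝓝 0) :=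
      tendsto_one_div_add_atTop_nhds_zero_nat
    have h4 : Tendsto (fun n : ℕ => z + (1 / ((n : ℝ) + 1)) • v0) atTop (𝓝 z) := by
      have := (h3.smul_const v0).const_add z
      simpa using this
    exact (L0.continuous.tendsto z).comp h4
  exact hcl.mem_of_tendsto ht (Eventually.of_forall fun n => key _ (by positivity))

theorem unit_inv_left {L : EndV} (h : IsUnit L) (z : V) : Ring.inverse L (L z) = z := by
  have := congrArg (fun M : EndV => M z) (Ring.inverse_mul_cancel L h)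
  exact this

theorem unit_inv_right {L : EndV} (h : IsUnit L) (z : V) : L (Ring.inverse L z) = z := by
  have := congrArg (fun M : EndV => M z) (Ring.mul_inverse_cancel L h)
  exact this

theorem unit_inv_unit {L : EndV} (h : IsUnit L) : IsUnit (Ring.inverse L) := by
  obtain ⟨u, rfl⟩ := h
  rw [Ring.inverse_unit]
  exact u⁻¹.isUnit

theorem Maps.inv {L : EndV} {Q Q' : Set V} (h : Maps L Q Q') : Maps (Ring.inverse L) Q' Q := by
  refine ⟨unit_inv_unit h.1, fun z => ?_⟩
  rw [h.2 (Ring.inverse L z), unit_inv_right h.1]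

theorem Maps.mul {L M : EndV} {Q Q' Q'' : Set V} (h : Maps L Q Q') (h' : Maps M Q' Q'') :
    Maps (M * L) Q Q'' :=
  ⟨h'.1.mul h.1, fun z => (h.2 z).trans (h'.2 _)⟩

theorem Maps.one (Q : Set V) : Maps (1 : EndV) Q Q := ⟨isUnit_one, fun _ => Iff.rfl⟩

theorem maps_closed {K : Set E3} (hK : Body K) (a b : ℕ → ℝ × ℝ) (L : ℕ → EndV)
    (a0 b0 : ℝ × ℝ) (L0 : EndV) (ha : Tendsto a atTop (𝓝 a0)) (hb : Tendsto b atTop (𝓝 b0))
    (hL : Tendsto L atTop (𝓝 L0)) (h : ∀ n, Maps (L n) (Qb K (a n)) (Qb K (b n)))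
    (hu : IsUnit L0) : Maps L0 (Qb K a0) (Qb K b0) := by
  have h1 := one_dir hK a b L a0 b0 L0 ha hb hL (fun n z hz => ((h n).2 z).mp hz)
  have hinv : Tendsto (fun n => Ring.inverse (L n)) atTop (𝓝 (Ring.inverse L0)) := by
    obtain ⟨u, rfl⟩ := hu
    exact ((NormedRing.inverse_continuousAt u).tendsto).comp hL
  have h2 := one_dir hK b a (fun n => Ring.inverse (L n)) b0 a0 (Ring.inverse L0) hb ha hinv
    (fun n z hz => ((h n).inv.2 z).mp hz)
  refine ⟨hu, fun z => ⟨h1 z, fun hz => ?_⟩⟩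
  have := h2 _ hz
  rwa [unit_inv_left hu] at this

theorem lie_closed {K : Set E3} (hK : Body K) (b : ℕ → ℝ × ℝ) (Z : ℕ → EndV) (b0 : ℝ × ℝ)
    (Z0 : EndV) (hb : Tendsto b atTop (𝓝 b0)) (hZ : Tendsto Z atTop (𝓝 Z0))
    (h : ∀ n, Z n ∈ Lie (Qb K (b n))) : Z0 ∈ Lie (Qb K b0) := by
  intro t
  refine one_dir hK b b (fun n => NormedSpace.exp (t • Z n)) b0 b0 (NormedSpace.exp (t • Z0))
    hb hb ?_ (fun n z hz => h n t z hz)
  letI : NormedAlgebra ℚ EndV := NormedAlgebra.restrictScalars ℚ ℝ EndV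
  exact (hZ.const_smul t).exp

/-- Lie algebras are conjugate -/
theorem lie_conj {Q Q' : Set V} {L : EndV} (h : Maps L Q Q') {Z : EndV} (hZ : Z ∈ Lie Q) :
    L * Z * Ring.inverse L ∈ Lie Q' := by
  intro t x hx
  have h1 : NormedSpace.exp (t • (L * Z * Ring.inverse L)) =
      L * NormedSpace.exp (t • Z) * Ring.inverse L := by
    obtain ⟨u, hu⟩ := h.1
    letI : NormedAlgebra ℚ EndV := NormedAlgebra.restrictScalars ℚ ℝ EndV
    have h2 := NormedSpace.exp_units_conj u (t • Z)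
    rw [← hu, Ring.inverse_unit]
    rw [← h2]
    congr 1
    rw [mul_smul_comm, smul_mul_assoc]
  rw [h1]
  show L ((NormedSpace.exp (t • Z) : EndV) (Ring.inverse L x)) ∈ Q'
  rw [← h.2]
  exact hZ t _ ((h.inv.2 x).mp hx)

/-- a unit as a homeomorphism -/
noncomputable def unitHomeo {L : EndV} (h : IsUnit L) : V ≃ₜ V where
  toFun := L
  invFun := (Ring.inverse L : EndV)
  left_inv := unit_inv_left h
  right_inv := unit_inv_right h
  continuous_toFun := ContinuousLinearMap.continuous _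
  continuous_invFun := ContinuousLinearMap.continuous _

theorem Maps.interior {L : EndV} {Q Q' : Set V} (h : Maps L Q Q') (z : V) :
    z ∈ interior Q ↔ L z ∈ interior Q' := by
  have h1 : (unitHomeo h.1) ⁻¹' Q' = Q := by
    ext w
    exact (h.2 w).symm
  have h2 := (unitHomeo h.1).preimage_interior Q'
  rw [h1] at h2
  rw [← h2]
  rfl

theorem Maps.frontier {L : EndV} {Q Q' : Set V} (h : Maps L Q Q') (z : V) :
    z ∈ frontier Q ↔ L z ∈ frontier Q' := by
  have h1 : (unitHomeo h.1) ⁻¹' Q' = Q := by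
    ext w
    exact (h.2 w).symm
  have h2 := (unitHomeo h.1).preimage_frontier Q'
  rw [h1] at h2
  rw [← h2]
  rfl

theorem conic_of_maps {L : EndV} {Q Q' : Set V} (h : Maps L Q Q') (hC : Conic Q') : Conic Q := by
  obtain ⟨Φ, hΦ, hz⟩ := hC
  refine ⟨Φ.comp (L : V →ₗ[ℝ] V), ?_, ?_⟩
  · intro h0
    apply hΦ
    ext z
    have := congrArg (fun Ψ : QuadraticForm ℝ V => Ψ (Ring.inverse L z)) h0
    have e : (Φ.comp (L : V →ₗ[ℝ] V)) (Ring.inverse L z) = Φ (L (Ring.inverse L z)) := rfl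
    rw [unit_inv_right h.1] at e
    rw [← e]
    exact this
  · intro z hzf
    exact hz _ ((h.frontier z).mp hzf)

theorem simplicial_of_maps {L : EndV} {Q Q' : Set V} (h : Maps L Q Q') (hS : Simplicial Q) :
    Simplicial Q' := by
  obtain ⟨e, he⟩ := hS
  let E : V ≃ₗ[ℝ] V := LinearEquiv.ofLinear (L : V →ₗ[ℝ] V) ((Ring.inverse L : EndV) : V →ₗ[ℝ] V)
    (by ext1 i; ext1; exact unit_inv_right h.1 _) (by ext1 i; ext1; exact unit_inv_left h.1 _)
  refine ⟨e.map E, ?_⟩
  ext z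
  have h1 : z ∈ Q' ↔ Ring.inverse L z ∈ Q := by
    rw [h.2, unit_inv_right h.1]
  rw [h1, he]
  constructor
  · intro hz i
    have := hz i
    rw [Module.Basis.map_repr]
    exact this
  · intro hz i
    have := hz i
    rw [Module.Basis.map_repr] at this
    exact this

end Pool.Agent.Helper438.Proj
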