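import Mathlib

namespace Pool.Agent.Helper438.Proj

open Set Filter Topology

/-- coordinate space -/
abbrev V := Fin 3 → ℝ

/-- endomorphisms -/
abbrev EndV := V →L[ℝ] V

/-- `Q` is a closed convex cone with nonempty interior containing no line. -/
structure IsPC (Q : Set V) : Prop where
  closed : IsClosed Q
  convex : Convex ℝ Q
  smul_mem : ∀ c : ℝ, 0 ≤ c → ∀ x ∈ Q, c • x ∈ Q
  salient : ∀ x ∈ Q, -x ∈ Q → x = 0
  int_nonempty : (interior Q).Nonempty

/-- `L` is a linear isomorphism taking `Q` onto `Q'`. -/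
def Maps (L : EndV) (Q Q' : Set V) : Prop := IsUnit L ∧ ∀ z, z ∈ Q ↔ L z ∈ Q'

/-- generators of one-parameter groups preserving `Q` -/
def Lie (Q : Set V) : Set EndV := {Z | ∀ t : ℝ, ∀ x ∈ Q, (NormedSpace.exp (t • Z)) x ∈ Q}

/-- the boundary of `Q` lies in a quadric cone -/
def Conic (Q : Set V) : Prop :=
  ∃ Φ : QuadraticForm ℝ V, Φ ≠ 0 ∧ ∀ z ∈ frontier Q, Φ z = 0

/-- `Q` is generated by three linearly independent vectors -/
def Simplicial (Q : Set V) : Prop :=
  ∃ e : Module.Basis (Fin 3) ℝ V, Q = {z | ∀ i, 0 ≤ e.repr z i}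

end Pool.Agent.Helper438.Proj
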