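import Pool.Agent.Helper438.Proj.GrpdFalse

namespace Pool.Agent.Helper438.Proj

open Set Filter Topology

/-- `Z` spans the Lie algebra modulo scalars -/
def Gen (Q : Set V) (Z : EndV) : Prop :=
  Z ∈ Lie Q ∧ (∀ c : ℝ, Z ≠ c • (1 : EndV)) ∧ ∀ X ∈ Lie Q, ∃ a c : ℝ, X = a • (1 : EndV) + c • Z

/-- normalised generators -/
def Nrm (Q : Set V) (Z : EndV) : Prop := Z ∈ Lie Q ∧ ‖Z‖ = 1 ∧ (Z v0) 2 = 0

theorem gen_of_maps {Q Q' : Set V} {L : EndV} (hL : Maps L Q Q') {Z : EndV} (hZ : Gen Q Z) :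
    Gen Q' (L * Z * Ring.inverse L) := by
  obtain ⟨h1, h2, h3⟩ := hZ
  refine ⟨lie_conj hL h1, fun c hc => ?_, fun X hX => ?_⟩
  · apply h2 c
    have e1 : Ring.inverse L * (L * Z * Ring.inverse L) * L = Z := by
      rw [show Ring.inverse L * (L * Z * Ring.inverse L) * L =
        (Ring.inverse L * L) * Z * (Ring.inverse L * L) by simp only [mul_assoc],
        Ring.inverse_mul_cancel _ hL.1, one_mul, mul_one]
    rw [← e1, hc, mul_smul_comm, smul_mul_assoc, mul_one, Ring.inverse_mul_cancel _ hL.1]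
  · have h4 := lie_conj hL.inv hX
    obtain ⟨u, hu⟩ := hL.1
    have hinv : Ring.inverse (Ring.inverse L) = L := by
      rw [← hu, Ring.inverse_unit, Ring.inverse_unit, inv_inv]
    rw [hinv] at h4
    obtain ⟨a, c, hac⟩ := h3 _ h4
    refine ⟨a, c, ?_⟩
    have e1 : L * (Ring.inverse L * X * L) * Ring.inverse L = X := by
      rw [show L * (Ring.inverse L * X * L) * Ring.inverse L =
        (L * Ring.inverse L) * X * (L * Ring.inverse L) by simp only [mul_assoc],
        Ring.mul_inverse_cancel _ hL.1, one_mul, mul_one]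
    rw [← e1, hac]
    rw [mul_add, add_mul, mul_smul_comm, smul_mul_assoc, mul_one,
      Ring.mul_inverse_cancel _ hL.1, mul_smul_comm, smul_mul_assoc]

theorem nrm_nonscalar {Q : Set V} {Z : EndV} (hZ : Nrm Q Z) (c : ℝ) : Z ≠ c • (1 : EndV) := by
  intro h
  obtain ⟨-, h2, h3⟩ := hZ
  have : c = 0 := by
    rw [h] at h3
    have : (c • (1 : EndV)) v0 2 = c := by
      show c * 1 = c
      ring
    rw [this] at h3
    exact h3
  rw [h, this, zero_smul, norm_zero] at h2
  exact zero_ne_one h2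

theorem exists_nrm {Q : Set V} (hQ : IsPC Q) {Z : EndV} (hZ : Gen Q Z) : ∃ Z', Nrm Q Z' := by
  obtain ⟨h1, h2, h3⟩ := hZ
  set W : EndV := Z + (-((Z v0) 2)) • (1 : EndV) with hW
  have hWl : W ∈ Lie Q := lie_add hQ h1 (lie_smul (lie_one hQ) _)
  have hW2 : (W v0) 2 = 0 := by
    show (Z v0) 2 + (-((Z v0) 2)) * 1 = 0
    ring
  have hW0 : W ≠ 0 := by
    intro h
    apply h2 ((Z v0) 2)
    have : Z = W + ((Z v0) 2) • (1 : EndV) := by rw [hW]; module
    rw [h, zero_add] at this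
    exact this
  have hn : 0 < ‖W‖ := norm_pos_iff.mpr hW0
  refine ⟨‖W‖⁻¹ • W, lie_smul hWl _, ?_, ?_⟩
  · rw [norm_smul, norm_inv, norm_norm, inv_mul_cancel₀ hn.ne']
  · show ‖W‖⁻¹ * (W v0) 2 = 0
    rw [hW2, mul_zero]

/-- a nonscalar element with vanishing last coordinate is a multiple of a normalised one -/
theorem nrm_mul {Q : Set V} {Z0 : EndV} (hZ0 : Gen Q Z0) {Z : EndV} (hZ : Nrm Q Z) {X : EndV}
    (hX : X ∈ Lie Q) (hX2 : (X v0) 2 = 0) : ∃ c : ℝ, X = c • Z := by
  obtain ⟨a, c, hac⟩ := hZ0.2.2 _ hX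
  obtain ⟨a', c', hac'⟩ := hZ0.2.2 _ hZ.1
  have hc' : c' ≠ 0 := by
    intro h
    apply nrm_nonscalar hZ a'
    rw [hac', h, zero_smul, add_zero]
  have e1 : (c' : ℝ) * a - c * a' = 0 := by
    have h1 : c' • X - c • Z = (c' * a - c * a') • (1 : EndV) := by
      rw [hac, hac']; module
    have h2 := congrArg (fun M : EndV => (M v0) 2) h1
    have h3 : c' * (X v0) 2 - c * (Z v0) 2 = (c' * a - c * a') * 1 := h2
    rw [hX2, hZ.2.2] at h3
    linarith
  refine ⟨c / c', ?_⟩
  have h1 : c' • X = c • Z := by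
    have h1 : c' • X - c • Z = (c' * a - c * a') • (1 : EndV) := by
      rw [hac, hac']; module
    rw [e1, zero_smul] at h1
    exact sub_eq_zero.mp h1
  have h2 : X = c'⁻¹ • (c' • X) := by rw [smul_smul, inv_mul_cancel₀ hc', one_smul]
  rw [h2, h1, smul_smul]
  congr 1
  field_simp

theorem dim_one {K : Set E3} (hK : Body K) {Z0 : EndV} (hZ0 : Gen (Qb K (0, 0)) Z0)
    (hC : ¬ Conic (Qb K (0, 0))) (hne : ∀ a b, ∃ L, Maps L (Qb K a) (Qb K b)) : False := by
  classical
  have hgen : ∀ b, ∃ Z, Gen (Qb K b) Z := fun b => by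
    obtain ⟨L, hL⟩ := hne (0, 0) b
    exact ⟨_, gen_of_maps hL hZ0⟩
  have hnrm : ∀ b, ∃ Z, Nrm (Qb K b) Z := fun b => by
    obtain ⟨Z, hZ⟩ := hgen b
    exact exists_nrm (isPC_Qb hK b) hZ
  have hC' : ∀ b, ¬ Conic (Qb K b) := fun b h => by
    obtain ⟨L, hL⟩ := hne (0, 0) b
    exact hC (conic_of_maps hL h)
  let Zc : Set V → EndV := fun Q => if h : ∃ Z, Nrm Q Z then h.choose else 0
  have hZc : ∀ b, Nrm (Qb K b) (Zc (Qb K b)) := by
    intro b
    have h := hnrm b
    show Nrm (Qb K b) (if h : ∃ Z, Nrm (Qb K b) Z then h.choose else 0)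
    rw [dif_pos h]
    exact h.choose_spec
  let W : ℝ × ℝ → ℂ := fun b => (cw (Zc (Qb K b) v0)) ^ 2
  have hWdef : ∀ b, W b = (cw (Zc (Qb K b) v0)) ^ 2 := fun b => rfl
  -- well defined
  have hWany : ∀ b Z, Nrm (Qb K b) Z → W b = (cw (Z v0)) ^ 2 := by
    intro b Z hZ
    obtain ⟨G, hG⟩ := hgen b
    obtain ⟨c, hc⟩ := nrm_mul hG (hZc b) hZ.1 hZ.2.2
    have hcc : |c| = 1 := by
      have h1 := hZ.2.1
      rw [hc, norm_smul, (hZc b).2.1, mul_one, Real.norm_eq_abs] at h1
      exact h1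
    have hcc2 : c ^ 2 = 1 := by rw [← sq_abs, hcc, one_pow]
    have h2 : cw (Z v0) = c * cw (Zc (Qb K b) v0) := by
      rw [hc]
      apply Complex.ext
      · simp [cw]
      · simp [cw]
    rw [hWdef, h2, mul_pow]
    have : (c : ℂ) ^ 2 = 1 := by exact_mod_cast hcc2
    rw [this, one_mul]
  have hcont : Continuous W := by
    rw [continuous_iff_seqContinuous]
    intro b b0 hb
    apply tendsto_of_subseq_tendsto
    intro ns hns
    have hcpt : IsCompact (Metric.closedBall (0 : EndV) 1) := isCompact_closedBall _ _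
    obtain ⟨Z, -, φ, hφ, hlim⟩ := hcpt.tendsto_subseq
      (x := fun n => Zc (Qb K (b (ns n)))) (fun n => by
        rw [mem_closedBall_zero_iff, (hZc _).2.1])
    have hbφ : Tendsto (fun n => b (ns (φ n))) atTop (𝓝 b0) :=
      hb.comp (hns.comp hφ.tendsto_atTop)
    have hN : Nrm (Qb K b0) Z := by
      refine ⟨lie_closed hK _ _ b0 Z hbφ hlim (fun n => (hZc _).1), ?_, ?_⟩
      · have h1 := (continuous_norm.tendsto Z).comp hlim
        have h2 : Tendsto (fun _ : ℕ => (1 : ℝ)) atTop (𝓝 ‖Z‖) := by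
          refine h1.congr (fun n => ?_)
          exact (hZc _).2.1
        exact (tendsto_nhds_unique h2 tendsto_const_nhds)
      · have h1 : Tendsto (fun n => ((Zc (Qb K (b (ns (φ n))))) v0) 2) atTop (𝓝 ((Z v0) 2)) :=
          ((continuous_apply 2).tendsto _).comp
            (((ContinuousLinearMap.apply ℝ V v0).continuous.tendsto Z).comp hlim)
        have h2 : Tendsto (fun _ : ℕ => (0 : ℝ)) atTop (𝓝 ((Z v0) 2)) := by
          refine h1.congr (fun n => ?_)
          exact (hZc _).2.2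
        exact (tendsto_nhds_unique h2 tendsto_const_nhds)
    refine ⟨φ, ?_⟩
    rw [hWany b0 Z hN]
    have h1 : Tendsto (fun n => (cw ((Zc (Qb K (b (ns (φ n))))) v0)) ^ 2) atTop
        (𝓝 ((cw (Z v0)) ^ 2)) :=
      ((cw_cont.tendsto _).comp
        (((ContinuousLinearMap.apply ℝ V v0).continuous.tendsto Z).comp hlim)).pow 2
    exact h1
  have hW0 : ∀ b, W b ≠ 0 := by
    intro b h
    have h1 : cw (Zc (Qb K b) v0) = 0 := by
      rw [hWdef] at h
      exact pow_eq_zero_iff two_ne_zero |>.mp h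
    have h2 : Zc (Qb K b) v0 = (0 : ℝ) • v0 := by
      rw [zero_smul]
      ext i
      fin_cases i
      · exact congrArg Complex.re h1
      · exact congrArg Complex.im h1
      · exact (hZc b).2.2
    exact hC' b (conic_of_fixed_interior (isPC_Qb hK b) (hZc b).1 (nrm_nonscalar (hZc b))
      (v0_int hK b) 0 h2)
  -- behaviour at the top
  have htop : ∀ s : ℝ, ∃ c : ℝ, c ≠ 0 ∧
      cw (Zc (Qb K (s, Real.pi)) v0) = c * cw (sig s (Zc (Qb K (0, 0)) v0)) := by
    intro s
    set Z := Zc (Qb K (s, Real.pi)) with hZ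
    have hN : Nrm (Qb K (s, Real.pi)) Z := hZc _
    have hinv : Ring.inverse (sig s) = sig s := by
      have h1 := Ring.inverse_mul_cancel _ (sig_unit s)
      have h2 : Ring.inverse (sig s) * sig s * sig s = 1 * sig s := by rw [h1]
      rw [mul_assoc, sig_sq, mul_one, one_mul] at h2
      exact h2
    have hX := lie_conj (sig_maps K s) hN.1
    rw [hinv] at hX
    have hXv : (sig s * Z * sig s) v0 = sig s (Z v0) := by
      show sig s (Z (sig s v0)) = _
      rw [sig_v0]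
    obtain ⟨c, hc⟩ := nrm_mul hZ0 (hZc (0, 0)) hX (by
      rw [hXv, sig_apply]
      exact hN.2.2)
    have hcv : sig s (Z v0) = c • (Zc (Qb K (0, 0)) v0) := by
      rw [← hXv, hc]; rfl
    have hZv : Z v0 = c • sig s (Zc (Qb K (0, 0)) v0) := by
      have h1 : sig s (sig s (Z v0)) = Z v0 := by
        have := congrArg (fun M : EndV => M (Z v0)) (sig_sq s)
        exact this
      rw [← h1, hcv, map_smul]
    have hcc : c ≠ 0 := by
      intro h
      apply hW0 (s, Real.pi)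
      rw [hWdef, ← hZ, hZv, h, zero_smul]
      have : cw 0 = 0 := by apply Complex.ext <;> simp [cw]
      rw [this]; simp
    refine ⟨c, hcc, ?_⟩
    rw [hZv]
    apply Complex.ext
    · simp [cw]
    · simp [cw]
  choose c hc0 hc using htop
  refine no_twist W hcont hW0 ?_ ?_ 4 four_ne_zero (fun s => c s ^ 2)
    (fun s => by have := hc0 s; positivity) (((starRingEnd ℂ) (cw (Zc (Qb K (0, 0)) v0))) ^ 2) ?_
  · intro s t
    rw [hWdef, hWdef, Qb_per]
  · intro s
    rw [hWdef, hWdef, Qb_zero]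
  · intro s
    rw [hWdef, hc s, cw_sig]
    rw [mul_pow, mul_pow, ← Complex.exp_nat_mul]
    push_cast
    rw [show (2 : ℂ) * (2 * s * Complex.I) = 4 * s * Complex.I by ring]
    ring

end Pool.Agent.Helper438.Proj
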