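import Mathlib

namespace Pool.Agent.Helper438.Proj

open Set Filter Topology

section gen

variable {𝔸 : Type*} [NormedRing 𝔸] [NormedAlgebra ℝ 𝔸] [CompleteSpace 𝔸]

theorem gexp_add_smul (X : 𝔸) (s t : ℝ) :
    NormedSpace.exp ((s + t) • X) = NormedSpace.exp (s • X) * NormedSpace.exp (t • X) := by
  letI : NormedAlgebra ℚ 𝔸 := NormedAlgebra.restrictScalars ℚ ℝ 𝔸
  rw [add_smul]
  exact NormedSpace.exp_add_of_commute (((Commute.refl X).smul_left _).smul_right _)

theorem gexp_neg_mul_exp (X : 𝔸) (t : ℝ) :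
    NormedSpace.exp ((-t) • X) * NormedSpace.exp (t • X) = (1 : 𝔸) := by
  rw [← gexp_add_smul, neg_add_cancel, zero_smul, NormedSpace.exp_zero]

theorem gexp_mul_exp_neg (X : 𝔸) (t : ℝ) :
    NormedSpace.exp (t • X) * NormedSpace.exp ((-t) • X) = (1 : 𝔸) := by
  rw [← gexp_add_smul, add_neg_cancel, zero_smul, NormedSpace.exp_zero]

theorem gexp_mul_comm (X : 𝔸) (t : ℝ) :
    NormedSpace.exp (t • X) * X = X * NormedSpace.exp (t • X) := by
  letI : NormedAlgebra ℚ 𝔸 := NormedAlgebra.restrictScalars ℚ ℝ 𝔸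
  exact (((Commute.refl X).smul_left t).exp_left).eq

theorem ghasDerivAt_conj (Y W : 𝔸) (s : ℝ) :
    HasDerivAt (fun s : ℝ => NormedSpace.exp ((-s) • Y) * W * NormedSpace.exp (s • Y))
      (NormedSpace.exp ((-s) • Y) * (W * Y - Y * W) * NormedSpace.exp (s • Y)) s := by
  have h1 : HasDerivAt (fun s : ℝ => NormedSpace.exp (s • Y)) (Y * NormedSpace.exp (s • Y)) s :=
    hasDerivAt_exp_smul_const' (𝕂 := ℝ) Y s
  have h2 : HasDerivAt (fun s : ℝ => NormedSpace.exp ((-s) • Y))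
      (-(NormedSpace.exp ((-s) • Y) * Y)) s := by
    have h3 : HasDerivAt (fun s : ℝ => NormedSpace.exp (s • (-Y)))
        (NormedSpace.exp (s • (-Y)) * (-Y)) s := hasDerivAt_exp_smul_const (𝕂 := ℝ) (-Y) s
    have e : (fun s : ℝ => NormedSpace.exp ((-s) • Y)) = fun s : ℝ => NormedSpace.exp (s • (-Y)) := by
      funext s
      rw [smul_neg, neg_smul]
    rw [e]
    convert! h3 using 1
    rw [smul_neg, neg_smul, mul_neg]
  have h4 := (h2.mul_const W).mul h1
  convert! h4 using 1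
  generalize NormedSpace.exp ((-s) • Y) = E
  generalize NormedSpace.exp (s • Y) = F
  noncomm_ring

end gen

end Pool.Agent.Helper438.Proj
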