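import Pool.Agent.Helper438.Proj.Defs

namespace Pool.Agent.Helper438.Proj

open Set Filter Topology

abbrev E3 := EuclideanSpace ℝ (Fin 3)

/-- the cone over the central section spanned by `A`, `B` -/
def Qf (K : Set E3) (A B : E3) : Set V := {z | gauge K (z 0 • A + z 1 • B) ≤ z 2}

/-- standing hypotheses on the body -/
structure Body (K : Set E3) : Prop where
  convex : Convex ℝ K
  compact : IsCompact K
  zero : (0 : E3) ∈ interior K

namespace Body

variable {K : Set E3} (hK : Body K)
include hK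

theorem nhds : K ∈ 𝓝 (0 : E3) := mem_interior_iff_mem_nhds.mp hK.zero

theorem cont : Continuous (gauge K) := continuous_gauge hK.convex hK.nhds

theorem absorb : Absorbent ℝ K := absorbent_nhds_zero hK.nhds

theorem vonN : Bornology.IsVonNBounded ℝ K :=
  (NormedSpace.isVonNBounded_iff ℝ).mpr hK.compact.isBounded

theorem pos {x : E3} (hx : x ≠ 0) : 0 < gauge K x := (gauge_pos hK.absorb hK.vonN).mpr hx

theorem eq_zero {x : E3} : gauge K x = 0 ↔ x = 0 := gauge_eq_zero hK.absorb hK.vonN

theorem add (x y : E3) : gauge K (x + y) ≤ gauge K x + gauge K y :=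
  gauge_add_le hK.convex hK.absorb x y

theorem smul {c : ℝ} (hc : 0 ≤ c) (x : E3) : gauge K (c • x) = c * gauge K x := by
  rw [gauge_smul_of_nonneg hc, smul_eq_mul]

theorem frontier_iff {x : E3} : x ∈ frontier K ↔ gauge K x = 1 :=
  (gauge_eq_one_iff_mem_frontier hK.convex hK.nhds).symm

theorem contQ (A B : E3) : Continuous (fun z : V => gauge K (z 0 • A + z 1 • B)) :=
  hK.cont.comp (by fun_prop)

theorem int_sub (A B : E3) : {z : V | gauge K (z 0 • A + z 1 • B) < z 2} ⊆ interior (Qf K A B) := by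
  apply interior_maximal
  · intro z hz
    have hz' : gauge K (z 0 • A + z 1 • B) < z 2 := hz
    exact hz'.le
  · exact isOpen_lt (hK.contQ A B) (by fun_prop)

theorem closedQ (A B : E3) : IsClosed (Qf K A B) :=
  isClosed_le (hK.contQ A B) (by fun_prop)

theorem mem_interior_iff (A B : E3) (z : V) :
    z ∈ interior (Qf K A B) ↔ gauge K (z 0 • A + z 1 • B) < z 2 := by
  constructor
  · intro h
    by_contra hlt
    push Not at hlt
    have h0 : z ∈ Qf K A B := interior_subset h
    have h0' : gauge K (z 0 • A + z 1 • B) ≤ z 2 := h0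
    have h1 : gauge K (z 0 • A + z 1 • B) = z 2 := le_antisymm h0' hlt
    have h2 : Tendsto (fun n : ℕ => z - (1 / ((n : ℝ) + 1)) • (![0, 0, 1] : V)) atTop (𝓝 z) := by
      have h3 : Tendsto (fun n : ℕ => (1 / ((n : ℝ) + 1))) atTop (𝓝 0) :=
        tendsto_one_div_add_atTop_nhds_zero_nat
      have h4 := (h3.smul_const (![0, 0, 1] : V)).const_sub z
      simpa using h4
    have h3 := h2.eventually (mem_interior_iff_mem_nhds.mp h)
    obtain ⟨n, hn⟩ := h3.exists
    have hn' : gauge K ((z - (1 / ((n : ℝ) + 1)) • (![0, 0, 1] : V)) 0 • A +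
        (z - (1 / ((n : ℝ) + 1)) • (![0, 0, 1] : V)) 1 • B) ≤
        (z - (1 / ((n : ℝ) + 1)) • (![0, 0, 1] : V)) 2 := hn
    simp only [Pi.sub_apply, Pi.smul_apply, Matrix.cons_val_zero, Matrix.cons_val_one,
      Matrix.cons_val, smul_eq_mul, mul_zero, sub_zero, mul_one] at hn'
    rw [h1] at hn'
    have : (0:ℝ) < 1 / ((n : ℝ) + 1) := by positivity
    linarith
  · intro h
    exact hK.int_sub A B h

theorem mem_frontier_iff (A B : E3) (z : V) :
    z ∈ frontier (Qf K A B) ↔ gauge K (z 0 • A + z 1 • B) = z 2 := by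
  rw [(hK.closedQ A B).frontier_eq, Set.mem_sdiff, hK.mem_interior_iff]
  constructor
  · rintro ⟨h1, h2⟩
    exact le_antisymm h1 (not_lt.mp h2)
  · intro h
    exact ⟨le_of_eq h, not_lt.mpr (le_of_eq h.symm)⟩

theorem isPC {A B : E3} (hAB : LinearIndependent ℝ ![A, B]) : IsPC (Qf K A B) where
  closed := hK.closedQ A B
  convex := by
    intro x hx y hy a b ha hb hab
    show gauge K ((a • x + b • y) 0 • A + (a • x + b • y) 1 • B) ≤ (a • x + b • y) 2
    have e : (a • x + b • y) 0 • A + (a • x + b • y) 1 • B =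
        a • (x 0 • A + x 1 • B) + b • (y 0 • A + y 1 • B) := by
      simp only [Pi.add_apply, Pi.smul_apply, smul_eq_mul]
      module
    rw [e]
    have h1 := hK.add (a • (x 0 • A + x 1 • B)) (b • (y 0 • A + y 1 • B))
    rw [hK.smul ha, hK.smul hb] at h1
    have hx' : gauge K (x 0 • A + x 1 • B) ≤ x 2 := hx
    have hy' : gauge K (y 0 • A + y 1 • B) ≤ y 2 := hy
    have h2 := mul_le_mul_of_nonneg_left hx' ha
    have h3 := mul_le_mul_of_nonneg_left hy' hb
    simp only [Pi.add_apply, Pi.smul_apply, smul_eq_mul]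
    linarith
  smul_mem := by
    intro c hc x hx
    show gauge K ((c • x) 0 • A + (c • x) 1 • B) ≤ (c • x) 2
    have e : (c • x) 0 • A + (c • x) 1 • B = c • (x 0 • A + x 1 • B) := by
      simp only [Pi.smul_apply, smul_eq_mul]
      module
    rw [e, hK.smul hc]
    exact mul_le_mul_of_nonneg_left hx hc
  salient := by
    intro x hx hnx
    have h1 : gauge K (x 0 • A + x 1 • B) ≤ x 2 := hx
    have h2 : gauge K ((-x) 0 • A + (-x) 1 • B) ≤ (-x) 2 := hnx
    have g1 := gauge_nonneg (s := K) (x 0 • A + x 1 • B)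
    have g2 := gauge_nonneg (s := K) ((-x) 0 • A + (-x) 1 • B)
    simp only [Pi.neg_apply] at h2 g2
    have h3 : x 2 = 0 := by linarith
    have h4 : gauge K (x 0 • A + x 1 • B) = 0 := by linarith
    rw [hK.eq_zero] at h4
    rw [LinearIndependent.pair_iff] at hAB
    obtain ⟨h5, h6⟩ := hAB _ _ h4
    ext i
    fin_cases i
    · exact h5
    · exact h6
    · exact h3
  int_nonempty := by
    refine ⟨![0, 0, 1], ?_⟩
    rw [hK.mem_interior_iff]
    simp [gauge_zero]

theorem pos_of_mem {A B : E3} (hAB : LinearIndependent ℝ ![A, B]) {z : V} (hz : z ∈ Qf K A B)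
    (hz0 : z ≠ 0) : 0 < z 2 := by
  have h1 : gauge K (z 0 • A + z 1 • B) ≤ z 2 := hz
  have g1 := gauge_nonneg (s := K) (z 0 • A + z 1 • B)
  rcases (le_trans g1 h1).lt_or_eq with h | h
  · exact h
  · exfalso
    apply hz0
    have h4 : gauge K (z 0 • A + z 1 • B) = 0 := by linarith
    rw [hK.eq_zero] at h4
    rw [LinearIndependent.pair_iff] at hAB
    obtain ⟨h5, h6⟩ := hAB _ _ h4
    ext i
    fin_cases i
    · exact h5
    · exact h6
    · exact h.symm

end Body

end Pool.Agent.Helper438.Proj
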