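import Pool.Agent.Helper438.Proj.Nonflat

namespace Pool.Agent.Helper438.Proj

open Set Filter Topology

theorem li_coord {e : Module.Basis (Fin 3) ℝ V} {w : V} (hw : e.repr w 2 ≠ 0) :
    LinearIndependent ℝ ![e 0, e 1, w] := by
  rw [Fintype.linearIndependent_iff]
  intro g hg
  rw [Fin.sum_univ_three] at hg
  simp only [Matrix.cons_val_zero, Matrix.cons_val_one, Matrix.cons_val] at hg
  have h2 := congrArg (fun z => e.repr z 2) hg
  have h1 := congrArg (fun z => e.repr z 1) hg
  have h0 := congrArg (fun z => e.repr z 0) hg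
  simp only [map_add, map_smul, Module.Basis.repr_self, Finsupp.add_apply, Finsupp.smul_apply,
    smul_eq_mul, map_zero, Finsupp.coe_zero, Pi.zero_apply] at h0 h1 h2
  simp [Finsupp.single_apply] at h0 h1 h2
  have g2 : g 2 = 0 := by
    rcases h2 with h | h
    · exact h
    · exact absurd h hw
  rw [g2] at h0 h1
  intro i
  fin_cases i
  · simpa using h0
  · simpa using h1
  · exact g2

theorem nonflat_case {Q : Set V} (hQ : IsPC Q) {Y Z : EndV} (hY : Y ∈ Lie Q) (hZ : Z ∈ Lie Q)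
    (hZns : ∀ c : ℝ, Z ≠ c • (1 : EndV)) {q : V} (hq : q ∈ frontier Q) (c0 : ℝ)
    (hZq : Z q = c0 • q) (hnf : LinearIndependent ℝ ![q, Y q, Y (Y q)]) : Conic Q := by
  -- basis
  set b' : Module.Basis (Fin 3) ℝ V := basisOfLinearIndependentOfCardEqFinrank hnf (by simp) with hb'
  have hb0 : b' 0 = q := by rw [hb', coe_basisOfLinearIndependentOfCardEqFinrank]; rfl
  have hb1 : b' 1 = Y q := by rw [hb', coe_basisOfLinearIndependentOfCardEqFinrank]; rfl
  have hb2 : b' 2 = Y (Y q) := by rw [hb', coe_basisOfLinearIndependentOfCardEqFinrank]; rfl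
  obtain ⟨a1, a2, a3, ha⟩ : ∃ a1 a2 a3 : ℝ, Y (Y (Y q)) = a1 • q + a2 • Y q + a3 • Y (Y q) := by
    refine ⟨b'.repr (Y (Y (Y q))) 0, b'.repr (Y (Y (Y q))) 1, b'.repr (Y (Y (Y q))) 2, ?_⟩
    have := b'.sum_repr (Y (Y (Y q)))
    rw [Fin.sum_univ_three, hb0, hb1, hb2] at this
    exact this.symm
  set g := a3 / 3 with hg
  set Y1 : EndV := Y - g • (1 : EndV) with hY1
  set Z1 : EndV := Z - c0 • (1 : EndV) with hZ1
  have hY1L : Y1 ∈ Lie Q := lie_sub_smul_one hQ hY g
  have hZ1L : Z1 ∈ Lie Q := lie_sub_smul_one hQ hZ c0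
  have hY1a : ∀ z, Y1 z = Y z - g • z := fun z => rfl
  have hZ1a : ∀ z, Z1 z = Z z - c0 • z := fun z => rfl
  have hZ1q : Z1 q = 0 := by rw [hZ1a, hZq, sub_self]
  have hZ10 : Z1 ≠ 0 := by
    intro h
    apply hZns c0
    exact sub_eq_zero.mp h
  have hnf1 : LinearIndependent ℝ ![q, Y1 q, Y1 (Y1 q)] := by
    rw [Fintype.linearIndependent_iff] at hnf ⊢
    intro k hk
    rw [Fin.sum_univ_three] at hk
    simp only [Matrix.cons_val_zero, Matrix.cons_val_one, Matrix.cons_val, hY1a, map_sub,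
      map_smul] at hk
    have h1 := hnf ![k 0 - g * k 1 + g ^ 2 * k 2, k 1 - 2 * g * k 2, k 2] (by
      rw [Fin.sum_univ_three]
      simp only [Matrix.cons_val_zero, Matrix.cons_val_one, Matrix.cons_val]
      rw [← hk]
      module)
    have k2 := h1 2
    have k1 := h1 1
    have k0 := h1 0
    simp only [Matrix.cons_val_zero, Matrix.cons_val_one, Matrix.cons_val] at k0 k1 k2
    rw [k2] at k1 k0
    have k1' : k 1 = 0 := by linarith
    rw [k1'] at k0
    intro i
    fin_cases i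
    · show k 0 = 0
      linarith
    · exact k1'
    · exact k2
  set e : Module.Basis (Fin 3) ℝ V := basisOfLinearIndependentOfCardEqFinrank hnf1 (by simp) with he
  have he0 : e 0 = q := by rw [he, coe_basisOfLinearIndependentOfCardEqFinrank]; rfl
  have he1 : e 1 = Y1 q := by rw [he, coe_basisOfLinearIndependentOfCardEqFinrank]; rfl
  have he2 : e 2 = Y1 (Y1 q) := by rw [he, coe_basisOfLinearIndependentOfCardEqFinrank]; rfl
  have hY0 : Y1 (e 0) = e 1 := by rw [he0, he1]
  have hY1' : Y1 (e 1) = e 2 := by rw [he1, he2]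
  have hY2 : Y1 (e 2) = (a1 - g ^ 3 + (a2 + 3 * g ^ 2) * g) • e 0 + (a2 + 3 * g ^ 2) • e 1 := by
    rw [he0, he1, he2]
    simp only [hY1a, map_sub, map_smul]
    rw [ha]
    have : a3 = 3 * g := by rw [hg]; ring
    rw [this]
    module
  have hZe0 : Z1 (e 0) = 0 := by rw [he0, hZ1q]
  have hcoord : ∀ s : ℝ, e.repr ((NormedSpace.exp ((-s) • Y1) * Z1 * NormedSpace.exp (s • Y1) :
      EndV) (e 0)) 2 = 0 := by
    intro s
    by_contra hne
    have h1 := li_coord hne
    have h2 := lie_dep hQ hY1L hZ1L (exp_frontier hY1L s hq)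
    apply h2
    have h3 : LinearIndependent ℝ (fun i => (expHomeo Y1 s) ((![e 0, e 1,
        (NormedSpace.exp ((-s) • Y1) * Z1 * NormedSpace.exp (s • Y1) : EndV) (e 0)]) i)) := by
      have hinj : LinearMap.ker ((NormedSpace.exp (s • Y1) : EndV) : V →ₗ[ℝ] V) = ⊥ := by
        rw [LinearMap.ker_eq_bot]
        intro x y hxy
        exact (expHomeo Y1 s).injective hxy
      exact h1.map' _ hinj
    convert! h3 using 1
    funext i
    fin_cases i
    · show _ = (NormedSpace.exp (s • Y1) : EndV) (e 0)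
      rw [he0]; rfl
    · show Y1 ((NormedSpace.exp (s • Y1) : EndV) q) = (NormedSpace.exp (s • Y1) : EndV) (e 1)
      rw [he1]
      have := congrArg (fun L : EndV => L q) (gexp_mul_comm Y1 s)
      exact this.symm
    · show Z1 ((NormedSpace.exp (s • Y1) : EndV) q) = (NormedSpace.exp (s • Y1) : EndV)
        ((NormedSpace.exp ((-s) • Y1) * Z1 * NormedSpace.exp (s • Y1) : EndV) (e 0))
      have : (NormedSpace.exp ((-s) • Y1) * Z1 * NormedSpace.exp (s • Y1) : EndV) (e 0) =
        (NormedSpace.exp ((-s) • Y1) : EndV) (Z1 ((NormedSpace.exp (s • Y1) : EndV) (e 0))) := rfl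
      rw [this, exp_exp_neg_apply, he0]
  obtain ⟨hα, b, d, hbd, hZe1, hZe2⟩ := nonflat_algebra e _ _ hY0 hY1' hY2 hZe0 hcoord hZ10
  rw [hα, zero_smul, zero_add] at hY2
  exact nonflat_geom hQ e hY1L _ b d hbd hY0 hY1' hY2 hZe0 hZe1 hZe2
    (fun z hz => lie_dep hQ hY1L hZ1L hz)

theorem conic_or_simplicial {Q : Set V} (hQ : IsPC Q) {Y X : EndV} (hY : Y ∈ Lie Q)
    (hX : X ∈ Lie Q) (hYns : ∀ c : ℝ, Y ≠ c • (1 : EndV))
    (hind : ∀ a c : ℝ, X ≠ a • (1 : EndV) + c • Y) : Conic Q ∨ Simplicial Q := by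
  obtain ⟨q, hq, hq0, hYq⟩ := exists_moved hQ hYns
  have hpair : LinearIndependent ℝ ![q, Y q] := by
    rw [LinearIndependent.pair_iff]
    intro s t hst
    have ht : t = 0 := by
      by_contra ht
      apply hYq (-(s / t))
      have h1 : t • Y q = (-s) • q := by
        rw [neg_smul]; exact eq_neg_of_add_eq_zero_right hst
      have h2 : Y q = t⁻¹ • (t • Y q) := by rw [smul_smul, inv_mul_cancel₀ ht, one_smul]
      rw [h2, h1, smul_smul]
      congr 1
      field_simp
    rw [ht, zero_smul, add_zero] at hst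
    exact ⟨(smul_eq_zero.mp hst).resolve_right hq0, ht⟩
  have hd := lie_dep hQ hY hX hq
  obtain ⟨a, c, hac⟩ : ∃ a c : ℝ, X q = a • q + c • Y q := by
    have h1 : X q ∈ Submodule.span ℝ (Set.range ![q, Y q]) := by
      by_contra hnot
      apply hd
      have h2 := (linearIndependent_finSnoc (K := ℝ) (v := ![q, Y q]) (x := X q)).mpr ⟨hpair, hnot⟩
      convert! h2 using 1
      funext i
      fin_cases i <;> rfl
    rw [Matrix.range_cons, Matrix.range_cons, Matrix.range_empty, Set.union_empty,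
      Set.singleton_union, Submodule.mem_span_pair] at h1
    obtain ⟨a, c, h⟩ := h1
    exact ⟨a, c, h.symm⟩
  set Z : EndV := X + (-c) • Y with hZ
  have hZL : Z ∈ Lie Q := lie_add hQ hX (lie_smul hY _)
  have hZq : Z q = a • q := by
    show X q + (-c) • Y q = a • q
    rw [hac]; module
  have hZns : ∀ k : ℝ, Z ≠ k • (1 : EndV) := by
    intro k hk
    apply hind k c
    rw [← hk, hZ]
    module
  by_cases hflat : LinearIndependent ℝ ![q, Y q, Y (Y q)]
  · exact Or.inl (nonflat_case hQ hY hZL hZns hq a hZq hflat)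
  · exact Or.inr (flat_case hQ hY hZL hZns hq hq0 hYq a hZq hflat
      (fun z hz => lie_dep hQ hY hZL hz))

end Pool.Agent.Helper438.Proj
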