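import Pool.Agent.Helper438.Proj.DimOne
import Pool.Agent.Helper438.Proj.Two

namespace Pool.Agent.Helper438.Proj

open Set Filter Topology

theorem det_mul (M L : EndV) : (M * L).det = M.det * L.det := by
  show LinearMap.det ((M : V →ₗ[ℝ] V) * (L : V →ₗ[ℝ] V)) = _
  rw [map_mul]

theorem det_one' : (1 : EndV).det = 1 := by
  show LinearMap.det (LinearMap.id : V →ₗ[ℝ] V) = 1
  exact LinearMap.det_id

theorem det_smul' (c : ℝ) (L : EndV) : (c • L).det = c ^ 3 * L.det := by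
  show LinearMap.det (c • (L : V →ₗ[ℝ] V)) = _
  rw [LinearMap.det_smul]
  simp

theorem maps_of_equiv {Q Q' : Set V} (M : V ≃L[ℝ] V) (h : ∀ z, z ∈ Q ↔ M z ∈ Q') :
    Maps (M : EndV) Q Q' := by
  refine ⟨⟨⟨(M : EndV), (M.symm : EndV), ?_, ?_⟩, rfl⟩, h⟩
  · ext1 z; exact M.apply_symm_apply z
  · ext1 z; exact M.symm_apply_apply z

theorem maps_smul {Q Q' : Set V} (hQ' : IsPC Q') {L : EndV} (hL : Maps L Q Q') {c : ℝ}
    (hc : 0 < c) : Maps (c • L) Q Q' := by
  refine ⟨?_, fun z => ?_⟩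
  · obtain ⟨u, hu⟩ := hL.1
    refine ⟨⟨c • L, c⁻¹ • Ring.inverse L, ?_, ?_⟩, rfl⟩
    · rw [smul_mul_assoc, mul_smul_comm, smul_smul, mul_inv_cancel₀ hc.ne', one_smul,
        Ring.mul_inverse_cancel _ hL.1]
    · rw [smul_mul_assoc, mul_smul_comm, smul_smul, inv_mul_cancel₀ hc.ne', one_smul,
        Ring.inverse_mul_cancel _ hL.1]
  · rw [hL.2]
    constructor
    · intro h
      exact hQ'.smul_mem c hc.le _ h
    · intro h
      have h1 := hQ'.smul_mem c⁻¹ (by positivity) _ h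
      have h2 : c⁻¹ • ((c • L) z) = L z := by
        show c⁻¹ • (c • (L z)) = L z
        rw [smul_smul, inv_mul_cancel₀ hc.ne', one_smul]
      rwa [h2] at h1

theorem det_unit_ne {L : EndV} (h : IsUnit L) : L.det ≠ 0 := by
  intro h0
  have h1 := congrArg ContinuousLinearMap.det (Ring.mul_inverse_cancel _ h)
  rw [det_mul, det_one', h0, zero_mul] at h1
  exact zero_ne_one h1

theorem exists_det_one {Q Q' : Set V} (hQ' : IsPC Q') {L : EndV} (hL : Maps L Q Q') :
    ∃ M : EndV, |M.det| = 1 ∧ Maps M Q Q' := by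
  have hd : 0 < |L.det| := abs_pos.mpr (det_unit_ne hL.1)
  have hpos : 0 < |L.det| ^ (-(1 / 3 : ℝ)) := Real.rpow_pos_of_pos hd _
  refine ⟨(|L.det| ^ (-(1 / 3 : ℝ))) • L, ?_, maps_smul hQ' hL hpos⟩
  rw [det_smul', abs_mul, abs_pow, abs_of_pos hpos]
  rw [← Real.rpow_natCast, ← Real.rpow_mul hd.le]
  norm_num
  rw [Real.rpow_neg_one]
  exact inv_mul_cancel₀ hd.ne'

theorem base_conic {K : Set E3} (hK : Body K) (hne : ∀ a b, ∃ L, Maps L (Qb K a) (Qb K b)) :
    Conic (Qb K (0, 0)) := by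
  by_contra hC
  have hne1 : ∀ a b, ∃ L ∈ {L : EndV | |L.det| = 1}, Maps L (Qb K a) (Qb K b) := by
    intro a b
    obtain ⟨L, hL⟩ := hne a b
    obtain ⟨M, h1, h2⟩ := exists_det_one (isPC_Qb hK b) hL
    exact ⟨M, h1, h2⟩
  by_cases hdis : ∃ r > 0, ∀ L ∈ {L : EndV | |L.det| = 1}, Maps L (Qb K (0, 0)) (Qb K (0, 0)) →
      ‖L - 1‖ < r → L = 1
  · -- discrete
    refine grpd_false hK {L : EndV | |L.det| = 1}
      (mk_grpd hK _ ?_ ?_ ?_ ?_ hne1 hdis) (fun s => sig_det s)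
    · show |(1 : EndV).det| = 1
      rw [det_one', abs_one]
    · intro L M hL hM
      show |(M * L).det| = 1
      have hL' : |L.det| = 1 := hL
      have hM' : |M.det| = 1 := hM
      rw [det_mul, abs_mul, hL', hM', mul_one]
    · intro L hu hL
      have hL' : |L.det| = 1 := hL
      show |(Ring.inverse L).det| = 1
      have h1 := congrArg ContinuousLinearMap.det (Ring.mul_inverse_cancel _ hu)
      rw [det_mul, det_one'] at h1
      have h2 := congrArg abs h1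
      rw [abs_mul, hL', one_mul, abs_one] at h2
      exact h2
    · exact isClosed_eq (ContinuousLinearMap.continuous_det.abs) continuous_const
  · push Not at hdis
    have hseq : ∀ n : ℕ, ∃ L : EndV, |L.det| = 1 ∧ Maps L (Qb K (0, 0)) (Qb K (0, 0)) ∧
        ‖L - 1‖ < 1 / ((n : ℝ) + 1) ∧ L ≠ 1 := by
      intro n
      obtain ⟨L, h1, h2, h3, h4⟩ := hdis (1 / ((n : ℝ) + 1)) (by positivity)
      exact ⟨L, h1, h2, h3, h4⟩
    choose L hd hm hlt hn1 using hseq
    have hlim : Tendsto L atTop (𝓝 1) := by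
      rw [tendsto_iff_norm_sub_tendsto_zero]
      exact squeeze_zero (fun n => norm_nonneg _) (fun n => (hlt n).le)
        tendsto_one_div_add_atTop_nhds_zero_nat
    obtain ⟨Z, hZ, hZns⟩ := exists_nonscalar (isPC_Qb hK (0, 0)) L hm hd hn1 hlim
    by_cases hdim : ∀ X ∈ Lie (Qb K (0, 0)), ∃ a c : ℝ, X = a • (1 : EndV) + c • Z
    · exact dim_one hK ⟨hZ, hZns, hdim⟩ hC hne
    · push Not at hdim
      obtain ⟨X, hX, hXns⟩ := hdim
      have hSimp : Simplicial (Qb K (0, 0)) := by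
        rcases conic_or_simplicial (isPC_Qb hK (0, 0)) hZ hX hZns hXns with h | h
        · exact absurd h hC
        · exact h
      have hSall : ∀ b, Simplicial (Qb K b) := fun b => by
        obtain ⟨L, hL⟩ := hne (0, 0) b
        exact simplicial_of_maps hL hSimp
      refine grpd_false hK {L : EndV | L v0 = v0} (mk_grpd hK _ rfl ?_ ?_ ?_ ?_ ?_)
        (fun s => sig_v0 s)
      · intro L M hL hM
        have hL' : L v0 = v0 := hL
        have hM' : M v0 = v0 := hM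
        show M (L v0) = v0
        rw [hL', hM']
      · intro L hu hL
        have hL' : L v0 = v0 := hL
        show Ring.inverse L v0 = v0
        have := unit_inv_left hu v0
        rwa [hL'] at this
      · exact isClosed_eq (ContinuousLinearMap.apply ℝ V v0).continuous continuous_const
      · intro a b
        obtain ⟨L, hL⟩ := hne a b
        obtain ⟨M, h1, h2⟩ := simplicial_marked (hSall b) L hL (v0_int hK a) (v0_int hK b)
        exact ⟨M, h2, h1⟩
      · obtain ⟨r, hr, h⟩ := simplicial_discrete hSimp (v0_int hK (0, 0))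
        exact ⟨r, hr, fun L h1 h2 h3 => h L h2 h1 h3⟩

theorem main (K : Set E3) (hc : Convex ℝ K) (hcomp : IsCompact K) (h0 : (0 : E3) ∈ interior K)
    (hyp : ∀ H₁ H₂ : Submodule ℝ (EuclideanSpace ℝ (Fin 3)),
        Module.finrank ℝ H₁ = 2 → Module.finrank ℝ H₂ = 2 →
        ∃ L : (↥H₁ × ℝ) ≃ₗ[ℝ] (↥H₂ × ℝ),
          ⇑L '' {p : ↥H₁ × ℝ | ∃ t : ℝ, ∃ x : ↥H₁,
              (x : EuclideanSpace ℝ (Fin 3)) ∈ frontier K ∧ p = (t • x, t)} =
            {p : ↥H₂ × ℝ | ∃ t : ℝ, ∃ x : ↥H₂,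
              (x : EuclideanSpace ℝ (Fin 3)) ∈ frontier K ∧ p = (t • x, t)}) :
    ∃ A : EuclideanSpace ℝ (Fin 3) ≃ᵃ[ℝ] EuclideanSpace ℝ (Fin 3),
        K = ⇑A '' Metric.closedBall (0 : EuclideanSpace ℝ (Fin 3)) 1 := by
  have hK : Body K := ⟨hc, hcomp, h0⟩
  have hne : ∀ a b, ∃ L, Maps L (Qb K a) (Qb K b) := by
    intro a b
    obtain ⟨M, hM⟩ := exists_equiv hK hyp (frame_li a) (frame_li b)
    exact ⟨_, maps_of_equiv M hM⟩
  have hbase := base_conic hK hne
  obtain ⟨q, l, hq, hKe⟩ := gauge_quadratic K hc hcomp h0 (by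
    intro A B hAB
    obtain ⟨M, hM⟩ := exists_equiv hK hyp hAB (frame_li (0, 0))
    obtain ⟨Φ, hΦ, hz⟩ := conic_of_maps (maps_of_equiv M hM) hbase
    refine ⟨Φ, hΦ, fun x y => hz _ ?_⟩
    rw [hK.mem_frontier_iff]
    simp)
  obtain ⟨A, hA⟩ := ellipsoid_normal_form q hq l
  exact ⟨A, hKe.trans hA⟩

end Pool.Agent.Helper438.Proj
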