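import Pool.Agent.Helper438.Proj.Defs
import Pool.Agent.Helper438.Proj.ExpGen

namespace Pool.Agent.Helper438.Proj

open Set Filter Topology

theorem exp_neg_mul_exp (X : EndV) (t : ℝ) :
    NormedSpace.exp ((-t) • X) * NormedSpace.exp (t • X) = (1 : EndV) := gexp_neg_mul_exp X t

theorem exp_mul_exp_neg (X : EndV) (t : ℝ) :
    NormedSpace.exp (t • X) * NormedSpace.exp ((-t) • X) = (1 : EndV) := gexp_mul_exp_neg X t

theorem exp_neg_exp_apply (X : EndV) (t : ℝ) (z : V) :
    (NormedSpace.exp ((-t) • X) : EndV) ((NormedSpace.exp (t • X) : EndV) z) = z := by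
  have := congrArg (fun L : EndV => L z) (exp_neg_mul_exp X t)
  exact this

theorem exp_exp_neg_apply (X : EndV) (t : ℝ) (z : V) :
    (NormedSpace.exp (t • X) : EndV) ((NormedSpace.exp ((-t) • X) : EndV) z) = z := by
  have := congrArg (fun L : EndV => L z) (exp_mul_exp_neg X t)
  exact this

theorem exp_mem_iff {Q : Set V} {X : EndV} (hX : X ∈ Lie Q) (t : ℝ) (z : V) :
    (NormedSpace.exp (t • X) : EndV) z ∈ Q ↔ z ∈ Q := by
  constructor
  · intro h
    have h1 := hX (-t) _ h
    rwa [exp_neg_exp_apply] at h1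
  · intro h
    exact hX t z h

/-- the exponential as a homeomorphism -/
noncomputable def expHomeo (X : EndV) (t : ℝ) : V ≃ₜ V where
  toFun := (NormedSpace.exp (t • X) : EndV)
  invFun := (NormedSpace.exp ((-t) • X) : EndV)
  left_inv z := exp_neg_exp_apply X t z
  right_inv z := exp_exp_neg_apply X t z
  continuous_toFun := ContinuousLinearMap.continuous _
  continuous_invFun := ContinuousLinearMap.continuous _

theorem expHomeo_apply (X : EndV) (t : ℝ) (z : V) :
    expHomeo X t z = (NormedSpace.exp (t • X) : EndV) z := rfl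

theorem exp_frontier {Q : Set V} {X : EndV} (hX : X ∈ Lie Q) (t : ℝ) {z : V}
    (hz : z ∈ frontier Q) : (NormedSpace.exp (t • X) : EndV) z ∈ frontier Q := by
  have h1 : (expHomeo X t) ⁻¹' Q = Q := by
    ext w
    exact exp_mem_iff hX t w
  have h2 : z ∈ frontier ((expHomeo X t) ⁻¹' Q) := by rwa [h1]
  rw [← Homeomorph.preimage_frontier] at h2
  exact h2

end Pool.Agent.Helper438.Proj
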