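import Pool.Agent.Helper438.Proj.Trans
import Pool.Agent.Helper438.Proj.LieBasic

namespace Pool.Agent.Helper438.Proj

open Set Filter Topology

noncomputable def fA (b : ℝ × ℝ) : E3 :=
  !₂[Real.cos b.2 + (1 - Real.cos b.2) * Real.cos b.1 ^ 2,
    (1 - Real.cos b.2) * (Real.cos b.1 * Real.sin b.1), -(Real.sin b.1 * Real.sin b.2)]

noncomputable def fB (b : ℝ × ℝ) : E3 :=
  !₂[(1 - Real.cos b.2) * (Real.cos b.1 * Real.sin b.1),
    Real.cos b.2 + (1 - Real.cos b.2) * Real.sin b.1 ^ 2, Real.cos b.1 * Real.sin b.2]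

theorem cont_fA : Continuous fA := by
  unfold fA
  refine (PiLp.continuous_toLp 2 _).comp ?_
  refine continuous_pi fun i => ?_
  fin_cases i <;> simp <;> fun_prop

theorem cont_fB : Continuous fB := by
  unfold fB
  refine (PiLp.continuous_toLp 2 _).comp ?_
  refine continuous_pi fun i => ?_
  fin_cases i <;> simp <;> fun_prop

theorem frame_li (b : ℝ × ℝ) : LinearIndependent ℝ ![fA b, fB b] := by
  rw [LinearIndependent.pair_iff]
  intro s t h
  have h0 := congrArg (fun v : E3 => v 0) h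
  have h1 := congrArg (fun v : E3 => v 1) h
  have h2 := congrArg (fun v : E3 => v 2) h
  simp [fA, fB] at h0 h1 h2
  have e1 := Real.sin_sq_add_cos_sq b.1
  have e2 := Real.sin_sq_add_cos_sq b.2
  set c := Real.cos b.1
  set σ := Real.sin b.1
  set C := Real.cos b.2
  set S := Real.sin b.2
  constructor
  · -- inner product with A
    have : s * ((C + (1 - C) * c ^ 2) ^ 2 + ((1 - C) * (c * σ)) ^ 2 + (σ * S) ^ 2) +
      t * ((C + (1 - C) * c ^ 2) * ((1 - C) * (c * σ)) +
        ((1 - C) * (c * σ)) * (C + (1 - C) * σ ^ 2) - (σ * S) * (c * S)) = 0 := by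
      linear_combination (C + (1 - C) * c ^ 2) * h0 + ((1 - C) * (c * σ)) * h1 - (σ * S) * h2
    have k1 : (C + (1 - C) * c ^ 2) ^ 2 + ((1 - C) * (c * σ)) ^ 2 + (σ * S) ^ 2 = 1 := by
      have hs2 : S ^ 2 = 1 - C ^ 2 := by linarith
      have hσ : σ ^ 2 = 1 - c ^ 2 := by linarith
      have : (C + (1 - C) * c ^ 2) ^ 2 + (1 - C) ^ 2 * c ^ 2 * σ ^ 2 + σ ^ 2 * S ^ 2 = 1 := by
        rw [hs2, hσ]; ring
      linear_combination this
    have k2 : (C + (1 - C) * c ^ 2) * ((1 - C) * (c * σ)) +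
        ((1 - C) * (c * σ)) * (C + (1 - C) * σ ^ 2) - (σ * S) * (c * S) = 0 := by
      have hs2 : S ^ 2 = 1 - C ^ 2 := by linarith
      have hσ : σ ^ 2 = 1 - c ^ 2 := by linarith
      have : (1 - C) * (c * σ) * (2 * C + (1 - C) * (c ^ 2 + σ ^ 2)) - σ * c * S ^ 2 = 0 := by
        rw [hs2, hσ]; ring
      linear_combination this
    rw [k1, k2] at this
    linarith
  · have : s * ((C + (1 - C) * c ^ 2) * ((1 - C) * (c * σ)) +
        ((1 - C) * (c * σ)) * (C + (1 - C) * σ ^ 2) - (σ * S) * (c * S)) +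
      t * (((1 - C) * (c * σ)) ^ 2 + (C + (1 - C) * σ ^ 2) ^ 2 + (c * S) ^ 2) = 0 := by
      linear_combination ((1 - C) * (c * σ)) * h0 + (C + (1 - C) * σ ^ 2) * h1 + (c * S) * h2
    have k1 : ((1 - C) * (c * σ)) ^ 2 + (C + (1 - C) * σ ^ 2) ^ 2 + (c * S) ^ 2 = 1 := by
      have hs2 : S ^ 2 = 1 - C ^ 2 := by linarith
      have hσ : c ^ 2 = 1 - σ ^ 2 := by linarith
      have : (C + (1 - C) * σ ^ 2) ^ 2 + (1 - C) ^ 2 * c ^ 2 * σ ^ 2 + c ^ 2 * S ^ 2 = 1 := by
        rw [hs2, hσ]; ring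
      linear_combination this
    have k2 : (C + (1 - C) * c ^ 2) * ((1 - C) * (c * σ)) +
        ((1 - C) * (c * σ)) * (C + (1 - C) * σ ^ 2) - (σ * S) * (c * S) = 0 := by
      have hs2 : S ^ 2 = 1 - C ^ 2 := by linarith
      have hσ : σ ^ 2 = 1 - c ^ 2 := by linarith
      have : (1 - C) * (c * σ) * (2 * C + (1 - C) * (c ^ 2 + σ ^ 2)) - σ * c * S ^ 2 = 0 := by
        rw [hs2, hσ]; ring
      linear_combination this
    rw [k1, k2] at this
    linarith

/-- the family of cones -/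
def Qb (K : Set E3) (b : ℝ × ℝ) : Set V := Qf K (fA b) (fB b)

theorem fA_zero (s : ℝ) : fA (s, 0) = fA (0, 0) := by
  ext i; fin_cases i <;> simp [fA]

theorem fB_zero (s : ℝ) : fB (s, 0) = fB (0, 0) := by
  ext i; fin_cases i <;> simp [fB]

theorem Qb_zero (K : Set E3) (s : ℝ) : Qb K (s, 0) = Qb K (0, 0) := by
  unfold Qb
  rw [fA_zero, fB_zero]

theorem Qb_per (K : Set E3) (s t : ℝ) : Qb K (s + 2 * Real.pi, t) = Qb K (s, t) := by
  have e1 : fA (s + 2 * Real.pi, t) = fA (s, t) := by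
    unfold fA
    simp only [Real.cos_add_two_pi, Real.sin_add_two_pi]
  have e2 : fB (s + 2 * Real.pi, t) = fB (s, t) := by
    unfold fB
    simp only [Real.cos_add_two_pi, Real.sin_add_two_pi]
  unfold Qb
  rw [e1, e2]

/-- reflection -/
noncomputable def sig (s : ℝ) : EndV :=
  LinearMap.toContinuousLinearMap (Matrix.toLin' !![Real.cos (2 * s), Real.sin (2 * s), 0;
    Real.sin (2 * s), -Real.cos (2 * s), 0; 0, 0, 1])

theorem sig_apply (s : ℝ) (z : V) : sig s z = ![Real.cos (2 * s) * z 0 + Real.sin (2 * s) * z 1,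
    Real.sin (2 * s) * z 0 - Real.cos (2 * s) * z 1, z 2] := by
  unfold sig
  rw [LinearMap.coe_toContinuousLinearMap', Matrix.toLin'_apply]
  ext i
  fin_cases i <;> simp [Matrix.mulVec, dotProduct, Fin.sum_univ_three] <;> ring

theorem sig_sq (s : ℝ) : sig s * sig s = 1 := by
  ext1 z
  show sig s (sig s z) = z
  rw [sig_apply, sig_apply]
  have e := Real.sin_sq_add_cos_sq (2 * s)
  ext i
  fin_cases i
  · simp
    linear_combination (z 0) * e
  · simp
    linear_combination (z 1) * e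
  · simp

theorem sig_unit (s : ℝ) : IsUnit (sig s) := ⟨⟨sig s, sig s, sig_sq s, sig_sq s⟩, rfl⟩

theorem sig_cont : Continuous sig := by
  unfold sig
  have h : Continuous (fun s : ℝ => (!![Real.cos (2 * s), Real.sin (2 * s), 0;
    Real.sin (2 * s), -Real.cos (2 * s), 0; 0, 0, 1] : Matrix (Fin 3) (Fin 3) ℝ)) := by
    refine continuous_matrix fun i j => ?_
    fin_cases i <;> fin_cases j <;> simp <;> fun_prop
  have h2 : Continuous (fun M : Matrix (Fin 3) (Fin 3) ℝ =>
      (LinearMap.toContinuousLinearMap (Matrix.toLin' M) : EndV)) := by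
    let f : Matrix (Fin 3) (Fin 3) ℝ →ₗ[ℝ] EndV :=
      (LinearMap.toContinuousLinearMap (𝕜 := ℝ) (E := V) (F' := V)).toLinearMap.comp
        (Matrix.toLin' (R := ℝ) (m := Fin 3) (n := Fin 3)).toLinearMap
    exact f.continuous_of_finiteDimensional
  exact h2.comp h

theorem sig_det (s : ℝ) : |(sig s).det| = 1 := by
  have h : (sig s).det * (sig s).det = 1 := by
    have := congrArg ContinuousLinearMap.det (sig_sq s)
    have e1 : (sig s * sig s).det = (sig s).det * (sig s).det := by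
      show LinearMap.det ((sig s : V →ₗ[ℝ] V) * (sig s : V →ₗ[ℝ] V)) = _
      rw [map_mul]
    have e2 : (1 : EndV).det = 1 := by
      show LinearMap.det (LinearMap.id : V →ₗ[ℝ] V) = 1
      exact LinearMap.det_id
    rw [e1, e2] at this
    exact this
  have h2 : |(sig s).det| * |(sig s).det| = 1 := by
    rw [← abs_mul, h, abs_one]
  nlinarith [abs_nonneg (sig s).det]

theorem sig_v0 (s : ℝ) : sig s v0 = v0 := by
  rw [sig_apply]
  ext i; fin_cases i <;> simp

theorem Qb_pi (K : Set E3) (s : ℝ) (z : V) : z ∈ Qb K (s, Real.pi) ↔ sig s z ∈ Qb K (0, 0) := by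
  have e1 : z 0 • fA (s, Real.pi) + z 1 • fB (s, Real.pi) =
      (sig s z) 0 • fA (0, 0) + (sig s z) 1 • fB (0, 0) := by
    rw [sig_apply]
    have hc : Real.cos (2 * s) = 2 * Real.cos s ^ 2 - 1 := Real.cos_two_mul s
    have hs : Real.sin (2 * s) = 2 * Real.sin s * Real.cos s := Real.sin_two_mul s
    have e := Real.sin_sq_add_cos_sq s
    ext i
    fin_cases i
    · simp [fA, fB, hc, hs]; ring
    · simp [fA, fB, hc, hs]; linear_combination (2 * z 1) * e
    · simp [fA, fB]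
  show gauge K _ ≤ _ ↔ gauge K _ ≤ _
  rw [e1]
  rw [sig_apply]
  simp

theorem sig_maps (K : Set E3) (s : ℝ) : Maps (sig s) (Qb K (s, Real.pi)) (Qb K (0, 0)) :=
  ⟨sig_unit s, Qb_pi K s⟩

end Pool.Agent.Helper438.Proj
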