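import Pool.Agent.Helper438.Proj.Defs

namespace Pool.Agent.Helper438.Proj

open Set Filter Topology

/-- a closed, fibrewise discrete groupoid of invertible maps over the plane -/
structure Grpd (T : ℝ × ℝ → ℝ × ℝ → Set EndV) : Prop where
  isUnit : ∀ a b L, L ∈ T a b → IsUnit L
  one : ∀ a, (1 : EndV) ∈ T a a
  mul : ∀ a b c L M, L ∈ T a b → M ∈ T b c → M * L ∈ T a c
  inv : ∀ a b L, L ∈ T a b → Ring.inverse L ∈ T b a
  nonempty : ∀ a b, (T a b).Nonempty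
  closed : ∀ (a b : ℕ → ℝ × ℝ) (L : ℕ → EndV) (a0 b0 : ℝ × ℝ) (L0 : EndV),
    Tendsto a atTop (𝓝 a0) → Tendsto b atTop (𝓝 b0) → Tendsto L atTop (𝓝 L0) →
    (∀ n, L n ∈ T (a n) (b n)) → IsUnit L0 → L0 ∈ T a0 b0
  discrete : ∀ a, ∃ r > 0, ∀ L ∈ T a a, ‖L - 1‖ < r → L = 1

end Pool.Agent.Helper438.Proj
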