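import Mathlib

namespace Pool.Agent.Helper438.Proj

open Set Filter Topology Complex

lemma const_of_exp_const {A : Type*} [TopologicalSpace A] [PreconnectedSpace A] (f : A → ℂ)
    (hf : Continuous f) (c : ℂ) (h : ∀ x, Complex.exp (f x) = c) (x y : A) : f x = f y := by
  have hd : ∀ z, ∃ n : ℤ, f z - f x = n * (2 * Real.pi * I) := by
    intro z
    have h1 : Complex.exp (f z) = Complex.exp (f x) := by rw [h, h]
    obtain ⟨n, hn⟩ := Complex.exp_eq_exp_iff_exists_int.mp h1
    exact ⟨n, by rw [hn]; ring⟩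
  choose n hn using hd
  have hcont : Continuous n := by
    have hr : Continuous (fun z => ((n z : ℤ) : ℝ)) := by
      have : (fun z => ((n z : ℤ) : ℝ)) = fun z => ((f z - f x) / (2 * Real.pi * I)).re := by
        funext z
        rw [hn z, mul_div_assoc, div_self, mul_one]
        · simp
        · simp [Real.pi_ne_zero]
      rw [this]
      fun_prop
    exact Int.isClosedEmbedding_coe_real.isInducing.continuous_iff.mpr hr
  have hn0 : n y = n x := by
    exact (PreconnectedSpace.constant ‹_› hcont)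
  have hx := hn x
  have hy := hn y
  rw [hn0, ← hx] at hy
  rw [sub_self] at hy
  exact (sub_eq_zero.mp hy).symm

/-- a continuous logarithm on the plane -/
lemma exists_log (w : ℝ × ℝ → ℂ) (hw : Continuous w) (hne : ∀ b, w b ≠ 0) :
    ∃ φ : ℝ × ℝ → ℂ, Continuous φ ∧ ∀ b, Complex.exp (φ b) = w b := by
  obtain ⟨φ, hφc, hφ⟩ := Complex.exists_continuousOn_eqOn_exp_comp (X := ℝ × ℝ) (U := univ)
    (by
      have : ContractibleSpace (univ : Set (ℝ × ℝ)) := convex_univ.contractibleSpace ⟨0, trivial⟩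
      exact SimplyConnectedSpace.ofContractible _) isOpen_univ hw.continuousOn (by
      rintro ⟨p, -, hp⟩
      exact hne _ hp)
  exact ⟨φ, continuousOn_univ.mp hφc, fun p => hφ (mem_univ p)⟩

theorem no_twist (w : ℝ × ℝ → ℂ) (hw : Continuous w) (hne : ∀ b, w b ≠ 0)
    (hper : ∀ s t, w (s + 2 * Real.pi, t) = w (s, t)) (h0 : ∀ s, w (s, 0) = w (0, 0))
    (k : ℤ) (hk : k ≠ 0) (κ : ℝ → ℝ) (hκ : ∀ s, 0 < κ s) (c : ℂ)
    (h1 : ∀ s : ℝ, w (s, Real.pi) = κ s * Complex.exp (k * s * I) * c) : False := by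
  obtain ⟨φ, hφ, he⟩ := exists_log w hw hne
  have hc : c ≠ 0 := by
    intro hc
    exact hne (0, Real.pi) (by rw [h1]; simp [hc])
  -- difference over a period is constant in t
  have hD : ∀ t, φ (2 * Real.pi, t) - φ (0, t) = φ (2 * Real.pi, 0) - φ (0, 0) := by
    intro t
    refine const_of_exp_const (fun t : ℝ => φ (2 * Real.pi, t) - φ (0, t)) (by fun_prop) 1 ?_ t 0
    intro s
    rw [Complex.exp_sub, he, he]
    have : w (2 * Real.pi, s) = w (0, s) := by
      have := hper 0 s
      rwa [zero_add] at this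
    rw [this, div_self (hne _)]
  have h2 : φ (2 * Real.pi, 0) = φ (0, 0) := by
    refine const_of_exp_const (fun s : ℝ => φ (s, 0)) (by fun_prop) (w (0, 0)) ?_ _ _
    intro s
    rw [he, h0]
  have h3 := hD Real.pi
  rw [h2, sub_self] at h3
  -- imaginary part
  have h4 : ∀ s : ℝ, Complex.exp ((((φ (s, Real.pi)).im - k * s : ℝ) : ℂ) * I) = c / ‖c‖ := by
    intro s
    have h5 := he (s, Real.pi)
    rw [h1] at h5
    have h6 : Complex.exp (φ (s, Real.pi)) = (Real.exp (φ (s, Real.pi)).re : ℂ) *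
        Complex.exp (((φ (s, Real.pi)).im : ℂ) * I) := by
      rw [Complex.ofReal_exp, ← Complex.exp_add, Complex.re_add_im]
    have hn : Real.exp (φ (s, Real.pi)).re = κ s * ‖c‖ := by
      have := congrArg norm h5
      rw [Complex.norm_exp] at this
      rw [this, norm_mul, norm_mul]
      have e1 : ‖Complex.exp (k * s * I)‖ = 1 := by
        have : ((k : ℂ) * s * I) = ((k * s : ℝ) : ℂ) * I := by push_cast; ring
        rw [this, Complex.norm_exp_ofReal_mul_I]
      rw [e1, mul_one, Complex.norm_real, Real.norm_of_nonneg (hκ s).le]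
    rw [h6, hn] at h5
    have hκ' : (κ s : ℂ) ≠ 0 := by exact_mod_cast (hκ s).ne'
    have hcn : (‖c‖ : ℂ) ≠ 0 := by exact_mod_cast (norm_pos_iff.mpr hc).ne'
    have h7 : Complex.exp (((φ (s, Real.pi)).im : ℂ) * I) =
        Complex.exp (k * s * I) * (c / ‖c‖) := by
      have : (κ s : ℂ) * ‖c‖ * Complex.exp (((φ (s, Real.pi)).im : ℂ) * I) =
          κ s * ‖c‖ * (Complex.exp (k * s * I) * (c / ‖c‖)) := by
        push_cast at h5
        rw [h5]
        field_simp
      exact mul_left_cancel₀ (mul_ne_zero hκ' hcn) this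
    have h8 : ((((φ (s, Real.pi)).im - k * s : ℝ) : ℂ) * I) =
        ((φ (s, Real.pi)).im : ℂ) * I - k * s * I := by push_cast; ring
    rw [h8, Complex.exp_sub, h7]
    field_simp
  have h9 := const_of_exp_const (fun s : ℝ => ((((φ (s, Real.pi)).im - k * s : ℝ) : ℂ) * I))
    (by fun_prop) (c / ‖c‖) h4 (2 * Real.pi) 0
  have h10 := congrArg Complex.im h9
  simp only [Complex.mul_im, Complex.ofReal_re, Complex.I_im, mul_one, Complex.ofReal_im,
    Complex.I_re, mul_zero, add_zero] at h10
  have h11 : (φ (2 * Real.pi, Real.pi)).im = (φ (0, Real.pi)).im := by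
    rw [sub_eq_zero.mp h3]
  rw [h11] at h10
  have h12 : (k : ℝ) * (2 * Real.pi) = 0 := by linarith
  have h13 : (k : ℝ) ≠ 0 := by exact_mod_cast hk
  have := Real.pi_pos
  rcases mul_eq_zero.mp h12 with h | h
  · exact h13 h
  · linarith

end Pool.Agent.Helper438.Proj
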