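import Pool.Agent.Helper438.Proj.Closed
import Pool.Agent.Helper438.Proj.Top

namespace Pool.Agent.Helper438.Proj

open Set Filter Topology

theorem Grpd.unique {T : ℝ × ℝ → ℝ × ℝ → Set EndV} (hT : Grpd T) (a : ℝ × ℝ)
    {X : Type} [TopologicalSpace X] (hX : PreconnectedSpace X) (f : X → ℝ × ℝ)
    (L1 L2 : X → EndV) (h1 : Continuous L1) (h2 : Continuous L2)
    (hL1 : ∀ x, L1 x ∈ T a (f x)) (hL2 : ∀ x, L2 x ∈ T a (f x)) (x0 : X) (h0 : L1 x0 = L2 x0) :
    ∀ x, L1 x = L2 x := by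
  haveI := hT.discreteTopology_fibre a a
  let N : X → T a a := fun x => ⟨Ring.inverse (L1 x) * L2 x,
    hT.mul a (f x) a _ _ (hL2 x) (hT.inv _ _ _ (hL1 x))⟩
  have hN : Continuous N := by
    apply Continuous.subtype_mk
    refine Continuous.mul ?_ h2
    rw [continuous_iff_continuousAt]
    intro x
    obtain ⟨u, hu⟩ := hT.isUnit _ _ _ (hL1 x)
    have h3 : ContinuousAt Ring.inverse (L1 x) := by
      rw [← hu]; exact NormedRing.inverse_continuousAt u
    exact h3.comp h1.continuousAt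
  intro x
  have hc : N x = N x0 := hX.constant hN
  have hc2 : Ring.inverse (L1 x) * L2 x = Ring.inverse (L1 x0) * L2 x0 :=
    congrArg Subtype.val hc
  rw [← h0, Ring.inverse_mul_cancel _ (hT.isUnit _ _ _ (hL1 x0))] at hc2
  have h4 : L1 x * (Ring.inverse (L1 x) * L2 x) = L1 x * 1 := by rw [hc2]
  rw [← mul_assoc, Ring.mul_inverse_cancel _ (hT.isUnit _ _ _ (hL1 x)), one_mul, mul_one] at h4
  exact h4.symm

/-- maps in `P` carrying one cone onto the other -/
def TP (K : Set E3) (P : Set EndV) (a b : ℝ × ℝ) : Set EndV := {L | L ∈ P ∧ Maps L (Qb K a) (Qb K b)}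

theorem mk_grpd {K : Set E3} (hK : Body K) (P : Set EndV) (h1 : (1 : EndV) ∈ P)
    (hmul : ∀ L M, L ∈ P → M ∈ P → M * L ∈ P)
    (hinv : ∀ L, IsUnit L → L ∈ P → Ring.inverse L ∈ P) (hcl : IsClosed P)
    (hne : ∀ a b, ∃ L ∈ P, Maps L (Qb K a) (Qb K b))
    (hdis : ∃ r > 0, ∀ L ∈ P, Maps L (Qb K (0, 0)) (Qb K (0, 0)) → ‖L - 1‖ < r → L = 1) :
    Grpd (TP K P) where
  isUnit a b L hL := hL.2.1
  one a := ⟨h1, Maps.one _⟩
  mul a b c L M hL hM := ⟨hmul L M hL.1 hM.1, hL.2.mul hM.2⟩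
  inv a b L hL := ⟨hinv L hL.2.1 hL.1, hL.2.inv⟩
  nonempty a b := by
    obtain ⟨L, h, h'⟩ := hne a b
    exact ⟨L, h, h'⟩
  closed a b L a0 b0 L0 ha hb hL h hu :=
    ⟨hcl.mem_of_tendsto hL (Eventually.of_forall fun n => (h n).1),
      maps_closed hK a b L a0 b0 L0 ha hb hL (fun n => (h n).2) hu⟩
  discrete a := by
    obtain ⟨r, hr, hd⟩ := hdis
    obtain ⟨M, hMP, hM⟩ := hne a (0, 0)
    have hc : 0 < (‖M‖ + 1) * (‖Ring.inverse M‖ + 1) := by positivity
    refine ⟨r / ((‖M‖ + 1) * (‖Ring.inverse M‖ + 1)), by positivity, fun L hL hlt => ?_⟩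
    have h2 : M * L * Ring.inverse M = 1 := by
      apply hd
      · exact hmul _ _ (hinv _ hM.1 hMP) (hmul _ _ hL.1 hMP)
      · exact hM.inv.mul (hL.2.mul hM)
      · have e : M * L * Ring.inverse M - 1 = M * (L - 1) * Ring.inverse M := by
          rw [mul_sub, sub_mul, mul_one, Ring.mul_inverse_cancel _ hM.1]
        rw [e]
        have hb1 : ‖M * (L - 1) * Ring.inverse M‖ ≤ ‖M‖ * ‖L - 1‖ * ‖Ring.inverse M‖ :=
          (norm_mul_le _ _).trans (mul_le_mul_of_nonneg_right (norm_mul_le _ _) (norm_nonneg _))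
        rw [lt_div_iff₀ hc] at hlt
        have hb2 : ‖M‖ * ‖L - 1‖ * ‖Ring.inverse M‖ ≤
            ‖L - 1‖ * ((‖M‖ + 1) * (‖Ring.inverse M‖ + 1)) := by
          have n1 := norm_nonneg M
          have n2 := norm_nonneg (L - 1)
          have n3 := norm_nonneg (Ring.inverse M)
          have : ‖M‖ * ‖Ring.inverse M‖ ≤ (‖M‖ + 1) * (‖Ring.inverse M‖ + 1) := by nlinarith
          calc ‖M‖ * ‖L - 1‖ * ‖Ring.inverse M‖ = ‖L - 1‖ * (‖M‖ * ‖Ring.inverse M‖) := by ring
            _ ≤ _ := mul_le_mul_of_nonneg_left this n2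
        linarith
    have h3 : Ring.inverse M * (M * L * Ring.inverse M) * M = Ring.inverse M * 1 * M := by rw [h2]
    have h4 : Ring.inverse M * (M * L * Ring.inverse M) * M =
        (Ring.inverse M * M) * L * (Ring.inverse M * M) := by
      simp only [mul_assoc]
    rw [h4, mul_one, Ring.inverse_mul_cancel _ hM.1, one_mul, mul_one] at h3
    exact h3

/-- a complex number from the first two coordinates -/
noncomputable def cw (z : V) : ℂ := ⟨z 0, z 1⟩

theorem cw_cont : Continuous cw := by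
  have : cw = fun z : V => (z 0 : ℂ) + (z 1 : ℂ) * Complex.I := by
    ext z
    exact (Complex.mk_eq_add_mul_I _ _)
  rw [this]
  fun_prop

theorem cw_sig (s : ℝ) (z : V) :
    cw (sig s z) = Complex.exp (((2 : ℤ) : ℂ) * s * Complex.I) * (starRingEnd ℂ) (cw z) := by
  have h : ((2 : ℤ) : ℂ) * s * Complex.I = ((2 * s : ℝ) : ℂ) * Complex.I := by
    push_cast; ring
  rw [h, Complex.exp_mul_I, sig_apply]
  rw [← Complex.ofReal_cos, ← Complex.ofReal_sin]
  generalize Real.cos (2 * s) = C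
  generalize Real.sin (2 * s) = S
  apply Complex.ext
  · simp [cw]
  · simp [cw]; ring

theorem cw_ne {K : Set E3} (hK : Body K) {b : ℝ × ℝ} {z : V} (hz : z ∈ frontier (Qb K b))
    (h0 : z ≠ 0) : cw z ≠ 0 := by
  intro h
  have e0 : z 0 = 0 := congrArg Complex.re h
  have e1 : z 1 = 0 := congrArg Complex.im h
  rw [show Qb K b = Qf K (fA b) (fB b) from rfl, hK.mem_frontier_iff, e0, e1] at hz
  simp only [zero_smul, add_zero, gauge_zero] at hz
  apply h0
  ext i
  fin_cases i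
  · exact e0
  · exact e1
  · exact hz.symm

theorem grpd_false {K : Set E3} (hK : Body K) (P : Set EndV) (hG : Grpd (TP K P))
    (hsig : ∀ s, sig s ∈ P) : False := by
  obtain ⟨L, hLc, hL0, hL⟩ := hG.global_transport hG.local_transport (0, 0)
  have hQ0 : ∀ s b, TP K P b (s, 0) = TP K P b (0, 0) := by
    intro s b
    unfold TP
    rw [Qb_zero]
  have hQp : ∀ s t b, TP K P b (s + 2 * Real.pi, t) = TP K P b (s, t) := by
    intro s t b
    unfold TP
    rw [Qb_per]
  -- trivial along the bottom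
  have hb : ∀ s : ℝ, L (s, 0) = 1 := by
    refine hG.unique (0, 0) (X := ℝ) inferInstance (fun _ => (0, 0)) (fun s => L (s, 0)) (fun _ => 1)
      (hLc.comp (by fun_prop)) continuous_const ?_ ?_ 0 hL0
    · intro s
      have := hL (s, 0)
      rwa [hQ0] at this
    · intro s
      exact hG.one _
  -- periodic
  have hp : ∀ x : ℝ × ℝ, L (x.1 + 2 * Real.pi, x.2) = L x := by
    refine hG.unique (0, 0) (X := ℝ × ℝ) inferInstance (fun x => x)
      (fun x => L (x.1 + 2 * Real.pi, x.2)) L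
      (hLc.comp (by fun_prop)) hLc ?_ hL (0, 0) ?_
    · rintro ⟨s, t⟩
      have := hL (s + 2 * Real.pi, t)
      rwa [hQp] at this
    · show L (0 + 2 * Real.pi, 0) = L (0, 0)
      rw [hb, hL0]
  -- top
  have htop : ∀ s : ℝ, sig s * L (s, Real.pi) = sig 0 * L (0, Real.pi) := by
    refine hG.unique (0, 0) (X := ℝ) inferInstance (fun _ => (0, 0))
      (fun s => sig s * L (s, Real.pi)) (fun _ => sig 0 * L (0, Real.pi))
      (sig_cont.mul (hLc.comp (by fun_prop))) continuous_const ?_ ?_ 0 rfl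
    · intro s
      exact hG.mul _ (s, Real.pi) _ _ _ (hL _) ⟨hsig s, sig_maps K s⟩
    · intro s
      exact hG.mul _ (0, Real.pi) _ _ _ (hL _) ⟨hsig 0, sig_maps K 0⟩
  set m := sig 0 * L (0, Real.pi) with hm
  have htop2 : ∀ s : ℝ, L (s, Real.pi) = sig s * m := by
    intro s
    rw [← htop s, ← mul_assoc, sig_sq, one_mul]
  -- marked boundary point
  set p : V := ![1, 0, gauge K (fA (0, 0))] with hpdef
  have hpf : p ∈ frontier (Qb K (0, 0)) := by
    rw [show Qb K (0, 0) = Qf K (fA (0, 0)) (fB (0, 0)) from rfl, hK.mem_frontier_iff]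
    simp [hpdef]
  have hp0 : p ≠ 0 := by
    intro h
    have := congrArg (fun z : V => z 0) h
    simp [hpdef] at this
  have hLp : ∀ b, cw (L b p) ≠ 0 := by
    intro b
    have hu := (hL b).2
    refine cw_ne hK ((hu.frontier p).mp hpf) ?_
    intro h
    apply hp0
    have := unit_inv_left hu.1 p
    rw [h] at this
    rw [← this]; simp
  refine no_twist (fun b => cw (L b p)) ?_ hLp ?_ ?_ 2 two_ne_zero (fun _ => 1)
    (fun _ => one_pos) ((starRingEnd ℂ) (cw (m p))) ?_
  · exact cw_cont.comp ((ContinuousLinearMap.apply ℝ V p).continuous.comp hLc)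
  · intro s t
    show cw (L (s + 2 * Real.pi, t) p) = cw (L (s, t) p)
    rw [hp (s, t)]
  · intro s
    show cw (L (s, 0) p) = cw (L (0, 0) p)
    rw [hb, hL0]
  · intro s
    show cw (L (s, Real.pi) p) = _
    rw [htop2]
    show cw (sig s (m p)) = _
    rw [cw_sig]
    simp

end Pool.Agent.Helper438.Proj
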