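import Pool.Agent.Helper438.Proj.Alg
import Pool.Agent.Helper438.Proj.LieBasic
import Pool.Agent.Helper438.Proj.Pkg

namespace Pool.Agent.Helper438.Proj

open Set Filter Topology

theorem lie_sub_smul_one {Q : Set V} (hQ : IsPC Q) {X : EndV} (hX : X ∈ Lie Q) (c : ℝ) :
    X - c • (1 : EndV) ∈ Lie Q := by
  have h1 := lie_add hQ hX (lie_smul (lie_one hQ) (-c))
  have h2 : X + (-c) • (1 : EndV) = X - c • (1 : EndV) := by module
  rwa [h2] at h1

/-- iterated commutator -/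
noncomputable def iterC (Y Z : EndV) : ℕ → EndV
  | 0 => Z
  | n + 1 => iterC Y Z n * Y - Y * iterC Y Z n

theorem coord_iterC_zero (Y Z : EndV) (ξ : V →L[ℝ] ℝ) (v : V)
    (h : ∀ s : ℝ, ξ ((NormedSpace.exp ((-s) • Y) * Z * NormedSpace.exp (s • Y) : EndV) v) = 0)
    (n : ℕ) : ∀ s : ℝ, ξ ((NormedSpace.exp ((-s) • Y) * iterC Y Z n *
      NormedSpace.exp (s • Y) : EndV) v) = 0 := by
  induction n with
  | zero => exact h
  | succ n ih =>
    intro s
    have h1 := ghasDerivAt_conj Y (iterC Y Z n) s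
    have h2 : HasDerivAt (fun s : ℝ => ξ ((NormedSpace.exp ((-s) • Y) * iterC Y Z n *
        NormedSpace.exp (s • Y) : EndV) v))
        (ξ ((NormedSpace.exp ((-s) • Y) * (iterC Y Z n * Y - Y * iterC Y Z n) *
        NormedSpace.exp (s • Y) : EndV) v)) s := by
      have h3 := (h1.clm_apply (hasDerivAt_const s v))
      simp only [map_zero, add_zero] at h3
      exact ξ.hasFDerivAt.comp_hasDerivAt s h3
    have h4 : (fun s : ℝ => ξ ((NormedSpace.exp ((-s) • Y) * iterC Y Z n *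
        NormedSpace.exp (s • Y) : EndV) v)) = fun _ => 0 := funext ih
    rw [h4] at h2
    have h5 := h2.unique (hasDerivAt_const s (0:ℝ))
    exact h5

theorem coord_iterC_zero' (Y Z : EndV) (ξ : V →L[ℝ] ℝ) (v : V)
    (h : ∀ s : ℝ, ξ ((NormedSpace.exp ((-s) • Y) * Z * NormedSpace.exp (s • Y) : EndV) v) = 0)
    (n : ℕ) : ξ (iterC Y Z n v) = 0 := by
  have := coord_iterC_zero Y Z ξ v h n 0
  simpa using this

/-- algebra in a basis -/
theorem nonflat_algebra (e : Module.Basis (Fin 3) ℝ V) {Y Z : EndV} (α β : ℝ)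
    (hY0 : Y (e 0) = e 1) (hY1 : Y (e 1) = e 2) (hY2 : Y (e 2) = α • e 0 + β • e 1)
    (hZ0 : Z (e 0) = 0)
    (h : ∀ s : ℝ, e.repr ((NormedSpace.exp ((-s) • Y) * Z * NormedSpace.exp (s • Y) : EndV)
      (e 0)) 2 = 0) (hZ : Z ≠ 0) :
    α = 0 ∧ ∃ b d : ℝ, (b ≠ 0 ∨ d ≠ 0) ∧ Z (e 1) = b • e 0 + d • e 1 ∧
      Z (e 2) = (-(d * β)) • e 0 + b • e 1 + (2 * d) • e 2 := by
  set W : ℕ → Matrix (Fin 3) (Fin 3) ℝ := fun n => LinearMap.toMatrix e e (iterC Y Z n : V →ₗ[ℝ] V)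
    with hW
  have hent : ∀ n i j, W n i j = e.repr (iterC Y Z n (e j)) i := by
    intro n i j
    rw [hW]
    simp [LinearMap.toMatrix_apply]
  have hYm : LinearMap.toMatrix e e (Y : V →ₗ[ℝ] V) = !![0, 0, α; 1, 0, β; 0, 1, 0] := by
    ext i j
    rw [LinearMap.toMatrix_apply]
    fin_cases i <;> fin_cases j <;> simp [hY0, hY1, hY2, Finsupp.single_apply]
  have hs : ∀ n, W (n + 1) = W n * !![0, 0, α; 1, 0, β; 0, 1, 0] -
      !![0, 0, α; 1, 0, β; 0, 1, 0] * W n := by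
    intro n
    rw [← hYm, hW]
    simp only
    rw [← LinearMap.toMatrix_mul, ← LinearMap.toMatrix_mul, ← map_sub]
    rfl
  set ξ : V →L[ℝ] ℝ := LinearMap.toContinuousLinearMap (e.coord 2) with hξ
  have hξa : ∀ z, ξ z = e.repr z 2 := fun z => rfl
  have hz : ∀ n, W n 2 0 = 0 := by
    intro n
    rw [hent, ← hξa]
    exact coord_iterC_zero' Y Z ξ (e 0) (fun s => by rw [hξa]; exact h s) n
  have h0 : W 0 = !![0, W 0 0 1, W 0 0 2; 0, W 0 1 1, W 0 1 2; 0, W 0 2 1, W 0 2 2] := by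
    ext i j
    fin_cases i <;> fin_cases j <;> simp
    all_goals
      rw [hent]
      show e.repr (Z (e 0)) _ = 0
      rw [hZ0]; simp
  obtain ⟨a1, a2, a3, a4, a5, a6⟩ := alg_matrix α β _ _ _ _ _ _ W h0 hs hz
  have hZe1 : Z (e 1) = (W 0 0 1) • e 0 + (W 0 1 1) • e 1 := by
    have h1 := e.sum_repr (Z (e 1))
    rw [Fin.sum_univ_three] at h1
    have k0 : e.repr (Z (e 1)) 0 = W 0 0 1 := (hent 0 0 1).symm
    have k1 : e.repr (Z (e 1)) 1 = W 0 1 1 := (hent 0 1 1).symm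
    have k2 : e.repr (Z (e 1)) 2 = W 0 2 1 := (hent 0 2 1).symm
    rw [k0, k1, k2, a1, zero_smul, add_zero] at h1
    exact h1.symm
  have hZe2 : Z (e 2) = (-(W 0 1 1 * β)) • e 0 + (W 0 0 1) • e 1 + (2 * W 0 1 1) • e 2 := by
    have h1 := e.sum_repr (Z (e 2))
    rw [Fin.sum_univ_three] at h1
    have k0 : e.repr (Z (e 2)) 0 = W 0 0 2 := (hent 0 0 2).symm
    have k1 : e.repr (Z (e 2)) 1 = W 0 1 2 := (hent 0 1 2).symm
    have k2 : e.repr (Z (e 2)) 2 = W 0 2 2 := (hent 0 2 2).symm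
    rw [k0, k1, k2, a4, a3, a2] at h1
    exact h1.symm
  have hbd : W 0 0 1 ≠ 0 ∨ W 0 1 1 ≠ 0 := by
    by_contra hcon
    push Not at hcon
    apply hZ
    have : (Z : V →ₗ[ℝ] V) = 0 := by
      apply e.ext
      intro i
      fin_cases i
      · simpa using hZ0
      · simp only [ContinuousLinearMap.coe_coe]
        show Z (e 1) = 0
        rw [hZe1, hcon.1, hcon.2]; simp
      · show Z (e 2) = 0
        rw [hZe2, hcon.1, hcon.2]; simp
    ext1 z
    exact congrArg (fun f : V →ₗ[ℝ] V => f z) this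
  refine ⟨?_, W 0 0 1, W 0 1 1, hbd, hZe1, hZe2⟩
  rcases hbd with h | h
  · rcases mul_eq_zero.mp a6 with h' | h'
    · exact absurd h' h
    · exact h'
  · rcases mul_eq_zero.mp a5 with h' | h'
    · exact absurd h' h
    · exact h'

end Pool.Agent.Helper438.Proj
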