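import Pool.Agent.Helper438.Proj.Family

namespace Pool.Agent.Helper438.Proj

open Set Filter Topology

abbrev v0 : V := ![0, 0, 1]

theorem v0_mem {K : Set E3} (hK : Body K) (A B : E3) : v0 ∈ interior (Qf K A B) := by
  rw [hK.mem_interior_iff]
  simp [gauge_zero]

theorem frontier_disj {K : Set E3} (hK : Body K) {A B : E3} (hAB : LinearIndependent ℝ ![A, B])
    {z : V} (hz : z ∈ interior (Qf K A B)) :
    ¬ (z ∈ frontier (Qf K A B) ∨ -z ∈ frontier (Qf K A B)) := by
  rintro (h | h)
  · exact h.2 hz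
  · have h1 : -z ∈ Qf K A B := (hK.closedQ A B).frontier_subset h
    have h2 : z ∈ Qf K A B := interior_subset hz
    have h3 := (hK.isPC hAB).salient z h2 h1
    rw [hK.mem_interior_iff, h3] at hz
    simp [gauge_zero] at hz

theorem sep {K : Set E3} (hK : Body K) {A B : E3} (hAB : LinearIndependent ℝ ![A, B])
    {w : V} (hw : w ∉ Qf K A B) (hnw : -w ∉ Qf K A B) :
    ∃ f : V →L[ℝ] ℝ, f w = 0 ∧ ∀ z ∈ Qf K A B, z ≠ 0 → f z < 0 := by
  have hPC := hK.isPC hAB
  set s : Set V := {z | z ∈ Qf K A B ∧ z 2 = 1} with hs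
  set t : Set V := ((Submodule.span ℝ {w} : Submodule ℝ V) : Set V) with ht
  have hsc : Convex ℝ s := by
    apply hPC.convex.inter
    intro x hx y hy a b _ _ hab
    show (a • x + b • y) 2 = 1
    have hx' : x 2 = 1 := hx
    have hy' : y 2 = 1 := hy
    simp [hx', hy', hab]
  have hcl : IsClosed s := hPC.closed.inter (isClosed_eq (by fun_prop) continuous_const)
  have hcomp : IsCompact s := by
    rw [Metric.isCompact_iff_isClosed_bounded]
    refine ⟨hcl, ?_⟩
    -- gauge bounded below on the unit sphere of the plane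
    by_contra hub
    have h1 : ∀ n : ℕ, ∃ z ∈ s, (n : ℝ) + 1 < ‖z‖ := by
      intro n
      by_contra hcon
      push Not at hcon
      exact hub (isBounded_iff_forall_norm_le.mpr ⟨_, hcon⟩)
    choose z hzs hzn using h1
    have hsph : IsCompact (Metric.sphere (0 : V) 1) := isCompact_sphere _ _
    have hzpos : ∀ n, 0 < ‖z n‖ := fun n => lt_of_le_of_lt (by positivity) (hzn n)
    have h2 : ∀ n, ‖z n‖⁻¹ • z n ∈ Metric.sphere (0 : V) 1 := by
      intro n
      rw [mem_sphere_zero_iff_norm, norm_smul, norm_inv, norm_norm,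
        inv_mul_cancel₀ (hzpos n).ne']
    obtain ⟨u, hu, φ, hφ, hlim⟩ := hsph.tendsto_subseq h2
    have hQ : u ∈ Qf K A B := by
      refine hPC.closed.mem_of_tendsto hlim (Eventually.of_forall fun n => ?_)
      exact hPC.smul_mem _ (inv_nonneg.mpr (norm_nonneg _)) _ (hzs _).1
    have hinv : Tendsto (fun n => ‖z (φ n)‖⁻¹) atTop (𝓝 0) := by
      have h3 : Tendsto (fun n => ‖z n‖) atTop atTop := by
        refine tendsto_atTop_mono (fun n => (hzn n).le) ?_
        exact tendsto_atTop_add_const_right _ _ tendsto_natCast_atTop_atTop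
      exact (h3.comp hφ.tendsto_atTop).inv_tendsto_atTop
    have hu2 : u 2 = 0 := by
      have h4 : Tendsto (fun n => (‖z (φ n)‖⁻¹ • z (φ n)) 2) atTop (𝓝 (u 2)) :=
        ((continuous_apply 2).tendsto u).comp hlim
      have h5 : (fun n => (‖z (φ n)‖⁻¹ • z (φ n)) 2) = fun n => ‖z (φ n)‖⁻¹ := by
        funext n
        have : z (φ n) 2 = 1 := (hzs (φ n)).2
        simp [this]
      rw [h5] at h4
      exact tendsto_nhds_unique h4 hinv
    have hu0 : u ≠ 0 := by
      intro h
      rw [h] at hu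
      simp at hu
    have := hK.pos_of_mem hAB hQ hu0
    linarith
  have htc : Convex ℝ t := (Submodule.span ℝ {w}).convex
  have htcl : IsClosed t := Submodule.closed_of_finiteDimensional _
  have hdisj : Disjoint s t := by
    rw [Set.disjoint_left]
    rintro z ⟨hz1, hz2⟩ hzt
    obtain ⟨c, hc⟩ := Submodule.mem_span_singleton.mp hzt
    rcases lt_trichotomy c 0 with h | h | h
    · apply hnw
      have : -w = (-c)⁻¹ • z := by
        rw [← hc, smul_smul]
        have : (-c)⁻¹ * c = -1 := by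
          rw [inv_neg, neg_mul, inv_mul_cancel₀ h.ne]
        rw [this]; simp
      rw [this]
      exact hPC.smul_mem _ (inv_nonneg.mpr (by linarith)) _ hz1
    · rw [← hc, h] at hz2
      simp at hz2
    · apply hw
      have : w = c⁻¹ • z := by
        rw [← hc, smul_smul, inv_mul_cancel₀ h.ne', one_smul]
      rw [this]
      exact hPC.smul_mem _ (inv_nonneg.mpr h.le) _ hz1
  obtain ⟨f, a, b, h1, h2, h3⟩ := geometric_hahn_banach_compact_closed hsc hcomp htc htcl hdisj
  have hfw : f w = 0 := by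
    by_contra hne
    have h4 := h3 (((b - 1) / f w) • w) (Submodule.smul_mem _ _ (Submodule.mem_span_singleton_self w))
    rw [map_smul, smul_eq_mul, div_mul_cancel₀ _ hne] at h4
    linarith
  have hb : b < 0 := by
    have h4 := h3 (0 : V) (Submodule.zero_mem _)
    simpa using h4
  refine ⟨f, hfw, ?_⟩
  intro z hz hz0
  have hpos := hK.pos_of_mem hAB hz hz0
  have h4 : (z 2)⁻¹ • z ∈ s := by
    refine ⟨hPC.smul_mem _ (inv_nonneg.mpr hpos.le) _ hz, ?_⟩
    show (z 2)⁻¹ * z 2 = 1
    exact inv_mul_cancel₀ hpos.ne'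
  have h5 := h1 _ h4
  rw [map_smul, smul_eq_mul] at h5
  have h6 : (z 2)⁻¹ * f z < 0 := by linarith
  by_contra hcon
  push Not at hcon
  have : 0 ≤ (z 2)⁻¹ * f z := mul_nonneg (inv_nonneg.mpr hpos.le) hcon
  linarith

theorem sign_aux {K : Set E3} (hK : Body K) {A B A' B' : E3}
    (hAB : LinearIndependent ℝ ![A, B]) (hAB' : LinearIndependent ℝ ![A', B']) (L : V ≃L[ℝ] V)
    (hL : ∀ z, (z ∈ frontier (Qf K A B) ∨ -z ∈ frontier (Qf K A B)) ↔
      (L z ∈ frontier (Qf K A' B') ∨ -(L z) ∈ frontier (Qf K A' B')))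
    (hv : L v0 ∈ Qf K A' B') : ∀ z, z ∈ Qf K A B ↔ L z ∈ Qf K A' B' := by
  have hPC := hK.isPC hAB
  have hPC' := hK.isPC hAB'
  have hvint : L v0 ∈ interior (Qf K A' B') := by
    by_contra hni
    have h1 : L v0 ∈ frontier (Qf K A' B') := by
      rw [(hK.closedQ A' B').frontier_eq]
      exact ⟨hv, hni⟩
    exact frontier_disj hK hAB (v0_mem hK A B) ((hL v0).mpr (Or.inl h1))
  have step1 : L '' interior (Qf K A B) ⊆ interior (Qf K A' B') := by
    have hpre : IsPreconnected (L '' interior (Qf K A B)) :=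
      (hPC.convex.interior.isPreconnected).image _ L.continuous.continuousOn
    apply hpre.subset_left_of_subset_union (v := (Qf K A' B')ᶜ) isOpen_interior
      (hK.closedQ A' B').isOpen_compl
    · rw [Set.disjoint_left]
      intro x hx hx'
      exact hx' (interior_subset hx)
    · rintro _ ⟨z, hz, rfl⟩
      by_contra hcon
      rw [mem_union, not_or] at hcon
      obtain ⟨h1, h2⟩ := hcon
      rw [mem_compl_iff, not_not] at h2
      have h3 : L z ∈ frontier (Qf K A' B') := by
        rw [(hK.closedQ A' B').frontier_eq]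
        exact ⟨h2, h1⟩
      exact frontier_disj hK hAB hz ((hL z).mpr (Or.inl h3))
    · exact ⟨L v0, ⟨v0, v0_mem hK A B, rfl⟩, hvint⟩
  have step2 : L.symm '' interior (Qf K A' B') ⊆ interior (Qf K A B) := by
    have hpre : IsPreconnected (L.symm '' interior (Qf K A' B')) :=
      (hPC'.convex.interior.isPreconnected).image _ L.symm.continuous.continuousOn
    apply hpre.subset_left_of_subset_union (v := (Qf K A B)ᶜ) isOpen_interior
      (hK.closedQ A B).isOpen_compl
    · rw [Set.disjoint_left]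
      intro x hx hx'
      exact hx' (interior_subset hx)
    · rintro _ ⟨z, hz, rfl⟩
      by_contra hcon
      rw [mem_union, not_or] at hcon
      obtain ⟨h1, h2⟩ := hcon
      rw [mem_compl_iff, not_not] at h2
      have h3 : L.symm z ∈ frontier (Qf K A B) := by
        rw [(hK.closedQ A B).frontier_eq]
        exact ⟨h2, h1⟩
      have h4 := (hL (L.symm z)).mp (Or.inl h3)
      rw [L.apply_symm_apply] at h4
      exact frontier_disj hK hAB' hz h4
    · exact ⟨v0, ⟨L v0, hvint, L.symm_apply_apply _⟩, v0_mem hK A B⟩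
  have hint : L ⁻¹' interior (Qf K A' B') = interior (Qf K A B) := by
    ext z
    constructor
    · intro h
      have := step2 ⟨L z, h, rfl⟩
      rwa [L.symm_apply_apply] at this
    · intro h
      exact step1 ⟨z, h, rfl⟩
  have c1 : closure (interior (Qf K A B)) = Qf K A B := by
    rw [hPC.convex.closure_interior_eq_closure_of_nonempty_interior hPC.int_nonempty,
      hPC.closed.closure_eq]
  have c2 : closure (interior (Qf K A' B')) = Qf K A' B' := by
    rw [hPC'.convex.closure_interior_eq_closure_of_nonempty_interior hPC'.int_nonempty,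
      hPC'.closed.closure_eq]
  have c3 : L ⁻¹' (Qf K A' B') = Qf K A B := by
    rw [← c1, ← hint, ← c2]
    have := L.toHomeomorph.preimage_closure (interior (Qf K A' B'))
    rw [c2] at this ⊢
    exact this
  intro z
  rw [← c3]
  rfl

theorem sign_lemma {K : Set E3} (hK : Body K) {A B A' B' : E3}
    (hAB : LinearIndependent ℝ ![A, B]) (hAB' : LinearIndependent ℝ ![A', B']) (L : V ≃L[ℝ] V)
    (hL : ∀ z, (z ∈ frontier (Qf K A B) ∨ -z ∈ frontier (Qf K A B)) ↔
      (L z ∈ frontier (Qf K A' B') ∨ -(L z) ∈ frontier (Qf K A' B'))) :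
    ∃ M : V ≃L[ℝ] V, ∀ z, z ∈ Qf K A B ↔ M z ∈ Qf K A' B' := by
  by_cases h1 : L v0 ∈ Qf K A' B'
  · exact ⟨L, sign_aux hK hAB hAB' L hL h1⟩
  by_cases h2 : -(L v0) ∈ Qf K A' B'
  · refine ⟨L.trans (ContinuousLinearEquiv.neg ℝ), sign_aux hK hAB hAB' _ ?_ h2⟩
    intro z
    rw [hL z]
    show _ ↔ (-(L z) ∈ frontier (Qf K A' B') ∨ -(-(L z)) ∈ frontier (Qf K A' B'))
    rw [neg_neg]
    exact or_comm
  exfalso
  obtain ⟨f, hf0, hf⟩ := sep hK hAB' h1 h2
  -- a direction in the kernel
  obtain ⟨a, b, hab, hg⟩ : ∃ a b : ℝ, (a ≠ 0 ∨ b ≠ 0) ∧ f (L ![a, b, 0]) = 0 := by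
    by_cases hc : f (L ![1, 0, 0]) = 0
    · exact ⟨1, 0, Or.inl one_ne_zero, hc⟩
    · refine ⟨-(f (L ![0, 1, 0])), f (L ![1, 0, 0]), Or.inr hc, ?_⟩
      have e : (![-(f (L ![0, 1, 0])), f (L ![1, 0, 0]), 0] : V) =
          (-(f (L ![0, 1, 0]))) • ![1, 0, 0] + (f (L ![1, 0, 0])) • ![0, 1, 0] := by
        ext i; fin_cases i <;> simp
      rw [e, map_add, map_add, map_smul, map_smul, map_smul, map_smul, smul_eq_mul, smul_eq_mul]
      ring
  set z : V := ![a, b, gauge K (a • A + b • B)] with hz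
  have hzf : z ∈ frontier (Qf K A B) := by
    rw [hK.mem_frontier_iff]
    simp [hz]
  have hz0 : z ≠ 0 := by
    intro h
    rcases hab with h' | h'
    · apply h'
      have := congrFun h 0
      simpa [hz] using this
    · apply h'
      have := congrFun h 1
      simpa [hz] using this
  have hfz : f (L z) = 0 := by
    have e : z = ![a, b, 0] + (gauge K (a • A + b • B)) • v0 := by
      ext i; fin_cases i <;> simp [hz]
    rw [e, map_add, map_add, map_smul, map_smul, hf0, hg]
    simp
  have hLz0 : L z ≠ 0 := by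
    intro h
    apply hz0
    exact (map_eq_zero_iff L L.injective).mp h
  rcases (hL z).mp (Or.inl hzf) with h | h
  · have := hf _ ((hK.closedQ A' B').frontier_subset h) hLz0
    linarith
  · have := hf _ ((hK.closedQ A' B').frontier_subset h) (neg_ne_zero.mpr hLz0)
    rw [map_neg] at this
    linarith

end Pool.Agent.Helper438.Proj
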