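import Pool.Agent.Helper438.Proj.Setup

namespace Pool.Agent.Helper438.Proj

open Set Filter Topology

/-- coordinates on `H × ℝ` -/
noncomputable def phiLin (A B : E3) :
    V →ₗ[ℝ] (↥(Submodule.span ℝ (Set.range ![A, B])) × ℝ) where
  toFun z := (⟨z 0 • A + z 1 • B, by
    apply Submodule.add_mem
    · exact Submodule.smul_mem _ _ (Submodule.subset_span ⟨0, rfl⟩)
    · exact Submodule.smul_mem _ _ (Submodule.subset_span ⟨1, rfl⟩)⟩, z 2)
  map_add' x y := by
    ext1
    · apply Subtype.ext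
      simp only [Pi.add_apply, Prod.fst_add, Submodule.coe_add]
      module
    · simp
  map_smul' c x := by
    ext1
    · apply Subtype.ext
      simp only [Pi.smul_apply, Prod.smul_fst, Submodule.coe_smul, smul_eq_mul, RingHom.id_apply]
      module
    · simp

theorem phiLin_inj {A B : E3} (hAB : LinearIndependent ℝ ![A, B]) :
    Function.Injective (phiLin A B) := by
  rw [← LinearMap.ker_eq_bot, LinearMap.ker_eq_bot']
  intro z hz
  have h1 : z 0 • A + z 1 • B = 0 := congrArg (fun p => (p.1 : E3)) hz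
  have h2 : z 2 = 0 := congrArg Prod.snd hz
  rw [LinearIndependent.pair_iff] at hAB
  obtain ⟨h5, h6⟩ := hAB _ _ h1
  ext i
  fin_cases i
  · exact h5
  · exact h6
  · exact h2

theorem finrank_H {A B : E3} (hAB : LinearIndependent ℝ ![A, B]) :
    Module.finrank ℝ ↥(Submodule.span ℝ (Set.range ![A, B])) = 2 := by
  rw [finrank_span_eq_card hAB]
  simp

/-- the coordinate isomorphism -/
noncomputable def phi {A B : E3} (hAB : LinearIndependent ℝ ![A, B]) :
    V ≃ₗ[ℝ] (↥(Submodule.span ℝ (Set.range ![A, B])) × ℝ) :=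
  LinearMap.linearEquivOfInjective (phiLin A B) (phiLin_inj hAB) (by
    rw [Module.finrank_prod, finrank_H hAB]
    simp)

theorem phi_apply {A B : E3} (hAB : LinearIndependent ℝ ![A, B]) (z : V) :
    phi hAB z = phiLin A B z := rfl

/-- double cone -/
def DC (K : Set E3) (H : Submodule ℝ E3) : Set (↥H × ℝ) :=
  {p : ↥H × ℝ | ∃ t : ℝ, ∃ x : ↥H, (x : E3) ∈ frontier K ∧ p = (t • x, t)}

theorem mem_DC {K : Set E3} (hK : Body K) {A B : E3} (hAB : LinearIndependent ℝ ![A, B]) (z : V) :
    phi hAB z ∈ DC K (Submodule.span ℝ (Set.range ![A, B])) ↔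
      (z ∈ frontier (Qf K A B) ∨ -z ∈ frontier (Qf K A B)) := by
  rw [hK.mem_frontier_iff, hK.mem_frontier_iff, phi_apply]
  have hneg : (-z) 0 • A + (-z) 1 • B = -(z 0 • A + z 1 • B) := by
    simp only [Pi.neg_apply]; module
  rw [hneg]
  have hA0 : A ≠ 0 := by
    have := hAB.ne_zero 0
    simpa using this
  set w := z 0 • A + z 1 • B with hw
  constructor
  · rintro ⟨t, x, hx, hp⟩
    have h1 : w = t • (x : E3) := congrArg (fun p => (p.1 : E3)) hp
    have h2 : z 2 = t := congrArg Prod.snd hp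
    rw [hK.frontier_iff] at hx
    rcases le_total 0 t with h | h
    · left
      rw [h1, hK.smul h, hx, h2, mul_one]
    · right
      rw [h1, ← neg_smul, hK.smul (by linarith), hx, Pi.neg_apply, h2, mul_one]
  · intro h
    have hcase : ∀ (u : ℝ), u ≠ 0 → z 2 = u → gauge K (u⁻¹ • w) = 1 →
        phiLin A B z ∈ DC K (Submodule.span ℝ (Set.range ![A, B])) := by
      intro u hu hzu hg
      refine ⟨u, u⁻¹ • (phiLin A B z).1, ?_, ?_⟩
      · rw [hK.frontier_iff]
        exact hg
      · ext1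
        · show (phiLin A B z).1 = u • (u⁻¹ • (phiLin A B z).1)
          rw [smul_smul, mul_inv_cancel₀ hu, one_smul]
        · exact hzu
    have hzero : z 2 = 0 → w = 0 → phiLin A B z ∈ DC K (Submodule.span ℝ (Set.range ![A, B])) := by
      intro hz2 hw0
      refine ⟨0, ⟨(gauge K A)⁻¹ • A, Submodule.smul_mem _ _ (Submodule.subset_span ⟨0, rfl⟩)⟩, ?_, ?_⟩
      · rw [hK.frontier_iff]
        show gauge K ((gauge K A)⁻¹ • A) = 1
        rw [hK.smul (inv_nonneg.mpr (gauge_nonneg _)), inv_mul_cancel₀ (hK.pos hA0).ne']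
      · ext1
        · apply Subtype.ext
          show w = _
          rw [hw0]; simp
        · exact hz2
    rcases h with h | h
    · have hnn := gauge_nonneg (s := K) w
      rcases hnn.lt_or_eq with h1 | h1
      · have hz2 : 0 < z 2 := by rw [← h]; exact h1
        apply hcase (z 2) hz2.ne' rfl
        rw [hK.smul (inv_nonneg.mpr hz2.le), h, inv_mul_cancel₀ hz2.ne']
      · apply hzero
        · rw [← h]; exact h1.symm
        · exact hK.eq_zero.mp h1.symm
    · have hnn := gauge_nonneg (s := K) (-w)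
      rw [Pi.neg_apply] at h
      rcases hnn.lt_or_eq with h1 | h1
      · have hz2 : 0 < -(z 2) := by rw [← h]; exact h1
        apply hcase (z 2) (by linarith) rfl
        have : (z 2)⁻¹ • w = (-(z 2))⁻¹ • (-w) := by
          rw [inv_neg, neg_smul, smul_neg, neg_neg]
        rw [this, hK.smul (inv_nonneg.mpr hz2.le), h, inv_mul_cancel₀ hz2.ne']
      · apply hzero
        · have : -(z 2) = 0 := by rw [← h]; exact h1.symm
          linarith
        · have := hK.eq_zero.mp h1.symm
          exact neg_eq_zero.mp this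

/-- existence of transporters -/
theorem exists_equiv {K : Set E3} (hK : Body K)
    (hyp : ∀ H₁ H₂ : Submodule ℝ (EuclideanSpace ℝ (Fin 3)),
        Module.finrank ℝ H₁ = 2 → Module.finrank ℝ H₂ = 2 →
        ∃ L : (↥H₁ × ℝ) ≃ₗ[ℝ] (↥H₂ × ℝ),
          ⇑L '' {p : ↥H₁ × ℝ | ∃ t : ℝ, ∃ x : ↥H₁,
              (x : EuclideanSpace ℝ (Fin 3)) ∈ frontier K ∧ p = (t • x, t)} =
            {p : ↥H₂ × ℝ | ∃ t : ℝ, ∃ x : ↥H₂,
              (x : EuclideanSpace ℝ (Fin 3)) ∈ frontier K ∧ p = (t • x, t)})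
    {A B A' B' : E3}
    (hAB : LinearIndependent ℝ ![A, B]) (hAB' : LinearIndependent ℝ ![A', B']) :
    ∃ M : V ≃L[ℝ] V, ∀ z, z ∈ Qf K A B ↔ M z ∈ Qf K A' B' := by
  obtain ⟨Lh, hLh⟩ := hyp _ _ (finrank_H hAB) (finrank_H hAB')
  set L0 : V ≃ₗ[ℝ] V := (phi hAB).trans (Lh.trans (phi hAB').symm) with hL0
  apply sign_lemma hK hAB hAB' L0.toContinuousLinearEquiv
  intro z
  have e1 : phi hAB' (L0.toContinuousLinearEquiv z) = Lh (phi hAB z) := by
    show phi hAB' ((phi hAB').symm (Lh (phi hAB z))) = _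
    exact LinearEquiv.apply_symm_apply _ _
  rw [← mem_DC hK hAB, ← mem_DC hK hAB', e1]
  have hset : Lh '' (DC K (Submodule.span ℝ (Set.range ![A, B]))) =
    DC K (Submodule.span ℝ (Set.range ![A', B'])) := hLh
  rw [← hset]
  exact (Lh.injective.mem_set_image).symm

end Pool.Agent.Helper438.Proj
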